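import Pool.Agent.H257.BG.Stm2

/-!
# BGN: `SL_n(ℤ)` is boundedly generated by conjugates of `SL_2(ℤ)` (helper864 for helper257)

With `G_k` the matrices which differ from `1` only in the first `k` rows and columns and `S` those
which differ from `1` only in the coordinates `0, k`: `G_(k+1) ⊆ G_k S G_k S G_k`.
-/

set_option autoImplicit false

namespace Pool.Agent.H257.BG.BGN

open Matrix Pool.Agent.H257.BG

/-! ### Products of conjugates -/

/-- products of conjugates along a list -/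
def Pr {G : Type} [Group G] (A : Set G) : List G → Set G
  | [] => {1}
  | g :: L => {x | ∃ a ∈ A, ∃ y ∈ Pr A L, x = g * a * g⁻¹ * y}

/-- contained in a product of conjugates -/
def Bd {G : Type} [Group G] (A P : Set G) : Prop := ∃ L : List G, ∀ x ∈ P, x ∈ Pr A L

theorem pr_append {G : Type} [Group G] {A : Set G} {L1 L2 : List G} {x y : G} (hx : x ∈ Pr A L1)
    (hy : y ∈ Pr A L2) : x * y ∈ Pr A (L1 ++ L2) := by
  induction L1 generalizing x with
  | nil =>
    have h : x = 1 := hx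
    rw [h, one_mul]
    exact hy
  | cons g L ih =>
    obtain ⟨a, ha, z, hz, rfl⟩ := hx
    exact ⟨a, ha, z * y, ih hz, by group⟩

theorem Bd.mul {G : Type} [Group G] {A P Q R : Set G} (hP : Bd A P) (hQ : Bd A Q)
    (h : ∀ x ∈ R, ∃ p ∈ P, ∃ q ∈ Q, x = p * q) : Bd A R := by
  obtain ⟨L1, h1⟩ := hP
  obtain ⟨L2, h2⟩ := hQ
  refine ⟨L1 ++ L2, fun x hx => ?_⟩
  obtain ⟨p, hp, q, hq, rfl⟩ := h x hx
  exact pr_append (h1 p hp) (h2 q hq)

theorem Bd.conj {G : Type} [Group G] {A P : Set G} (g : G) (h : ∀ x ∈ P, g⁻¹ * x * g ∈ A) :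
    Bd A P :=
  ⟨[g], fun x hx => ⟨g⁻¹ * x * g, h x hx, 1, rfl, by group⟩⟩

theorem key {G : Type} [Group G] {A : Set G} (L : List G) : ∀ x : G, x ∈ Pr A L →
    ∃ a : Fin L.length → G, (∀ i, a i ∈ A) ∧
      x = (List.ofFn fun i => L.get i * a i * (L.get i)⁻¹).prod := by
  induction L with
  | nil =>
    intro x hx
    have h : x = 1 := hx
    exact ⟨fun i => i.elim0, fun i => i.elim0, by rw [h]; rfl⟩
  | cons g L ih =>
    rintro x ⟨a, ha, y, hy, rfl⟩
    obtain ⟨b, hb, rfl⟩ := ih y hy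
    refine ⟨(Fin.cons a b : Fin (L.length + 1) → G), fun i => ?_, ?_⟩
    · exact Fin.cases (motive := fun i => (Fin.cons a b : Fin (L.length + 1) → G) i ∈ A) ha hb i
    · show _ = (List.ofFn (n := L.length + 1) fun i => (g :: L).get i *
        (Fin.cons a b : Fin (L.length + 1) → G) i * ((g :: L).get i)⁻¹).prod
      rw [List.ofFn_succ, List.prod_cons]
      rfl

theorem to_BGen {G : Type} [Group G] {A : Set G} (h : Bd A Set.univ) : BGen A := by
  obtain ⟨L, hL⟩ := h
  exact ⟨L.length, L.get, fun x => key L x (hL x trivial)⟩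

/-! ### Matrices supported on a set of coordinates -/

variable {n : ℕ}

/-- the matrices which differ from the identity only in the coordinates `I` -/
def Su (I : Fin n → Prop) : Set (SpecialLinearGroup (Fin n) ℤ) :=
  {g | ∀ i j : Fin n, (¬ I i ∨ ¬ I j) → g.1 i j = if i = j then 1 else 0}

theorem cmul (g h : SpecialLinearGroup (Fin n) ℤ) : (g * h).1 = g.1 * h.1 := rfl

theorem cone : (1 : SpecialLinearGroup (Fin n) ℤ).1 = 1 := rfl

theorem mul_row {I : Fin n → Prop} {g : SpecialLinearGroup (Fin n) ℤ} (hg : g ∈ Su I) {i : Fin n}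
    (hi : ¬ I i) (h : SpecialLinearGroup (Fin n) ℤ) (j : Fin n) : (g * h).1 i j = h.1 i j := by
  rw [cmul, Matrix.mul_apply, Finset.sum_eq_single i]
  · rw [hg i i (Or.inl hi), if_pos rfl, one_mul]
  · intro l _ hl
    rw [hg i l (Or.inl hi), if_neg (Ne.symm hl), zero_mul]
  · intro h'
    exact absurd (Finset.mem_univ i) h'

theorem mul_col {I : Fin n → Prop} {h : SpecialLinearGroup (Fin n) ℤ} (hh : h ∈ Su I) {j : Fin n}
    (hj : ¬ I j) (g : SpecialLinearGroup (Fin n) ℤ) (i : Fin n) : (g * h).1 i j = g.1 i j := by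
  rw [cmul, Matrix.mul_apply, Finset.sum_eq_single j]
  · rw [hh j j (Or.inr hj), if_pos rfl, mul_one]
  · intro l _ hl
    rw [hh l j (Or.inr hj), if_neg hl, mul_zero]
  · intro h'
    exact absurd (Finset.mem_univ j) h'

theorem one_mem (I : Fin n → Prop) : (1 : SpecialLinearGroup (Fin n) ℤ) ∈ Su I := by
  intro i j _
  rw [cone, Matrix.one_apply]

theorem mul_mem {I : Fin n → Prop} {g h : SpecialLinearGroup (Fin n) ℤ} (hg : g ∈ Su I)
    (hh : h ∈ Su I) : g * h ∈ Su I := by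
  intro i j hij
  rcases hij with hi | hj
  · rw [mul_row hg hi]
    exact hh i j (Or.inl hi)
  · rw [mul_col hh hj]
    exact hg i j (Or.inr hj)

theorem inv_mem {I : Fin n → Prop} {g : SpecialLinearGroup (Fin n) ℤ} (hg : g ∈ Su I) :
    g⁻¹ ∈ Su I := by
  intro i j hij
  rcases hij with hi | hj
  · rw [← mul_row hg hi, mul_inv_cancel]
    exact one_mem I i j (Or.inl hi)
  · rw [← mul_col hg hj, inv_mul_cancel]
    exact one_mem I i j (Or.inr hj)

theorem su_mono {I J : Fin n → Prop} (h : ∀ i, I i → J i) : Su I ⊆ Su J := by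
  intro g hg i j hij
  exact hg i j (hij.imp (fun h1 h2 => h1 (h i h2)) (fun h1 h2 => h1 (h j h2)))

/-- the transpose -/
def tr (g : SpecialLinearGroup (Fin n) ℤ) : SpecialLinearGroup (Fin n) ℤ :=
  ⟨g.1ᵀ, by rw [Matrix.det_transpose]; exact g.2⟩

theorem tr_mem {I : Fin n → Prop} {g : SpecialLinearGroup (Fin n) ℤ} (hg : g ∈ Su I) :
    tr g ∈ Su I := by
  intro i j hij
  show g.1 j i = _
  rw [hg j i hij.symm]
  by_cases h : i = j
  · rw [if_pos h, if_pos h.symm]
  · rw [if_neg h, if_neg (Ne.symm h)]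

/-- action on vectors -/
theorem act_mul (g h : SpecialLinearGroup (Fin n) ℤ) (v : Fin n → ℤ) :
    (g * h).1 *ᵥ v = g.1 *ᵥ (h.1 *ᵥ v) := by
  rw [cmul, Matrix.mulVec_mulVec]

theorem act_inv (g : SpecialLinearGroup (Fin n) ℤ) (v : Fin n → ℤ) :
    g⁻¹.1 *ᵥ (g.1 *ᵥ v) = v := by
  rw [← act_mul, inv_mul_cancel, cone, Matrix.one_mulVec]

theorem act_inv' (g : SpecialLinearGroup (Fin n) ℤ) (v : Fin n → ℤ) :
    g.1 *ᵥ (g⁻¹.1 *ᵥ v) = v := by
  rw [← act_mul, mul_inv_cancel, cone, Matrix.one_mulVec]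

theorem su_row {I : Fin n → Prop} {g : SpecialLinearGroup (Fin n) ℤ} (hg : g ∈ Su I) {i : Fin n}
    (hi : ¬ I i) (v : Fin n → ℤ) : (g.1 *ᵥ v) i = v i := by
  show ∑ l, g.1 i l * v l = v i
  rw [Finset.sum_eq_single i]
  · rw [hg i i (Or.inl hi), if_pos rfl, one_mul]
  · intro l _ hl
    rw [hg i l (Or.inl hi), if_neg (Ne.symm hl), zero_mul]
  · intro h'
    exact absurd (Finset.mem_univ i) h'

theorem su_fix {I : Fin n → Prop} {g : SpecialLinearGroup (Fin n) ℤ} (hg : g ∈ Su I)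
    {v : Fin n → ℤ} (hv : ∀ l, I l → v l = 0) : g.1 *ᵥ v = v := by
  funext i
  show ∑ l, g.1 i l * v l = v i
  rw [Finset.sum_eq_single i]
  · by_cases hi : I i
    · rw [hv i hi, mul_zero]
    · rw [hg i i (Or.inl hi), if_pos rfl, one_mul]
  · intro l _ hl
    by_cases hI : I l
    · rw [hv l hI, mul_zero]
    · rw [hg i l (Or.inr hI), if_neg (Ne.symm hl), zero_mul]
  · intro h'
    exact absurd (Finset.mem_univ i) h'

/-- elementary matrices -/
def tv {i j : Fin n} (h : i ≠ j) (c : ℤ) : SpecialLinearGroup (Fin n) ℤ :=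
  ⟨transvection i j c, det_transvection_of_ne i j h c⟩

theorem tv_apply {i j : Fin n} (h : i ≠ j) (c : ℤ) (a b : Fin n) :
    (tv h c).1 a b = (if a = b then 1 else 0) + if a = i ∧ b = j then c else 0 := by
  show (1 + Matrix.single i j c : Matrix (Fin n) (Fin n) ℤ) a b = _
  rw [Matrix.add_apply, Matrix.one_apply, Matrix.single_apply]
  congr 1
  by_cases h1 : a = i ∧ b = j
  · rw [if_pos h1, if_pos ⟨h1.1.symm, h1.2.symm⟩]
  · rw [if_neg h1, if_neg fun h2 => h1 ⟨h2.1.symm, h2.2.symm⟩]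

theorem tv_mem {I : Fin n → Prop} {i j : Fin n} (h : i ≠ j) (hi : I i) (hj : I j) (c : ℤ) :
    tv h c ∈ Su I := by
  intro a b hab
  rw [tv_apply, if_neg (c := a = i ∧ b = j), add_zero]
  rintro ⟨rfl, rfl⟩
  rcases hab with h1 | h1
  · exact h1 hi
  · exact h1 hj

theorem tv_act {i j : Fin n} (h : i ≠ j) (c : ℤ) (v : Fin n → ℤ) (a : Fin n) :
    ((tv h c).1 *ᵥ v) a = v a + if a = i then c * v j else 0 := by
  show ∑ l, (tv h c).1 a l * v l = _
  simp only [tv_apply, add_mul, Finset.sum_add_distrib]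
  congr 1
  · simp
  · by_cases ha : a = i
    · simp [ha]
    · simp [ha]

theorem tv_right {i j : Fin n} (h : i ≠ j) (c : ℤ) (g : SpecialLinearGroup (Fin n) ℤ)
    (a b : Fin n) : (g * tv h c).1 a b = g.1 a b + if b = j then g.1 a i * c else 0 := by
  rw [cmul, Matrix.mul_apply]
  simp only [tv_apply, mul_add, Finset.sum_add_distrib]
  congr 1
  · simp
  · by_cases hb : b = j
    · simp [hb]
    · simp [hb]

/-- the swap with a sign -/
def sw {i j : Fin n} (h : i ≠ j) : SpecialLinearGroup (Fin n) ℤ :=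
  tv h 1 * (tv h.symm (-1) * tv h 1)

theorem sw_mem {I : Fin n → Prop} {i j : Fin n} (h : i ≠ j) (hi : I i) (hj : I j) :
    sw h ∈ Su I :=
  mul_mem (tv_mem h hi hj 1) (mul_mem (tv_mem h.symm hj hi (-1)) (tv_mem h hi hj 1))

theorem sw_i {i j : Fin n} (h : i ≠ j) (v : Fin n → ℤ) : ((sw h).1 *ᵥ v) i = v j := by
  unfold sw
  rw [act_mul, act_mul]
  simp only [tv_act, if_neg h, if_neg h.symm, if_true]
  ring

theorem sw_j {i j : Fin n} (h : i ≠ j) (v : Fin n → ℤ) : ((sw h).1 *ᵥ v) j = - v i := by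
  unfold sw
  rw [act_mul, act_mul]
  simp only [tv_act, if_neg h, if_neg h.symm, if_true]
  ring

theorem sw_l {i j : Fin n} (h : i ≠ j) (v : Fin n → ℤ) {l : Fin n} (hi : l ≠ i) (hj : l ≠ j) :
    ((sw h).1 *ᵥ v) l = v l := by
  unfold sw
  rw [act_mul, act_mul]
  simp only [tv_act, if_neg hi, if_neg hj, add_zero]

/-! ### The Euclidean algorithm -/

theorem euclid {o k : Fin n} (h : o ≠ k) : ∀ (N : ℕ) (v : Fin n → ℤ), (v k).natAbs ≤ N →
    ∃ s ∈ Su (fun l => l = o ∨ l = k), (s.1 *ᵥ v) k = 0 := by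
  intro N
  induction N with
  | zero =>
    intro v hv
    refine ⟨1, one_mem _, ?_⟩
    rw [cone, Matrix.one_mulVec]
    omega
  | succ N ih =>
    intro v hv
    by_cases hk : v k = 0
    · refine ⟨1, one_mem _, ?_⟩
      rw [cone, Matrix.one_mulVec]
      exact hk
    · have h1 : ((tv h (-(v o / v k))).1 *ᵥ v) o = v o % v k := by
        rw [tv_act, if_pos rfl]
        have := Int.emod_add_mul_ediv (v o) (v k)
        linarith [this, mul_comm (v k) (v o / v k)]
      have h2 : ((sw h).1 *ᵥ ((tv h (-(v o / v k))).1 *ᵥ v)) k = -(v o % v k) := by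
        rw [sw_j, h1]
      obtain ⟨s, hs, hs0⟩ := ih ((sw h).1 *ᵥ ((tv h (-(v o / v k))).1 *ᵥ v)) (by
        rw [h2, Int.natAbs_neg]
        have h3 := Int.emod_nonneg (v o) hk
        have h4 := Int.emod_lt_abs (v o) hk
        rw [Int.abs_eq_natAbs] at h4
        omega)
      refine ⟨s * (sw h * tv h (-(v o / v k))), mul_mem hs (mul_mem
        (sw_mem h (Or.inl rfl) (Or.inr rfl)) (tv_mem h (Or.inl rfl) (Or.inr rfl) _)), ?_⟩
      rw [act_mul, act_mul]
      exact hs0

theorem red (o : Fin n) (ho : (o : ℕ) = 0) : ∀ k : ℕ, k + 1 ≤ n → ∀ v : Fin n → ℤ,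
    ∃ C ∈ Su (fun l : Fin n => (l : ℕ) < k + 1), ∀ i : Fin n, 1 ≤ (i : ℕ) → (i : ℕ) < k + 1 →
      (C.1 *ᵥ v) i = 0 := by
  intro k
  induction k with
  | zero =>
    intro _ v
    exact ⟨1, one_mem _, fun i h1 h2 => by omega⟩
  | succ k ih =>
    intro hk v
    obtain ⟨C, hC, hC0⟩ := ih (by omega) v
    have hne : o ≠ ⟨k + 1, by omega⟩ := by
      intro h
      have := congrArg Fin.val h
      simp only [] at this
      omega
    obtain ⟨s, hs, hs0⟩ := euclid hne _ (C.1 *ᵥ v) le_rfl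
    refine ⟨s * C, mul_mem (su_mono ?_ hs) (su_mono ?_ hC), ?_⟩
    · rintro i (rfl | rfl)
      · omega
      · show k + 1 < k + 1 + 1
        omega
    · intro i hi
      show (i : ℕ) < k + 1 + 1
      have : (i : ℕ) < k + 1 := hi
      omega
    · intro i h1 h2
      rw [act_mul]
      by_cases hi : i = ⟨k + 1, by omega⟩
      · rw [hi]
        exact hs0
      · have h3 : (i : ℕ) ≠ k + 1 := fun h => hi (Fin.ext h)
        rw [su_row hs]
        · exact hC0 i h1 (by omega)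
        · rintro (h4 | h4)
          · rw [h4] at h1
            omega
          · exact hi h4

/-- one step of the induction -/
theorem step (o : Fin n) (ho : (o : ℕ) = 0) (k : ℕ) (hk1 : 1 ≤ k) (hk : k < n)
    {g : SpecialLinearGroup (Fin n) ℤ} (hg : g ∈ Su (fun l : Fin n => (l : ℕ) < k + 1)) :
    ∃ p1 ∈ Su (fun l : Fin n => (l : ℕ) < k), ∃ s1 ∈ Su (fun l : Fin n => l = o ∨ l = ⟨k, hk⟩),
    ∃ q ∈ Su (fun l : Fin n => (l : ℕ) < k), ∃ s2 ∈ Su (fun l : Fin n => l = o ∨ l = ⟨k, hk⟩),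
    ∃ p2 ∈ Su (fun l : Fin n => (l : ℕ) < k), g = p1 * (s1 * (q * (s2 * p2))) := by
  obtain ⟨k', rfl⟩ : ∃ k', k = k' + 1 := ⟨k - 1, by omega⟩
  set kk : Fin n := ⟨k' + 1, hk⟩ with hkk
  have hne : o ≠ kk := by
    intro h
    have := congrArg Fin.val h
    simp only [hkk] at this
    omega
  have hkI : ¬ ((kk : ℕ) < k' + 1) := by
    simp only [hkk]
    omega
  have hmono1 : Su (fun l : Fin n => (l : ℕ) < k' + 1) ⊆
      Su (fun l : Fin n => (l : ℕ) < k' + 1 + 1) := su_mono fun i hi => by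
    have : (i : ℕ) < k' + 1 := hi
    show (i : ℕ) < k' + 1 + 1
    omega
  have hmono2 : Su (fun l : Fin n => l = o ∨ l = kk) ⊆
      Su (fun l : Fin n => (l : ℕ) < k' + 1 + 1) := by
    refine su_mono ?_
    rintro i (h | h)
    · show (i : ℕ) < k' + 1 + 1
      rw [h]
      omega
    · show (i : ℕ) < k' + 1 + 1
      rw [h]
      simp only [hkk]
      omega
  -- the column
  obtain ⟨C, hC, hC0⟩ := red o ho k' (by omega) (g.1 *ᵥ Pi.single kk 1)
  obtain ⟨s, hs, hs0⟩ := euclid hne _ (C.1 *ᵥ (g.1 *ᵥ Pi.single kk 1)) le_rfl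
  set z : Fin n → ℤ := s.1 *ᵥ (C.1 *ᵥ (g.1 *ᵥ Pi.single kk 1)) with hz
  have hz0 : ∀ i, i ≠ o → z i = 0 := by
    intro i hi
    by_cases h1 : i = kk
    · rw [h1]
      exact hs0
    · have h2 : (i : ℕ) ≠ k' + 1 := fun h => h1 (Fin.ext h)
      have h3 : 1 ≤ (i : ℕ) := by
        rcases Nat.eq_zero_or_pos (i : ℕ) with h | h
        · exact absurd (Fin.ext (h.trans ho.symm)) hi
        · exact h
      rw [hz, su_row hs (by rintro (h | h); exacts [hi h, h1 h])]
      rcases Nat.lt_or_ge (i : ℕ) (k' + 1) with h4 | h4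
      · exact hC0 i h3 h4
      · have h5 : ¬ ((i : ℕ) < k' + 1) := by omega
        rw [su_row hC h5, su_row hg (by omega : ¬ ((i : ℕ) < k' + 1 + 1)), Pi.single_apply,
          if_neg h1]
  obtain ⟨x, hx⟩ : ∃ x : ℤ, x * z o = 1 := by
    refine ⟨((s * (C * g))⁻¹).1 kk o, ?_⟩
    have e : z = (s * (C * g)).1 *ᵥ Pi.single kk 1 := by
      rw [act_mul, act_mul]
    have h1 : ((s * (C * g))⁻¹).1 *ᵥ z = Pi.single kk 1 := by
      rw [e]
      exact act_inv _ _
    have h2 := congrFun h1 kk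
    rw [Pi.single_eq_same] at h2
    refine Eq.trans ?_ h2
    show _ = ∑ l, ((s * (C * g))⁻¹).1 kk l * z l
    rw [Finset.sum_eq_single o]
    · intro l _ hl
      rw [hz0 l hl, mul_zero]
    · intro h'
      exact absurd (Finset.mem_univ o) h'
  set s' : SpecialLinearGroup (Fin n) ℤ := tv hne (-(z o)) * (tv hne.symm x * s) with hs'
  have hs'm : s' ∈ Su (fun l : Fin n => l = o ∨ l = kk) :=
    mul_mem (tv_mem hne (Or.inl rfl) (Or.inr rfl) _)
      (mul_mem (tv_mem hne.symm (Or.inr rfl) (Or.inl rfl) _) hs)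
  set u : SpecialLinearGroup (Fin n) ℤ := s' * (C * g) with hu
  have hum : u ∈ Su (fun l : Fin n => (l : ℕ) < k' + 1 + 1) :=
    mul_mem (hmono2 hs'm) (mul_mem (hmono1 hC) hg)
  have huc : u.1 *ᵥ Pi.single kk 1 = Pi.single kk 1 := by
    rw [hu, hs', act_mul, act_mul, act_mul, act_mul, ← hz]
    funext i
    rw [tv_act, tv_act, tv_act, if_pos rfl, hs0, Pi.single_apply]
    by_cases h1 : i = o
    · rw [if_pos h1, h1, if_neg hne, if_neg hne]
      have : -(z o) * (0 + x * z o) = - z o := by rw [hx]; ring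
      rw [this]
      ring
    · rw [if_neg h1, hz0 i h1]
      by_cases h2 : i = kk
      · rw [if_pos h2, if_pos h2, hx]
        ring
      · rw [if_neg h2, if_neg h2]
        ring
  have hucol : ∀ i, u.1 i kk = if i = kk then 1 else 0 := by
    intro i
    have h1 := congrFun huc i
    rw [Matrix.mulVec_single_one, Pi.single_apply] at h1
    exact h1
  -- the row
  obtain ⟨C2, hC2, hC20⟩ := red o ho k' (by omega) (fun j => u.1 kk j)
  set d : ℤ := (C2.1 *ᵥ (fun j => u.1 kk j)) o with hd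
  set u3 : SpecialLinearGroup (Fin n) ℤ := u * tr C2 * tv hne.symm (-d) with hu3
  have hrow : ∀ j, (u * tr C2).1 kk j = (C2.1 *ᵥ (fun j => u.1 kk j)) j := by
    intro j
    rw [cmul, Matrix.mul_apply]
    show ∑ l, u.1 kk l * C2.1 j l = ∑ l, C2.1 j l * u.1 kk l
    exact Finset.sum_congr rfl fun l _ => mul_comm _ _
  have hcol : ∀ i, (u * tr C2).1 i kk = if i = kk then 1 else 0 := by
    intro i
    rw [mul_col (tr_mem hC2) hkI, hucol]
  have hu3m : u3 ∈ Su (fun l : Fin n => (l : ℕ) < k' + 1 + 1) :=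
    mul_mem (mul_mem hum (hmono1 (tr_mem hC2)))
      (hmono2 (tv_mem hne.symm (Or.inr rfl) (Or.inl rfl) _))
  have hu3k : u3 ∈ Su (fun l : Fin n => (l : ℕ) < k' + 1) := by
    intro i j hij
    by_cases hi : i = kk
    · subst hi
      rw [hu3, tv_right, hrow, hcol, if_pos rfl]
      by_cases hj : j = o
      · rw [if_pos hj, hj, if_neg (Ne.symm hne), ← hd]
        ring
      · rw [if_neg hj, add_zero]
        by_cases hjk : j = kk
        · rw [hjk, su_row hC2 hkI, hucol, if_pos rfl]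
        · rw [if_neg (Ne.symm hjk)]
          have h2 : (j : ℕ) ≠ k' + 1 := fun h => hjk (Fin.ext h)
          have h3 : 1 ≤ (j : ℕ) := by
            rcases Nat.eq_zero_or_pos (j : ℕ) with h | h
            · exact absurd (Fin.ext (h.trans ho.symm)) hj
            · exact h
          rcases Nat.lt_or_ge (j : ℕ) (k' + 1) with h4 | h4
          · exact hC20 j h3 h4
          · rw [su_row hC2 (by omega : ¬ ((j : ℕ) < k' + 1)),
              hum kk j (Or.inr (by omega : ¬ ((j : ℕ) < k' + 1 + 1))), if_neg (Ne.symm hjk)]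
    · by_cases hj : j = kk
      · rw [hj, hu3, tv_right, hcol, if_neg (Ne.symm hne), add_zero]
      · have h2 : (i : ℕ) ≠ k' + 1 := fun h => hi (Fin.ext h)
        have h3 : (j : ℕ) ≠ k' + 1 := fun h => hj (Fin.ext h)
        refine hu3m i j (hij.imp (fun h4 => ?_) (fun h4 => ?_))
        · have h5 : ¬ ((i : ℕ) < k' + 1) := h4
          show ¬ ((i : ℕ) < k' + 1 + 1)
          omega
        · have h5 : ¬ ((j : ℕ) < k' + 1) := h4
          show ¬ ((j : ℕ) < k' + 1 + 1)
          omega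
  refine ⟨C⁻¹, inv_mem hC, s'⁻¹, inv_mem hs'm, u3, hu3k, (tv hne.symm (-d))⁻¹,
    inv_mem (tv_mem hne.symm (Or.inr rfl) (Or.inl rfl) _), (tr C2)⁻¹, inv_mem (tr_mem hC2), ?_⟩
  rw [hu3, hu]
  group

/-- conjugation into the upper left block -/
theorem conj_mem (o e kk : Fin n) (ho : (o : ℕ) = 0) (he : (e : ℕ) = 1) (hk : 2 ≤ (kk : ℕ))
    (hek : e ≠ kk) {g : SpecialLinearGroup (Fin n) ℤ} (hg : g ∈ Su (fun l => l = o ∨ l = kk)) :
    (sw hek)⁻¹ * g * sw hek ∈ Blk n := by
  have hoe : o ≠ e := by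
    intro h
    rw [h] at ho
    omega
  have hok : o ≠ kk := by
    intro h
    rw [h] at ho
    omega
  have hact : ∀ v, ((sw hek)⁻¹ * g * sw hek).1 *ᵥ v =
      (sw hek)⁻¹.1 *ᵥ (g.1 *ᵥ ((sw hek).1 *ᵥ v)) := by
    intro v
    rw [act_mul, act_mul]
  have hent : ∀ (h : SpecialLinearGroup (Fin n) ℤ) i j, h.1 i j = (h.1 *ᵥ Pi.single j 1) i := by
    intro h i j
    rw [Matrix.mulVec_single_one]
    rfl
  intro i j hij
  rw [hent, hact]
  rcases hij with hi | hj
  · set w := g.1 *ᵥ ((sw hek).1 *ᵥ Pi.single j 1) with hw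
    have h1 := act_inv' (sw hek) w
    set z := (sw hek)⁻¹.1 *ᵥ w with hz
    have h2 : z i = (Pi.single j 1 : Fin n → ℤ) i := by
      by_cases hik : i = kk
      · have h3 : z kk = w e := by rw [← h1, sw_i]
        rw [hik, h3, hw, su_row hg (by rintro (h | h); exacts [hoe h.symm, hek h]), sw_i]
      · have hie : i ≠ e := by
          intro h
          rw [h] at hi
          omega
        have hio : i ≠ o := by
          intro h
          rw [h] at hi
          omega
        have h3 : z i = w i := by rw [← h1, sw_l hek _ hie hik]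
        rw [h3, hw, su_row hg (by rintro (h | h); exacts [hio h, hik h]), sw_l hek _ hie hik]
    rw [h2, Pi.single_apply]
  · have hjo : j ≠ o := by
      intro h
      rw [h] at hj
      omega
    have hje : j ≠ e := by
      intro h
      rw [h] at hj
      omega
    rw [su_fix hg, act_inv, Pi.single_apply]
    rintro l (rfl | rfl)
    · rw [sw_l hek _ hoe hok, Pi.single_apply, if_neg (Ne.symm hjo)]
    · rw [sw_j, Pi.single_apply, if_neg (Ne.symm hje), neg_zero]

theorem main : S_BGN := by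
  intro n hn
  have hall : ∀ k : ℕ, k + 2 ≤ n → Bd (Blk n) (Su (fun l : Fin n => (l : ℕ) < k + 2)) := by
    intro k
    induction k with
    | zero =>
      intro _
      refine Bd.conj 1 fun x hx => ?_
      rw [inv_one, one_mul, mul_one]
      intro i j hij
      refine hx i j (hij.imp (fun h => ?_) (fun h => ?_))
      · show ¬ ((i : ℕ) < 0 + 2)
        omega
      · show ¬ ((j : ℕ) < 0 + 2)
        omega
    | succ k ih =>
      intro hk
      have h0 := ih (by omega)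
      have hek : (⟨1, by omega⟩ : Fin n) ≠ ⟨k + 2, by omega⟩ := by
        intro h
        have := congrArg Fin.val h
        simp only [] at this
        omega
      have h1 : Bd (Blk n) (Su (fun l : Fin n => l = ⟨0, by omega⟩ ∨ l = ⟨k + 2, by omega⟩)) :=
        Bd.conj (sw hek) fun x hx => conj_mem ⟨0, by omega⟩ ⟨1, by omega⟩ ⟨k + 2, by omega⟩ rfl rfl
          (by show 2 ≤ k + 2; omega) hek hx
      have h2 := h1.mul h0 (R := {x | ∃ p ∈ Su (fun l : Fin n => l = ⟨0, by omega⟩ ∨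
        l = ⟨k + 2, by omega⟩), ∃ q ∈ Su (fun l : Fin n => (l : ℕ) < k + 2), x = p * q})
        fun x hx => hx
      have h3 := h0.mul h2 (R := {x | ∃ p ∈ Su (fun l : Fin n => (l : ℕ) < k + 2),
        ∃ q ∈ {x | ∃ p ∈ Su (fun l : Fin n => l = ⟨0, by omega⟩ ∨
        l = ⟨k + 2, by omega⟩), ∃ q ∈ Su (fun l : Fin n => (l : ℕ) < k + 2), x = p * q},
        x = p * q}) fun x hx => hx
      have h4 := h1.mul h3 (R := {x | ∃ p ∈ Su (fun l : Fin n => l = ⟨0, by omega⟩ ∨
        l = ⟨k + 2, by omega⟩), ∃ q ∈ {x | ∃ p ∈ Su (fun l : Fin n => (l : ℕ) < k + 2),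
        ∃ q ∈ {x | ∃ p ∈ Su (fun l : Fin n => l = ⟨0, by omega⟩ ∨
        l = ⟨k + 2, by omega⟩), ∃ q ∈ Su (fun l : Fin n => (l : ℕ) < k + 2), x = p * q},
        x = p * q}, x = p * q}) fun x hx => hx
      refine h0.mul h4 fun x hx => ?_
      obtain ⟨p1, a1, s1, a2, q, a3, s2, a4, p2, a5, rfl⟩ :=
        step ⟨0, by omega⟩ rfl (k + 2) (by omega) (by omega) hx
      exact ⟨p1, a1, _, ⟨s1, a2, _, ⟨q, a3, _, ⟨s2, a4, p2, a5, rfl⟩, rfl⟩, rfl⟩, rfl⟩
  refine to_BGen ?_
  obtain ⟨k, rfl⟩ : ∃ k, n = k + 2 := ⟨n - 2, by omega⟩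
  obtain ⟨L, hL⟩ := hall k le_rfl
  refine ⟨L, fun x _ => hL x ?_⟩
  rintro i j (h | h)
  · exact absurd i.2 h
  · exact absurd j.2 h

end Pool.Agent.H257.BG.BGN
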