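import Pool.Agent.H257.BG.Stm3

set_option autoImplicit false

namespace Pool.Agent.H257.BG.CMBb

open Matrix

lemma colA (h1 : Row) (k : ℕ) (a b c d t : ℤ) (h : L k !![a + t * b, b; c + t * d, d]) :
    L (k + 1) !![a, b; c, d] := by
  have h2 := h1.mul k 1 _ _ h (h1.low (-t))
  have h3 : !![a + t * b, b; c + t * d, d] * !![1, 0; -t, 1] = !![a, b; c, d] := by
    ext i j
    fin_cases i <;> fin_cases j <;> simp [Matrix.mul_apply, Fin.sum_univ_two] <;> ring
  rwa [h3] at h2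

lemma colB (h1 : Row) (k : ℕ) (a b c d t : ℤ) (h : L k !![a, b + t * a; c, d + t * c]) :
    L (k + 1) !![a, b; c, d] := by
  have h2 := h1.mul k 1 _ _ h (h1.up (-t))
  have h3 : !![a, b + t * a; c, d + t * c] * !![1, -t; 0, 1] = !![a, b; c, d] := by
    ext i j
    fin_cases i <;> fin_cases j <;> simp [Matrix.mul_apply, Fin.sum_univ_two] <;> ring
  rwa [h3] at h2

lemma rowC (h1 : Row) (k : ℕ) (a b c d t : ℤ) (h : L k !![a, b; c + t * a, d + t * b]) :
    L (k + 1) !![a, b; c, d] := by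
  have h2 := h1.mul 1 k _ _ (h1.low (-t)) h
  have h3 : !![1, 0; -t, 1] * !![a, b; c + t * a, d + t * b] = !![a, b; c, d] := by
    ext i j
    fin_cases i <;> fin_cases j <;> simp [Matrix.mul_apply, Fin.sum_univ_two]
  rw [h3, add_comm] at h2
  exact h2

/-- the powers of a matrix with the first row `(a, p)` and exponent divisible by `(p - 1) / 2` -/
lemma pw (h1 : Row) (K1 K2 : ℕ)
    (hK1 : ∀ a b c d : ℤ, (a = 1 ∨ a = -1) → a * d - b * c = 1 → L K1 !![a, b; c, d])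
    (hK2 : ∀ (k m : ℕ) (a b c d c' d' : ℤ), a * d - b * c = 1 → a ^ m * d' - b * c' = 1 →
      L k !![a ^ m, b; c', d'] → L (k + K2) (!![a, b; c, d] ^ m))
    (p : ℕ) (hp : p.Prime) (hp4 : p % 4 = 3) (a c d : ℤ) (hdet : a * d - p * c = 1) (k : ℕ) :
    L (K1 + 1 + K2) (!![a, (p : ℤ); c, d] ^ (k * ((p - 1) / 2))) := by
  have := Fact.mk hp
  have h0 : ¬ (p : ℤ) ∣ a := by
    intro h
    have h2 : (p : ℤ) ∣ 1 := by
      rw [← hdet]
      exact dvd_sub (h.mul_right d) (dvd_mul_right _ _)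
    have h3 := Int.eq_one_of_dvd_one (by positivity) h2
    have h4 := hp.one_lt
    omega
  have h5 : (a : ZMod p) ≠ 0 := by
    intro h
    exact h0 ((ZMod.intCast_zmod_eq_zero_iff_dvd a p).1 h)
  have h6 : (a : ZMod p) ^ (p - 1) = 1 := ZMod.pow_card_sub_one_eq_one h5
  have h7 : 2 * ((p - 1) / 2) = p - 1 := by omega
  have h8 : ((a : ZMod p) ^ ((p - 1) / 2)) = 1 ∨ ((a : ZMod p) ^ ((p - 1) / 2)) = -1 := by
    have h9 : ((a : ZMod p) ^ ((p - 1) / 2)) * ((a : ZMod p) ^ ((p - 1) / 2)) = 1 := by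
      rw [← pow_add, ← two_mul, h7, h6]
    exact mul_self_eq_one_iff.1 h9
  have h10 : (a : ZMod p) ^ (k * ((p - 1) / 2)) = 1 ∨ (a : ZMod p) ^ (k * ((p - 1) / 2)) = -1 := by
    rw [mul_comm, pow_mul]
    rcases h8 with h8 | h8
    · left; rw [h8, one_pow]
    · rw [h8]; exact neg_one_pow_eq_or _ _
  obtain ⟨e, he, hee⟩ : ∃ e : ℤ, (e = 1 ∨ e = -1) ∧ (a : ZMod p) ^ (k * ((p - 1) / 2)) = (e : ZMod p) := by
    rcases h10 with h10 | h10
    · exact ⟨1, Or.inl rfl, by rw [h10]; simp⟩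
    · exact ⟨-1, Or.inr rfl, by rw [h10]; simp⟩
  obtain ⟨j, hj⟩ : (p : ℤ) ∣ a ^ (k * ((p - 1) / 2)) - e := by
    apply (ZMod.intCast_zmod_eq_zero_iff_dvd _ p).1
    push_cast
    rw [hee, sub_self]
  have hj' : a ^ (k * ((p - 1) / 2)) = e + j * p := by linarith
  have hee2 : e * e = 1 := by rcases he with rfl | rfl <;> norm_num
  apply hK2 (K1 + 1) (k * ((p - 1) / 2)) a p c d (j * e) e hdet
  · rw [hj']
    linear_combination hee2
  · rw [hj']
    have h11 := h1.mul K1 1 _ _ (hK1 e p 0 e he (by linear_combination hee2)) (h1.low j)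
    have h12 : !![e, (p : ℤ); 0, e] * !![1, 0; j, 1] = !![e + j * p, (p : ℤ); j * e, e] := by
      ext i j
      fin_cases i <;> fin_cases j <;> simp [Matrix.mul_apply, Fin.sum_univ_two] <;> ring
    rwa [h12] at h11

lemma bez (m n : ℕ) (hm : 0 < m) (h : Nat.Coprime m n) (hn : 0 < n) : ∃ k l : ℕ, k * m = l * n + 1 := by
  rcases Nat.lt_or_ge 1 n with h1 | h1
  · obtain ⟨k, hk⟩ := Nat.exists_mul_mod_eq_one_of_coprime h h1
    refine ⟨k, m * k / n, ?_⟩
    have h3 := Nat.div_add_mod (m * k) n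
    rw [hk.2] at h3
    linarith [mul_comm m k, mul_comm n (m * k / n)]
  · have h2 : n = 1 := by omega
    subst h2
    exact ⟨1, m - 1, by omega⟩

theorem main (h1 : S_ROW) (h2 : S_PWR) (h3 : S_DIR) : S_CMB := by
  obtain ⟨K1, hK1⟩ := h1.one
  obtain ⟨K2, hK2⟩ := h2
  obtain ⟨d1, d2, d3⟩ := h3
  refine ⟨2 * (K1 + 1 + K2) + 3, ?_⟩
  intro a b c d hdet
  by_cases hb : b = 0
  · subst hb
    have ha : a = 1 ∨ a = -1 := by
      have : IsUnit a := IsUnit.of_mul_eq_one d (by linarith)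
      exact Int.isUnit_iff.1 this
    exact h1.mono K1 _ _ (by omega) (hK1 a 0 c d ha hdet)
  have hcop : IsCoprime a b := ⟨d, -c, by linarith⟩
  obtain ⟨t, q, hq, hq2, hqt⟩ := d1 a b hcop hb
  have hdet1 : (q : ℤ) * (d + 0) - b * (c + t * d) = 1 := by rw [hqt]; linear_combination hdet
  suffices hs : L (2 * (K1 + 1 + K2) + 2) !![a + t * b, b; c + t * d, d] from
    colA h1 _ a b c d t hs
  rw [← hqt]
  set c1 : ℤ := c + t * d with hc1
  clear_value c1
  have hdet2 : (q : ℤ) * d - b * c1 = 1 := by linarith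
  have hq1 : ¬ (q : ℤ) ∣ 1 := by
    intro h
    have h4 := Int.eq_one_of_dvd_one (by positivity) h
    omega
  have hqb : ¬ (q : ℤ) ∣ b := by
    intro h
    exact hq1 (hdet2 ▸ dvd_sub (dvd_mul_right _ _) (h.mul_right _))
  by_cases hqb1 : (q : ℤ) ∣ b - 1
  · obtain ⟨s, hs⟩ := hqb1
    have hb1 : b + (-s) * q = 1 := by linarith
    have h5 : L (K1 + 1 + 1) !![(q : ℤ), b; c1, d] := by
      apply colB h1 _ q b c1 d (-s)
      rw [hb1]
      apply colA h1 _ q 1 c1 (d + (-s) * c1) (1 - q)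
      apply hK1
      · left; ring
      · have : b = 1 + s * q := by linarith
        rw [this] at hdet2
        linear_combination hdet2
    exact h1.mono _ _ _ (by omega) h5
  · obtain ⟨t1, p, hp, hp4, hpt, hpq⟩ := d2 q b hq hq2 hqb hqb1
    suffices hs : L (2 * (K1 + 1 + K2) + 1) !![(q : ℤ), b + t1 * q; c1, d + t1 * c1] from
      colB h1 _ q b c1 d t1 hs
    rw [← hpt]
    set e1 : ℤ := d + t1 * c1 with he1
    clear_value e1
    have hdet3 : (q : ℤ) * e1 - p * c1 = 1 := by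
      rw [he1, hpt]; linear_combination hdet2
    have hqc : ¬ (q : ℤ) ∣ c1 := by
      intro h
      exact hq1 (hdet3 ▸ dvd_sub (dvd_mul_right _ _) (h.mul_left _))
    obtain ⟨t2, r, hr, hr4, hrt, hpr⟩ := d3 q c1 p hq hq2 hqc hp hp4 hpq
    suffices hs : L (2 * (K1 + 1 + K2)) !![(q : ℤ), p; c1 + t2 * q, e1 + t2 * p] from
      rowC h1 _ q p c1 e1 t2 hs
    rw [← hrt]
    set f1 : ℤ := e1 + t2 * p with hf1
    clear_value f1
    have hdet4 : (q : ℤ) * f1 - p * r = 1 := by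
      rw [hf1, hrt]; linear_combination hdet3
    have hp3 : 3 ≤ p := by omega
    have hr3 : 3 ≤ r := by omega
    obtain ⟨k, l, hkl⟩ := bez ((p - 1) / 2) ((r - 1) / 2) (by omega) hpr (by omega)
    set A : Matrix (Fin 2) (Fin 2) ℤ := !![(q : ℤ), p; r, f1] with hA
    have hP := pw h1 K1 K2 hK1 hK2 p hp hp4 q r f1 hdet4 k
    have hR := pw h1 K1 K2 hK1 hK2 r hr hr4 q p f1 (by linarith) l
    have hR2 := h1.trn _ _ hR
    have hAT : (!![(q : ℤ), (r : ℤ); (p : ℤ), f1])ᵀ = A := by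
      ext i j
      fin_cases i <;> fin_cases j <;> rfl
    rw [Matrix.transpose_pow, hAT] at hR2
    rw [← hA] at hP
    set B : Matrix (Fin 2) (Fin 2) ℤ := A ^ (l * ((r - 1) / 2)) with hB
    have hdetA : A.det = 1 := by
      rw [hA, Matrix.det_fin_two_of]; linarith
    have hdetB : B.det = 1 := by rw [hB, Matrix.det_pow, hdetA, one_pow]
    have hBe : B = !![B 0 0, B 0 1; B 1 0, B 1 1] := Matrix.eta_fin_two B
    have hdetB' : B 0 0 * B 1 1 - B 0 1 * B 1 0 = 1 := by rw [← Matrix.det_fin_two]; exact hdetB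
    have hadj : L (K1 + 1 + K2) B.adjugate := by
      rw [Matrix.adjugate_fin_two]
      apply h1.inv _ _ _ _ _ hdetB'
      rw [← hBe]
      exact hR2
    have hfin : A ^ (k * ((p - 1) / 2)) * B.adjugate = A := by
      rw [hkl, pow_succ', mul_assoc, ← hB, Matrix.mul_adjugate, hdetB, one_smul, mul_one]
    have h9 := h1.mul _ _ _ _ hP hadj
    rw [hfin] at h9
    rw [two_mul]
    exact h9

end Pool.Agent.H257.BG.CMBb
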