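import Pool.Agent.H257.BG.Main

/-!
# Project BG: conjugates of multiples of translations
-/

set_option autoImplicit false

namespace Pool.Agent.H257.BG

open Pool.Agent.H494R3.GT Pool.Agent.N557.QW
open Pool.Agent.N414.LR (Op IsIcc)
open Pool.Agent.H257.TW
open Filter

noncomputable section

/-- the conjugates by one unitary of all multiples of translations -/
theorem ua_conj (hPRD : S_PRD) (hSNG : S_SNG) (Λ : Type) [Group Λ] (w : Op Λ) (hw : w ∈ LG Λ)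
    (hwu : w ∈ unitary (Op Λ)) :
    UA {x : Op Λ | ∃ (d : ℂ) (h : Λ), ‖d‖ = 1 ∧ x = d • (w * lam h * star w)} := by
  have hs1 : ∀ y : Op Λ, y ∈ LG Λ → y ∈ unitary (Op Λ) →
      ∀ x ∈ ({y} : Set (Op Λ)), x ∈ LG Λ ∧ x ∈ unitary (Op Λ) := by
    intro y h1 h2 x hx
    rw [Set.mem_singleton_iff] at hx
    rw [hx]
    exact ⟨h1, h2⟩
  have hT : ∀ x ∈ {x : Op Λ | ∃ (c : ℂ) (h : Λ), ‖c‖ = 1 ∧ x = c • lam h},
      x ∈ LG Λ ∧ x ∈ unitary (Op Λ) := by
    rintro x ⟨c, h, hc, rfl⟩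
    refine ⟨(LG Λ).toStarSubalgebra.toSubalgebra.smul_mem (lam_mem h) c, ?_⟩
    rw [Unitary.mem_iff]
    have e1 : star c * c = 1 := by
      rw [Complex.star_def, Complex.conj_mul', hc]; norm_num
    have e2 : c * star c = 1 := by rw [mul_comm]; exact e1
    rw [star_smul, star_lam]
    constructor
    · rw [smul_mul_smul_comm, e1, ← lam_mul, inv_mul_cancel, lam_one, one_smul]
    · rw [smul_mul_smul_comm, e2, ← lam_mul, mul_inv_cancel, lam_one, one_smul]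
  have hsw : star w ∈ LG Λ := star_mem hw
  have h1 := hPRD Λ _ _ (hs1 w hw hwu) hT ((hSNG Λ).1 w hw hwu) (hSNG Λ).2
  have h2 := hPRD Λ _ _ (by
      rintro z ⟨x, hx, y, hy, rfl⟩
      exact ⟨mul_mem (hs1 w hw hwu x hx).1 (hT y hy).1, mul_mem (hs1 w hw hwu x hx).2 (hT y hy).2⟩)
      (hs1 (star w) hsw (Unitary.star_mem hwu)) h1 ((hSNG Λ).1 _ hsw (Unitary.star_mem hwu))
  refine h2.mono ?_
  rintro x ⟨d, h, hd, rfl⟩
  refine ⟨_, ⟨w, rfl, _, ⟨d, h, hd, rfl⟩, rfl⟩, _, rfl, ?_⟩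
  rw [mul_smul_comm, smul_mul_assoc]

end

end Pool.Agent.H257.BG
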