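import Pool.Agent.H257.BG.Stm3

/-!
# Project BG: primes in arithmetic progressions with side conditions
-/

set_option autoImplicit false

namespace Pool.Agent.H257.BG.DIR

open Pool.Agent.H257.BG

/-- Dirichlet's theorem -/
theorem dirichlet (M r : ℤ) (hM : M ≠ 0) (h : IsCoprime r M) :
    ∃ q : ℕ, q.Prime ∧ 2 < q ∧ M ∣ (q : ℤ) - r := by
  have hM' : M.natAbs ≠ 0 := Int.natAbs_ne_zero.2 hM
  have h' : IsCoprime r ((M.natAbs : ℕ) : ℤ) := by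
    rw [Int.isCoprime_iff_nat_coprime] at h ⊢
    rwa [Int.natAbs_natCast]
  obtain ⟨q, hq, hqp, hqe⟩ := Nat.forall_exists_prime_gt_and_zmodEq 2 hM' h'
  refine ⟨q, hqp, hq, ?_⟩
  have h1 := hqe.symm.dvd
  exact Int.natAbs_dvd.1 h1

/-- Chinese remainder theorem -/
theorem crt (m n x y : ℤ) (h : IsCoprime m n) (hx : IsCoprime x m) (hy : IsCoprime y n) :
    ∃ r : ℤ, m ∣ r - x ∧ n ∣ r - y ∧ IsCoprime r (m * n) := by
  obtain ⟨u, v, huv⟩ := h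
  have h1 : m ∣ x * (v * n) + y * (u * m) - x :=
    ⟨y * u - x * u, by linear_combination x * huv⟩
  have h2 : n ∣ x * (v * n) + y * (u * m) - y :=
    ⟨x * v - y * v, by linear_combination y * huv⟩
  refine ⟨x * (v * n) + y * (u * m), h1, h2, IsCoprime.mul_right ?_ ?_⟩
  · obtain ⟨s, hs⟩ := h1
    have e : x * (v * n) + y * (u * m) = x + m * s := by linarith
    rw [e]
    exact hx.add_mul_left_left s
  · obtain ⟨s, hs⟩ := h2
    have e : x * (v * n) + y * (u * m) = y + n * s := by linarith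
    rw [e]
    exact hy.add_mul_left_left s

theorem cop4 (a : ℕ) (ha : a.Prime) (ha2 : 2 < a) : IsCoprime (a : ℤ) 4 := by
  have h1 : Nat.Coprime a 4 := by
    rw [Nat.Prime.coprime_iff_not_dvd ha]
    intro h
    have h2 : a ∣ 2 := ha.dvd_of_dvd_pow (show a ∣ 2 ^ 2 by norm_num; exact h)
    exact absurd (Nat.le_of_dvd (by norm_num) h2) (by omega)
  have h2 := Nat.isCoprime_iff_coprime.2 h1
  exact_mod_cast h2

theorem copa (a : ℕ) (ha : a.Prime) (b : ℤ) (h : ¬ (a : ℤ) ∣ b) : IsCoprime b (a : ℤ) := by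
  have hp : Prime (a : ℤ) := Nat.prime_iff_prime_int.1 ha
  exact ((Prime.coprime_iff_not_dvd hp).2 h).symm

theorem cop34 : IsCoprime (3 : ℤ) 4 := ⟨-1, 1, by norm_num⟩

theorem part1 (a b : ℤ) (h : IsCoprime a b) (hb : b ≠ 0) :
    ∃ (t : ℤ) (q : ℕ), q.Prime ∧ 2 < q ∧ (q : ℤ) = a + t * b := by
  obtain ⟨q, hq, hq2, t, ht⟩ := dirichlet b a hb h
  exact ⟨t, q, hq, hq2, by linarith [mul_comm b t]⟩

theorem part2 (a : ℕ) (b : ℤ) (ha : a.Prime) (ha2 : 2 < a) (h1 : ¬ (a : ℤ) ∣ b)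
    (h2 : ¬ (a : ℤ) ∣ b - 1) :
    ∃ (t : ℤ) (p : ℕ), p.Prime ∧ p % 4 = 3 ∧ (p : ℤ) = b + t * a ∧ ¬ a ∣ (p - 1) / 2 := by
  obtain ⟨r, hr1, hr2, hr3⟩ := crt (a : ℤ) 4 b 3 (cop4 a ha ha2) (copa a ha b h1) cop34
  have ha0 : (a : ℤ) * 4 ≠ 0 := by
    have : (a : ℤ) ≠ 0 := by exact_mod_cast ha.ne_zero
    positivity
  obtain ⟨p, hp, hp2, hpr⟩ := dirichlet ((a : ℤ) * 4) r ha0 hr3
  have h3 : (a : ℤ) ∣ (p : ℤ) - b := by
    have h4 := dvd_add ((Dvd.intro _ rfl).trans hpr) hr1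
    have e : (p : ℤ) - r + (r - b) = p - b := by ring
    rwa [e] at h4
  have h5 : (4 : ℤ) ∣ (p : ℤ) - 3 := by
    have h4 := dvd_add ((Dvd.intro_left _ rfl).trans hpr) hr2
    have e : (p : ℤ) - r + (r - 3) = p - 3 := by ring
    rwa [e] at h4
  have h6 : p % 4 = 3 := by omega
  obtain ⟨t, ht⟩ := h3
  refine ⟨t, p, hp, h6, by linarith [mul_comm (a : ℤ) t], fun h7 => h2 ?_⟩
  have h8 : (a : ℤ) ∣ (p : ℤ) - 1 := by
    have h9 : a ∣ p - 1 := by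
      have e : p - 1 = (p - 1) / 2 * 2 := by omega
      rw [e]
      exact h7.mul_right 2
    have h10 := Int.natCast_dvd_natCast.2 h9
    rwa [Nat.cast_sub hp.one_le, Nat.cast_one] at h10
  have h11 := dvd_sub h8 (Dvd.intro t ht.symm)
  have e : (p : ℤ) - 1 - (p - b) = b - 1 := by ring
  rwa [e] at h11

theorem part3 (a : ℕ) (c : ℤ) (p : ℕ) (ha : a.Prime) (ha2 : 2 < a) (hc : ¬ (a : ℤ) ∣ c)
    (hp : p.Prime) (hp4 : p % 4 = 3) (hn : ¬ a ∣ (p - 1) / 2) :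
    ∃ (t : ℤ) (q : ℕ), q.Prime ∧ q % 4 = 3 ∧ (q : ℤ) = c + t * a ∧
      Nat.Coprime ((p - 1) / 2) ((q - 1) / 2) := by
  obtain ⟨n, hn'⟩ : ∃ n, n = (p - 1) / 2 := ⟨_, rfl⟩
  rw [← hn'] at hn ⊢
  have hn2 : n % 2 = 1 := by omega
  have c1 : IsCoprime (a : ℤ) (n : ℤ) :=
    Nat.isCoprime_iff_coprime.2 ((Nat.Prime.coprime_iff_not_dvd ha).2 hn)
  have c2 : IsCoprime (4 : ℤ) (n : ℤ) := by
    have h1 : Nat.Coprime 4 n := by
      have h2 : Nat.Coprime 2 n := by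
        rw [Nat.Prime.coprime_iff_not_dvd Nat.prime_two]
        omega
      have h3 := h2.pow_left 2
      exact h3
    have h2 := Nat.isCoprime_iff_coprime.2 h1
    exact_mod_cast h2
  obtain ⟨r, hr1, hr2, hr3⟩ := crt (a : ℤ) 4 c 3 (cop4 a ha ha2) (copa a ha c hc) cop34
  have c3 : IsCoprime ((a : ℤ) * 4) (n : ℤ) := IsCoprime.mul_left c1 c2
  obtain ⟨r', hr1', hr2', hr3'⟩ := crt ((a : ℤ) * 4) n r (-1) c3 hr3
    (isCoprime_one_left.neg_left)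
  have ha0 : (a : ℤ) ≠ 0 := by exact_mod_cast ha.ne_zero
  have hn0 : (n : ℤ) ≠ 0 := by
    have : n ≠ 0 := by omega
    exact_mod_cast this
  obtain ⟨q, hq, hq2, hqr⟩ := dirichlet ((a : ℤ) * 4 * n) r'
    (mul_ne_zero (mul_ne_zero ha0 (by norm_num)) hn0) hr3'
  have d1 : (a : ℤ) * 4 ∣ (q : ℤ) - r := by
    have h4 := dvd_add ((Dvd.intro _ rfl).trans hqr) hr1'
    have e : (q : ℤ) - r' + (r' - r) = q - r := by ring
    rwa [e] at h4
  have d2 : (n : ℤ) ∣ (q : ℤ) + 1 := by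
    have h4 := dvd_add ((Dvd.intro_left _ rfl).trans hqr) hr2'
    have e : (q : ℤ) - r' + (r' - -1) = q + 1 := by ring
    rwa [e] at h4
  have h3 : (a : ℤ) ∣ (q : ℤ) - c := by
    have h4 := dvd_add ((Dvd.intro _ rfl).trans d1) hr1
    have e : (q : ℤ) - r + (r - c) = q - c := by ring
    rwa [e] at h4
  have h5 : (4 : ℤ) ∣ (q : ℤ) - 3 := by
    have h4 := dvd_add ((Dvd.intro_left _ rfl).trans d1) hr2
    have e : (q : ℤ) - r + (r - 3) = q - 3 := by ring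
    rwa [e] at h4
  have h6 : q % 4 = 3 := by omega
  obtain ⟨t, ht⟩ := h3
  refine ⟨t, q, hq, h6, by linarith [mul_comm (a : ℤ) t], ?_⟩
  have d3 : n ∣ q + 1 := by exact_mod_cast d2
  refine Nat.Coprime.symm (Nat.coprime_of_dvd fun l hl hl1 hl2 => ?_)
  have h7 : l ∣ q - 1 := by
    have e : q - 1 = (q - 1) / 2 * 2 := by omega
    rw [e]
    exact hl1.mul_right 2
  have h8 : l ∣ (q + 1) - (q - 1) := Nat.dvd_sub (hl2.trans d3) h7
  have h9 : q + 1 - (q - 1) = 2 := by omega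
  rw [h9] at h8
  have h10 : l = 2 := (Nat.prime_dvd_prime_iff_eq hl Nat.prime_two).1 h8
  rw [h10] at hl2
  omega

theorem main : S_DIR := ⟨part1, part2, part3⟩

end Pool.Agent.H257.BG.DIR
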