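import Pool.Agent.H257.BG.Stm4

/-!
# `SL_n(ℤ)` is boundedly generated by conjugates of the powers of one elementary matrix (adapted from FCK by helper799)
-/

set_option autoImplicit false

namespace Pool.Agent.H257.BG.FCN

open Matrix Pool.Agent.H257.BG
open scoped Pointwise

section general

variable {G : Type} [Group G] {A : Set G}

/-- `P` is contained in a product of finitely many conjugates of `A` -/
def PG (A : Set G) (P : Set G) : Prop :=
  ∃ (N : ℕ) (g : Fin N → G), ∀ x ∈ P, ∃ a : Fin N → G, (∀ i, a i ∈ A) ∧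
    x = (List.ofFn fun i => g i * a i * (g i)⁻¹).prod

theorem PG.mul {P Q : Set G} (hP : PG A P) (hQ : PG A Q) : PG A (P * Q) := by
  obtain ⟨N, g, hg⟩ := hP
  obtain ⟨M, h, hh⟩ := hQ
  refine ⟨N + M, Fin.append g h, ?_⟩
  rintro _ ⟨x, hx, y, hy, rfl⟩
  obtain ⟨a, ha, hxa⟩ := hg x hx
  obtain ⟨b, hb, hyb⟩ := hh y hy
  refine ⟨Fin.append a b, fun i => ?_, ?_⟩
  · refine Fin.addCases (fun i => ?_) (fun i => ?_) i
    · rw [Fin.append_left]
      exact ha i
    · rw [Fin.append_right]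
      exact hb i
  · have e : (fun i => Fin.append g h i * Fin.append a b i * (Fin.append g h i)⁻¹) =
        Fin.append (fun i => g i * a i * (g i)⁻¹) (fun i => h i * b i * (h i)⁻¹) := by
      funext i
      refine Fin.addCases (fun i => ?_) (fun i => ?_) i
      · simp only [Fin.append_left]
      · simp only [Fin.append_right]
    rw [e, List.ofFn_fin_append, List.prod_append, ← hxa, ← hyb]

theorem pg_conj (s : G) {P : Set G} (hP : ∀ x ∈ P, s⁻¹ * x * s ∈ A) : PG A P := by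
  refine ⟨1, fun _ => s, fun x hx => ⟨fun _ => s⁻¹ * x * s, fun _ => hP x hx, ?_⟩⟩
  simp [mul_assoc]

theorem PG.mono {P Q : Set G} (hQ : PG A Q) (h : P ⊆ Q) : PG A P := by
  obtain ⟨N, g, hg⟩ := hQ
  exact ⟨N, g, fun x hx => hg x (h hx)⟩

theorem pg_one : PG A ({1} : Set G) :=
  ⟨0, Fin.elim0, fun x hx => ⟨Fin.elim0, fun i => i.elim0, by simpa using hx⟩⟩

theorem PG.conj (s : G) {P : Set G} (hP : PG A P) : PG A {x | ∃ y ∈ P, x = s * y * s⁻¹} := by
  obtain ⟨N, g, hg⟩ := hP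
  refine ⟨N, fun i => s * g i, ?_⟩
  rintro _ ⟨y, hy, rfl⟩
  obtain ⟨a, ha, hya⟩ := hg y hy
  refine ⟨a, ha, ?_⟩
  have e : (fun i => s * g i * a i * (s * g i)⁻¹) =
      (fun i => MulAut.conj s (g i * a i * (g i)⁻¹)) := by
    funext i
    simp [MulAut.conj_apply, mul_assoc]
  have e2 : s * y * s⁻¹ = MulAut.conj s y := (MulAut.conj_apply s y).symm
  rw [e, e2, hya, map_list_prod, List.map_ofFn]
  rfl

theorem pg_prod (N : ℕ) : ∀ P : Fin N → Set G, (∀ i, PG A (P i)) →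
    PG A {x | ∃ a : Fin N → G, (∀ i, a i ∈ P i) ∧ x = (List.ofFn a).prod} := by
  induction N with
  | zero =>
    intro P _
    refine pg_one.mono ?_
    rintro _ ⟨a, _, rfl⟩
    simp
  | succ n ih =>
    intro P hP
    refine ((hP 0).mul (ih (fun i => P i.succ) fun i => hP i.succ)).mono ?_
    rintro _ ⟨a, ha, rfl⟩
    rw [List.ofFn_succ, List.prod_cons]
    exact Set.mul_mem_mul (ha 0) ⟨fun i => a i.succ, fun i => ha i.succ, rfl⟩

theorem bgen_trans {B : Set G} (hB : PG A B) (h : BGen B) : BGen A := by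
  obtain ⟨N, g, hg⟩ := h
  obtain ⟨M, f, hf⟩ := pg_prod N (fun i => {x | ∃ y ∈ B, x = g i * y * (g i)⁻¹})
    (fun i => hB.conj (g i))
  refine ⟨M, f, fun x => hf x ?_⟩
  obtain ⟨a, ha, hx⟩ := hg x
  exact ⟨_, fun i => ⟨a i, ha i, rfl⟩, hx⟩

theorem PG.union {P Q : Set G} (hP : PG A P) (hQ : PG A Q) (h1 : (1 : G) ∈ P)
    (h2 : (1 : G) ∈ Q) : PG A (P ∪ Q) := by
  refine (hP.mul hQ).mono ?_
  rintro x (hx | hx)
  · exact ⟨x, hx, 1, h2, mul_one x⟩
  · exact ⟨1, h1, x, hx, one_mul x⟩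

theorem pg_list {Q : Set G} (h1 : (1 : G) ∈ Q) (hQ : PG A Q) (K : ℕ) :
    PG A {x | ∃ l : List G, l.length ≤ K ∧ (∀ y ∈ l, y ∈ Q) ∧ x = l.prod} := by
  induction K with
  | zero =>
    refine pg_one.mono ?_
    rintro _ ⟨l, hl, _, rfl⟩
    have : l = [] := List.length_eq_zero_iff.1 (Nat.le_zero.1 hl)
    simp [this]
  | succ n ih =>
    refine (hQ.mul ih).mono ?_
    rintro _ ⟨l, hl, hm, rfl⟩
    rcases l with _ | ⟨y, l⟩
    · exact ⟨1, h1, 1, ⟨[], by simp, by simp, by simp⟩, by simp⟩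
    · exact ⟨y, hm y (by simp), l.prod, ⟨l, by simpa using hl, fun z hz => hm z (by simp [hz]),
        rfl⟩, by simp⟩

end general

/-- `SL_3(ℤ)` -/
abbrev S3 := SpecialLinearGroup (Fin 3) ℤ

/-- the powers of `e12` -/
abbrev A3 : Set S3 := {x : SpecialLinearGroup (Fin 3) ℤ | ∃ k : ℤ, x = e12 ^ k}

/-- the elementary matrices -/
def E01 (k : ℤ) : S3 := ⟨!![1, k, 0; 0, 1, 0; 0, 0, 1], by simp [det_fin_three]⟩

theorem E01_mul (a b : ℤ) : E01 a * E01 b = E01 (a + b) := by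
  ext i j
  fin_cases i <;> fin_cases j <;> simp [E01, Matrix.mul_apply, Fin.sum_univ_three]
  ring

theorem E01_zero : E01 0 = 1 := by
  ext i j
  fin_cases i <;> fin_cases j <;> simp [E01]

theorem E01_zpow (k : ℤ) : E01 k = e12 ^ k := by
  let φ : Multiplicative ℤ →* S3 :=
    { toFun := fun a => E01 (Multiplicative.toAdd a)
      map_one' := E01_zero
      map_mul' := fun a b => (E01_mul _ _).symm }
  have h1 : φ (Multiplicative.ofAdd 1 ^ k) = φ (Multiplicative.ofAdd 1) ^ k := map_zpow φ _ _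
  have h2 : φ (Multiplicative.ofAdd 1) = e12 := rfl
  have h3 : Multiplicative.ofAdd (1 : ℤ) ^ k = Multiplicative.ofAdd k := by
    rw [← ofAdd_zsmul]
    simp
  rw [h2, h3] at h1
  exact h1

/-- signed permutation matrices -/
def s10 : S3 := ⟨!![0, -1, 0; 1, 0, 0; 0, 0, 1], by simp [det_fin_three]⟩
/-- signed permutation matrices -/
def s02 : S3 := ⟨!![1, 0, 0; 0, 0, -1; 0, 1, 0], by simp [det_fin_three]⟩
/-- signed permutation matrices -/
def s20 : S3 := ⟨!![0, 1, 0; 0, 0, 1; 1, 0, 0], by simp [det_fin_three]⟩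
/-- signed permutation matrices -/
def s12 : S3 := ⟨!![0, 0, 1; 1, 0, 0; 0, 1, 0], by simp [det_fin_three]⟩
/-- signed permutation matrices -/
def s21 : S3 := ⟨!![0, 0, -1; 0, 1, 0; 1, 0, 0], by simp [det_fin_three]⟩

/-- the elementary matrices in one position -/
def T (i j : Fin 3) : Set S3 := {x | ∃ t : ℤ, x.1 = transvection i j t}

theorem one_mem_T (i j : Fin 3) : (1 : S3) ∈ T i j := ⟨0, by simp⟩

theorem pg_aux (s : S3) (i j : Fin 3)
    (h : ∀ t : ℤ, ∃ k : ℤ, transvection i j t * s.1 = s.1 * (E01 k).1) : PG A3 (T i j) := by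
  refine pg_conj s ?_
  rintro x ⟨t, ht⟩
  obtain ⟨k, hk⟩ := h t
  refine ⟨k, ?_⟩
  have h1 : x * s = s * E01 k := by
    apply Subtype.ext
    show x.1 * s.1 = s.1 * (E01 k).1
    rw [ht, hk]
  rw [mul_assoc, h1, ← mul_assoc, inv_mul_cancel, one_mul, E01_zpow]

theorem t01 : PG A3 (T 0 1) := pg_aux 1 0 1 fun t => ⟨t, by
  ext i j
  fin_cases i <;> fin_cases j <;>
    simp [E01, transvection, single, Matrix.mul_apply, Fin.sum_univ_three, Matrix.one_apply]⟩

theorem t10 : PG A3 (T 1 0) := pg_aux s10 1 0 fun t => ⟨-t, by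
  ext i j
  fin_cases i <;> fin_cases j <;>
    simp [E01, s10, transvection, single, Matrix.mul_apply, Fin.sum_univ_three,
      Matrix.one_apply]⟩

theorem t02 : PG A3 (T 0 2) := pg_aux s02 0 2 fun t => ⟨t, by
  ext i j
  fin_cases i <;> fin_cases j <;>
    simp [E01, s02, transvection, single, Matrix.mul_apply, Fin.sum_univ_three,
      Matrix.one_apply]⟩

theorem t20 : PG A3 (T 2 0) := pg_aux s20 2 0 fun t => ⟨t, by
  ext i j
  fin_cases i <;> fin_cases j <;>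
    simp [E01, s20, transvection, single, Matrix.mul_apply, Fin.sum_univ_three,
      Matrix.one_apply]⟩

theorem t12 : PG A3 (T 1 2) := pg_aux s12 1 2 fun t => ⟨t, by
  ext i j
  fin_cases i <;> fin_cases j <;>
    simp [E01, s12, transvection, single, Matrix.mul_apply, Fin.sum_univ_three,
      Matrix.one_apply]⟩

theorem t21 : PG A3 (T 2 1) := pg_aux s21 2 1 fun t => ⟨t, by
  ext i j
  fin_cases i <;> fin_cases j <;>
    simp [E01, s21, transvection, single, Matrix.mul_apply, Fin.sum_univ_three,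
      Matrix.one_apply]⟩

/-- all elementary matrices -/
def Q : Set S3 := T 0 1 ∪ T 1 0 ∪ T 0 2 ∪ T 2 0 ∪ T 1 2 ∪ T 2 1

theorem one_mem_Q : (1 : S3) ∈ Q := Or.inr (one_mem_T 2 1)

theorem pg_Q : PG A3 Q :=
  ((((t01.union t10 (one_mem_T _ _) (one_mem_T _ _)).union t02 (Or.inr (one_mem_T _ _))
    (one_mem_T _ _)).union t20 (Or.inr (one_mem_T _ _)) (one_mem_T _ _)).union t12
    (Or.inr (one_mem_T _ _)) (one_mem_T _ _)).union t21 (Or.inr (one_mem_T _ _)) (one_mem_T _ _)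

theorem mem_Q (x : S3) (i j : Fin 3) (hij : i ≠ j) (t : ℤ) (h : x.1 = transvection i j t) :
    x ∈ Q := by
  have hT : x ∈ T i j := ⟨t, h⟩
  clear h
  unfold Q
  fin_cases i <;> fin_cases j
  · exact absurd rfl hij
  · exact Or.inl (Or.inl (Or.inl (Or.inl (Or.inl hT))))
  · exact Or.inl (Or.inl (Or.inl (Or.inr hT)))
  · exact Or.inl (Or.inl (Or.inl (Or.inl (Or.inr hT))))
  · exact absurd rfl hij
  · exact Or.inl (Or.inr hT)
  · exact Or.inl (Or.inl (Or.inr hT))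
  · exact Or.inr hT
  · exact absurd rfl hij

theorem lift (l : List (Matrix (Fin 3) (Fin 3) ℤ))
    (hl : ∀ y ∈ l, ∃ i j : Fin 3, i ≠ j ∧ ∃ t : ℤ, y = transvection i j t) :
    ∃ m : List S3, m.length = l.length ∧ (∀ y ∈ m, y ∈ Q) ∧ m.prod.1 = l.prod := by
  induction l with
  | nil => exact ⟨[], rfl, by simp, rfl⟩
  | cons y l ih =>
    obtain ⟨m, h1, h2, h3⟩ := ih fun z hz => hl z (by simp [hz])
    obtain ⟨i, j, hij, t, ht⟩ := hl y (by simp)
    refine ⟨⟨y, by rw [ht, det_transvection_of_ne _ _ hij]⟩ :: m, by simp [h1], ?_, ?_⟩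
    · intro z hz
      rcases List.mem_cons.1 hz with rfl | hz
      · exact mem_Q _ i j hij t ht
      · exact h2 z hz
    · rw [List.prod_cons, List.prod_cons, ← h3]
      rfl

theorem pg_blk (h : S_CMB) : PG A3 (Blk 3) := by
  obtain ⟨K, hK⟩ := h
  refine (pg_list one_mem_Q pg_Q K).mono ?_
  intro g hg
  have e02 : g.1 0 2 = 0 := by simpa using hg 0 2 (Or.inr (by simp))
  have e12' : g.1 1 2 = 0 := by simpa using hg 1 2 (Or.inr (by simp))
  have e20 : g.1 2 0 = 0 := by simpa using hg 2 0 (Or.inl (by simp))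
  have e21 : g.1 2 1 = 0 := by simpa using hg 2 1 (Or.inl (by simp))
  have e22 : g.1 2 2 = 1 := by simpa using hg 2 2 (Or.inl (by simp))
  have hd : g.1 0 0 * g.1 1 1 - g.1 0 1 * g.1 1 0 = 1 := by
    have h1 : g.1.det = 1 := g.2
    rw [det_fin_three, e02, e12', e20, e21, e22] at h1
    linarith
  obtain ⟨l, hl1, hl2, hl3⟩ := hK _ _ _ _ hd
  obtain ⟨m, hm1, hm2, hm3⟩ := lift l hl2
  refine ⟨m, by omega, hm2, ?_⟩
  apply Subtype.ext
  rw [hm3, hl3]
  ext i j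
  fin_cases i <;> fin_cases j <;> simp [e02, e12', e20, e21, e22]


theorem PG.mono_left {G : Type} [Group G] {A A' P : Set G} (hP : PG A P) (h : A ⊆ A') : PG A' P := by
  obtain ⟨N, g, hg⟩ := hP
  refine ⟨N, g, fun x hx => ?_⟩
  obtain ⟨a, ha, hxa⟩ := hg x hx
  exact ⟨a, fun i => h (ha i), hxa⟩

theorem PG.image {G H : Type} [Group G] [Group H] {A P : Set G} (f : G →* H) (hP : PG A P) :
    PG (f '' A) (f '' P) := by
  obtain ⟨N, g, hg⟩ := hP
  refine ⟨N, fun i => f (g i), ?_⟩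
  rintro _ ⟨x, hx, rfl⟩
  obtain ⟨a, ha, hxa⟩ := hg x hx
  refine ⟨fun i => f (a i), fun i => ⟨a i, ha i, rfl⟩, ?_⟩
  rw [hxa, map_list_prod, List.map_ofFn]
  congr 1
  congr 1
  funext i
  simp

/-- `y ⊕ 1` -/
def bm (k : ℕ) (y : Matrix (Fin 3) (Fin 3) ℤ) : Matrix (Fin (3 + k)) (Fin (3 + k)) ℤ :=
  (fromBlocks y 0 0 1).submatrix finSumFinEquiv.symm finSumFinEquiv.symm

theorem bm_det (k : ℕ) (y : Matrix (Fin 3) (Fin 3) ℤ) : (bm k y).det = y.det := by
  unfold bm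
  rw [det_submatrix_equiv_self, det_fromBlocks_zero₂₁, det_one, mul_one]

theorem bm_mul (k : ℕ) (x y : Matrix (Fin 3) (Fin 3) ℤ) : bm k (x * y) = bm k x * bm k y := by
  unfold bm
  rw [submatrix_mul_equiv, fromBlocks_multiply]
  simp

theorem bm_one (k : ℕ) : bm k 1 = 1 := by
  unfold bm
  rw [fromBlocks_one, submatrix_one_equiv]

theorem bm_cc (k : ℕ) (y : Matrix (Fin 3) (Fin 3) ℤ) (i j : Fin 3) :
    bm k y (Fin.castAdd k i) (Fin.castAdd k j) = y i j := by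
  unfold bm
  simp

theorem bm_cn (k : ℕ) (y : Matrix (Fin 3) (Fin 3) ℤ) (i : Fin 3) (j : Fin k) :
    bm k y (Fin.castAdd k i) (Fin.natAdd 3 j) = 0 := by
  unfold bm
  simp

theorem bm_nc (k : ℕ) (y : Matrix (Fin 3) (Fin 3) ℤ) (i : Fin k) (j : Fin 3) :
    bm k y (Fin.natAdd 3 i) (Fin.castAdd k j) = 0 := by
  unfold bm
  simp

theorem bm_nn (k : ℕ) (y : Matrix (Fin 3) (Fin 3) ℤ) (i j : Fin k) :
    bm k y (Fin.natAdd 3 i) (Fin.natAdd 3 j) = if i = j then 1 else 0 := by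
  unfold bm
  simp [Matrix.one_apply]

/-- the embedding -/
def emb (k : ℕ) : S3 →* SpecialLinearGroup (Fin (3 + k)) ℤ where
  toFun y := ⟨bm k y.1, by rw [bm_det]; exact y.2⟩
  map_one' := Subtype.ext (bm_one k)
  map_mul' x y := Subtype.ext (bm_mul k x.1 y.1)

theorem cn_ne (k : ℕ) (i : Fin 3) (j : Fin k) : Fin.castAdd k i ≠ Fin.natAdd 3 j := by
  intro h
  have h1 := congrArg Fin.val h
  rw [Fin.val_castAdd, Fin.val_natAdd] at h1
  have := i.2
  omega

theorem blk_sub (k : ℕ) : Blk (3 + k) ⊆ emb k '' Blk 3 := by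
  intro x hx
  let y : Matrix (Fin 3) (Fin 3) ℤ := fun i j => x.1 (Fin.castAdd k i) (Fin.castAdd k j)
  have hxy : bm k y = x.1 := by
    ext i j
    refine Fin.addCases (fun i => ?_) (fun i => ?_) i <;>
      refine Fin.addCases (fun j => ?_) (fun j => ?_) j
    · rw [bm_cc]
    · rw [bm_cn, hx _ _ (Or.inr (by rw [Fin.val_natAdd]; omega)), if_neg (cn_ne k i j)]
    · rw [bm_nc, hx _ _ (Or.inl (by rw [Fin.val_natAdd]; omega)), if_neg (cn_ne k j i).symm]
    · rw [bm_nn, hx _ _ (Or.inl (by rw [Fin.val_natAdd]; omega))]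
      simp
  have hdet : y.det = 1 := by
    rw [← bm_det k y, hxy]
    exact x.2
  refine ⟨⟨y, hdet⟩, ?_, Subtype.ext hxy⟩
  intro i j hij
  show x.1 (Fin.castAdd k i) (Fin.castAdd k j) = _
  rw [hx _ _ (by rw [Fin.val_castAdd, Fin.val_castAdd]; exact hij)]
  simp

theorem emb_e12 (k : ℕ) (i j : Fin (3 + k)) :
    (emb k e12).1 i j = if i = j then 1 else if (i : ℕ) = 0 ∧ (j : ℕ) = 1 then 1 else 0 := by
  show bm k e12.1 i j = _
  refine Fin.addCases (fun i => ?_) (fun i => ?_) i <;>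
    refine Fin.addCases (fun j => ?_) (fun j => ?_) j
  · rw [bm_cc]
    fin_cases i <;> fin_cases j <;> simp [e12]
  · rw [bm_cn, if_neg (cn_ne k i j), if_neg]
    rintro ⟨-, h⟩
    rw [Fin.val_natAdd] at h
    omega
  · rw [bm_nc, if_neg (cn_ne k j i).symm, if_neg]
    rintro ⟨h, -⟩
    rw [Fin.val_natAdd] at h
    omega
  · rw [bm_nn]
    have h : ¬ (((Fin.natAdd 3 i : Fin (3 + k)) : ℕ) = 0 ∧ ((Fin.natAdd 3 j : Fin (3 + k)) : ℕ) = 1) := by
      rintro ⟨h, -⟩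
      rw [Fin.val_natAdd] at h
      omega
    rw [if_neg h]
    simp

theorem main : S_FCN := by
  intro h1 h2 n hn
  obtain ⟨k, rfl⟩ := Nat.exists_eq_add_of_le hn
  refine ⟨emb k e12, emb_e12 k, ?_⟩
  have h3 : PG {x : SpecialLinearGroup (Fin (3 + k)) ℤ | ∃ m : ℤ, x = emb k e12 ^ m} (Blk (3 + k)) := by
    refine (((pg_blk h1).image (emb k)).mono (blk_sub k)).mono_left ?_
    rintro _ ⟨_, ⟨m, rfl⟩, rfl⟩
    exact ⟨m, map_zpow (emb k) e12 m⟩
  exact bgen_trans h3 (h2 (3 + k) hn)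

end Pool.Agent.H257.BG.FCN
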