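import Pool.Agent.H257.BG.Stm2

set_option autoImplicit false

namespace Pool.Agent.H257.BG.ICN

open Matrix

/-- the elementary matrix `1 + k E_ij` -/
def T {n : ℕ} (i j : Fin n) (hij : i ≠ j) (k : ℤ) : SpecialLinearGroup (Fin n) ℤ :=
  ⟨transvection i j k, det_transvection_of_ne i j hij k⟩

theorem T_add {n : ℕ} {i j : Fin n} (hij : i ≠ j) (k l : ℤ) :
    T i j hij (k + l) = T i j hij k * T i j hij l := by
  apply Subtype.ext
  exact (transvection_mul_transvection_same i j hij k l).symm

theorem comm_of_finite {n : ℕ} (g : SpecialLinearGroup (Fin n) ℤ)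
    (hfin : {x : SpecialLinearGroup (Fin n) ℤ |
      ∃ k : SpecialLinearGroup (Fin n) ℤ, k * g * k⁻¹ = x}.Finite) {i j : Fin n} (hij : i ≠ j) :
    ∃ m : ℤ, m ≠ 0 ∧ T i j hij m * g = g * T i j hij m := by
  have := hfin.to_subtype
  obtain ⟨a, b, hab, h⟩ := Finite.exists_ne_map_eq_of_infinite
    (fun k : ℤ => (⟨T i j hij k * g * (T i j hij k)⁻¹, T i j hij k, rfl⟩ :
      {x : SpecialLinearGroup (Fin n) ℤ | ∃ k : SpecialLinearGroup (Fin n) ℤ, k * g * k⁻¹ = x}))
  have h1 : T i j hij a * g * (T i j hij a)⁻¹ = T i j hij b * g * (T i j hij b)⁻¹ :=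
    congrArg Subtype.val h
  refine ⟨a - b, sub_ne_zero.2 hab, ?_⟩
  have h2 : T i j hij a = T i j hij b * T i j hij (a - b) := by
    rw [← T_add]
    congr 1
    ring
  rw [h2] at h1
  have h3 : T i j hij b * (T i j hij (a - b) * g * (T i j hij (a - b))⁻¹) * (T i j hij b)⁻¹ =
      T i j hij b * g * (T i j hij b)⁻¹ := by
    rw [← h1]
    group
  have h4 := mul_left_cancel (mul_right_cancel h3)
  exact mul_inv_eq_iff_eq_mul.1 h4

theorem entries {n : ℕ} (g : SpecialLinearGroup (Fin n) ℤ) {i j : Fin n} (hij : i ≠ j) {m : ℤ}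
    (hm : m ≠ 0) (h : T i j hij m * g = g * T i j hij m) :
    (∀ a, a ≠ i → g.1 a i = 0) ∧ g.1 i i = g.1 j j := by
  have h1 : transvection i j m * g.1 = g.1 * transvection i j m := congrArg Subtype.val h
  unfold transvection at h1
  rw [add_mul, mul_add, one_mul, mul_one] at h1
  have h2 : single i j m * g.1 = g.1 * single i j m := add_left_cancel h1
  constructor
  · intro a ha
    have h3 := congrFun (congrFun h2 a) j
    rw [Matrix.single_mul_apply_of_ne _ _ _ _ _ ha, Matrix.mul_single_apply_same] at h3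
    exact (mul_eq_zero.1 h3.symm).resolve_right hm
  · have h3 := congrFun (congrFun h2 i) j
    rw [Matrix.single_mul_apply_same, Matrix.mul_single_apply_same, mul_comm] at h3
    exact (mul_right_cancel₀ hm h3).symm

theorem main : S_ICN := by
  intro n hn hodd g hg
  by_contra hinf
  rw [Set.not_infinite] at hinf
  apply hg
  have hex : ∀ i : Fin n, ∃ j, i ≠ j := by
    intro i
    by_cases h : (i : ℕ) = 0
    · exact ⟨⟨1, by omega⟩, fun h2 => by rw [h2] at h; exact one_ne_zero h⟩
    · exact ⟨⟨0, by omega⟩, fun h2 => h (by rw [h2])⟩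
  have hoff : ∀ a i : Fin n, a ≠ i → g.1 a i = 0 := by
    intro a i hai
    obtain ⟨j, hj⟩ := hex i
    obtain ⟨m, hm, h⟩ := comm_of_finite g hinf hj
    exact (entries g hj hm h).1 a hai
  have hdiag : ∀ i j : Fin n, g.1 i i = g.1 j j := by
    intro i j
    by_cases hij : i = j
    · rw [hij]
    · obtain ⟨m, hm, h⟩ := comm_of_finite g hinf hij
      exact (entries g hij hm h).2
  obtain ⟨c, hc⟩ : ∃ c, c = g.1 ⟨0, by omega⟩ ⟨0, by omega⟩ := ⟨_, rfl⟩
  have hgc : g.1 = diagonal fun _ => c := by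
    ext a b
    by_cases hab : a = b
    · subst hab
      rw [diagonal_apply_eq, hc]
      exact hdiag _ _
    · rw [diagonal_apply_ne _ hab]
      exact hoff a b hab
  have hdet : c ^ n = 1 := by
    have h1 := g.2
    rw [hgc, det_diagonal, Finset.prod_const, Finset.card_univ, Fintype.card_fin] at h1
    exact h1
  have hc1 : c = 1 := by
    have hu : IsUnit c := IsUnit.of_pow_eq_one hdet (by omega)
    rcases Int.isUnit_iff.1 hu with h | h
    · exact h
    · rw [h, hodd.neg_one_pow] at hdet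
      norm_num at hdet
  apply Subtype.ext
  rw [hgc, hc1]
  exact diagonal_one

end Pool.Agent.H257.BG.ICN
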