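import Pool.Agent.H257.BG.Stm

/-!
# BG, leaf INV: an invariant vector from a coefficient bounded below
-/

set_option autoImplicit false

namespace Pool.Agent.H257.BG.INV

theorem norm_unitary {H : Type} [NormedAddCommGroup H] [InnerProductSpace ℂ H] [CompleteSpace H]
    (u : unitary (H →L[ℂ] H)) (x : H) : ‖(u : H →L[ℂ] H) x‖ = ‖x‖ := by
  have h1 : ‖(u : H →L[ℂ] H) x‖ ^ 2 = ‖x‖ ^ 2 := by
    have h2 : (inner ℂ ((u : H →L[ℂ] H) x) ((u : H →L[ℂ] H) x) : ℂ) = inner ℂ x x := by
      rw [← ContinuousLinearMap.adjoint_inner_right]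
      have h3 : (ContinuousLinearMap.adjoint (u : H →L[ℂ] H)) ((u : H →L[ℂ] H) x) = x := by
        have h4 : star (u : H →L[ℂ] H) * (u : H →L[ℂ] H) = 1 := Unitary.coe_star_mul_self u
        have h5 := congrArg (fun T : H →L[ℂ] H => T x) h4
        simpa [ContinuousLinearMap.star_eq_adjoint] using h5
      rw [h3]
    rw [inner_self_eq_norm_sq_to_K, inner_self_eq_norm_sq_to_K] at h2
    exact_mod_cast h2
  exact (sq_eq_sq₀ (norm_nonneg _) (norm_nonneg _)).1 h1

theorem main : S_INV := by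
  intro G H _ _ _ _ π ξ c hc hb
  let _ : InnerProductSpace ℝ H := InnerProductSpace.rclikeToReal ℂ H
  let S : Set H := Set.range fun g => (π g : H →L[ℂ] H) ξ
  let C : Set H := closure (convexHull ℝ S)
  have hCconv : Convex ℝ C := (convex_convexHull ℝ S).closure
  have hCne : C.Nonempty := by
    refine ⟨_, subset_closure (subset_convexHull ℝ S ⟨1, rfl⟩)⟩
  have hCc : IsComplete C := isClosed_closure.isComplete
  have hmap : ∀ g, ∀ x ∈ C, (π g : H →L[ℂ] H) x ∈ C := by
    intro g x hx
    refine map_mem_closure (π g : H →L[ℂ] H).continuous hx ?_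
    intro y hy
    have h1 : convexHull ℝ S ⊆ (π g : H →L[ℂ] H) ⁻¹' (convexHull ℝ S) := by
      refine convexHull_min ?_ ?_
      · rintro _ ⟨k, rfl⟩
        apply subset_convexHull
        refine ⟨g * k, ?_⟩
        simp
      · exact (convex_convexHull ℝ S).linear_preimage
          (((π g : H →L[ℂ] H).restrictScalars ℝ : H →L[ℝ] H) : H →ₗ[ℝ] H)
    exact h1 hy
  have hlow : ∀ x ∈ C, c ≤ (inner ℂ ξ x).re := by
    have hcl : IsClosed {x : H | c ≤ (inner ℂ ξ x).re} := by
      refine isClosed_le continuous_const ?_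
      exact Complex.continuous_re.comp (continuous_const.inner continuous_id)
    have hcv : Convex ℝ {x : H | c ≤ (inner ℂ ξ x).re} := by
      intro x hx y hy a b ha hb hab
      have hx' : c ≤ (inner ℂ ξ x).re := hx
      have hy' : c ≤ (inner ℂ ξ y).re := hy
      show c ≤ (inner ℂ ξ (a • x + b • y)).re
      have h1 : (inner ℂ ξ (a • x + b • y)).re = a * (inner ℂ ξ x).re + b * (inner ℂ ξ y).re := by
        rw [inner_add_right]
        have e1 : (inner ℂ ξ (a • x) : ℂ) = (a : ℂ) * inner ℂ ξ x := by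
          rw [← inner_smul_right]
          rfl
        have e2 : (inner ℂ ξ (b • y) : ℂ) = (b : ℂ) * inner ℂ ξ y := by
          rw [← inner_smul_right]
          rfl
        rw [e1, e2]
        simp
      rw [h1]
      nlinarith
    intro x hx
    have h1 : C ⊆ {x : H | c ≤ (inner ℂ ξ x).re} := by
      refine closure_minimal (convexHull_min ?_ hcv) hcl
      rintro _ ⟨g, rfl⟩
      exact hb g
    exact h1 hx
  obtain ⟨v, hv, hmin⟩ := exists_norm_eq_iInf_of_complete_convex hCne hCc hCconv 0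
  rw [norm_eq_iInf_iff_real_inner_le_zero hCconv hv] at hmin
  refine ⟨v, ?_, ?_⟩
  · rintro rfl
    have := hlow 0 hv
    simp at this
    linarith
  · intro g
    have h1 := hmin _ (hmap g v hv)
    have h2 : ‖(π g : H →L[ℂ] H) v‖ = ‖v‖ := norm_unitary (π g) v
    set w := (π g : H →L[ℂ] H) v with hw
    have h3 : ‖w - v‖ ^ 2 = ‖w‖ ^ 2 - 2 * inner ℝ w v + ‖v‖ ^ 2 := norm_sub_sq_real w v
    have h4 : inner ℝ (0 - v) (w - v) = - inner ℝ v w + ‖v‖ ^ 2 := by
      rw [zero_sub, inner_neg_left, inner_sub_right, real_inner_self_eq_norm_sq]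
      ring
    rw [h4] at h1
    rw [real_inner_comm v w, h2] at h3
    have h5 : ‖w - v‖ ^ 2 ≤ 0 := by linarith
    have h6 : ‖w - v‖ = 0 := by
      have := sq_nonneg ‖w - v‖
      exact pow_eq_zero_iff (two_ne_zero) |>.1 (le_antisymm h5 this)
    exact sub_eq_zero.1 (norm_eq_zero.1 h6)

end Pool.Agent.H257.BG.INV
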