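import Pool.Agent.H257.BG.Stm

/-!
# Project BG, leaf LOW (helper939)
-/

set_option autoImplicit false

namespace Pool.Agent.H257.BG.LOW

open Pool.Agent.H494R3.GT Pool.Agent.N557.QW
open Pool.Agent.N414.LR (Op IsIcc)
open Pool.Agent.H257.BG

theorem norm_apply_one {Λ : Type} [Group Λ] {x : Op Λ} (hx : x ∈ unitary (Op Λ)) :
    ‖x (dl 1)‖ = 1 := by
  classical
  have h1 : inner ℂ (x (dl 1)) (x (dl 1)) = (1 : ℂ) := by
    have h2 : star x * x = 1 := (Unitary.mem_iff.1 hx).1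
    have h3 := congrArg (fun y : Op Λ => inner ℂ (dl 1) (y (dl 1))) h2
    simp only [mul_apply_eq_comp, one_apply_eq_self] at h3
    rw [ContinuousLinearMap.star_eq_adjoint, ContinuousLinearMap.adjoint_inner_right, dl_inner] at h3
    simpa using h3
  have h4 : ((‖x (dl 1)‖ ^ 2 : ℝ) : ℂ) = 1 := by
    rw [← h1, inner_self_eq_norm_sq_to_K]
    push_cast
    rfl
  have h5 : ‖x (dl 1)‖ ^ 2 = 1 := by exact_mod_cast h4
  nlinarith [norm_nonneg (x (dl (1 : Λ)))]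

theorem summable_sq {Λ : Type} (w : L2 Λ) : Summable fun h => ‖w h‖ ^ 2 := by
  have h1 := (lp.memℓp w).summable (by norm_num)
  simpa using h1

theorem main : S_LOW := by
  intro G Λ _ _ v _ hUA
  obtain ⟨m, hm⟩ := hUA (1 / 2) (by norm_num)
  refine ⟨1 / (4 * (m + 1)), by positivity, fun g => ?_⟩
  obtain ⟨F, hF, hF2⟩ := hm (v g : Op Λ) ⟨g, rfl⟩
  set x : Op Λ := (v g : Op Λ) with hx
  have hxu : x ∈ unitary (Op Λ) := (v g).2
  have hcf : ∀ h, cf x h = x (dl 1) h := fun h => by rw [cf, inner_dl]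
  have hnorm : ‖x (dl 1)‖ = 1 := norm_apply_one hxu
  have hle1 : ∀ h, ‖cf x h‖ ≤ 1 := by
    intro h
    rw [hcf, ← hnorm]
    exact lp.norm_apply_le_norm (by norm_num) _ _
  have hsum2 : Summable fun h => ‖cf x h‖ ^ 2 := by
    simp_rw [hcf]
    exact summable_sq _
  have hsum4 : Summable fun h => ‖cf x h‖ ^ 4 := by
    refine Summable.of_nonneg_of_le (fun h => by positivity) (fun h => ?_) hsum2
    exact pow_le_pow_of_le_one (norm_nonneg _) (hle1 h) (by norm_num)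
  have h1 : (∑ h ∈ F, ‖cf x h‖ ^ 2) ^ 2 ≤ F.card * ∑ h ∈ F, (‖cf x h‖ ^ 2) ^ 2 :=
    sq_sum_le_card_mul_sum_sq
  have h2 : ∑ h ∈ F, (‖cf x h‖ ^ 2) ^ 2 ≤ ∑' h, ‖cf x h‖ ^ 4 := by
    have h3 : ∀ h, (‖cf x h‖ ^ 2) ^ 2 = ‖cf x h‖ ^ 4 := fun h => by ring
    simp_rw [h3]
    exact hsum4.sum_le_tsum F (fun h _ => by positivity)
  have h4 : (1 / 2 : ℝ) ≤ ∑ h ∈ F, ‖cf x h‖ ^ 2 := by linarith
  have h5 : (F.card : ℝ) ≤ m := by exact_mod_cast hF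
  have h6 : 0 ≤ ∑ h ∈ F, (‖cf x h‖ ^ 2) ^ 2 := Finset.sum_nonneg fun h _ => by positivity
  have h7 : (1 / 4 : ℝ) ≤ (m + 1) * ∑' h, ‖cf x h‖ ^ 4 := by
    calc (1 / 4 : ℝ) ≤ (∑ h ∈ F, ‖cf x h‖ ^ 2) ^ 2 := by nlinarith
      _ ≤ F.card * ∑ h ∈ F, (‖cf x h‖ ^ 2) ^ 2 := h1
      _ ≤ (m + 1) * ∑ h ∈ F, (‖cf x h‖ ^ 2) ^ 2 := by nlinarith
      _ ≤ (m + 1) * ∑' h, ‖cf x h‖ ^ 4 := mul_le_mul_of_nonneg_left h2 (by positivity)
  rw [div_le_iff₀ (by positivity)]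
  linarith

end Pool.Agent.H257.BG.LOW
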