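import Pool.Agent.H257.BG.Stm3

/-!
# Leaf MEN: Mennicke multiplicativity in `SL_3(ℤ)` (helper448 for helper257)
-/

set_option autoImplicit false

namespace Pool.Agent.H257.BG.MEN

open Matrix Pool.Agent.H257.BG

/-- products of at most `k` elementary matrices -/
def P3 (k : ℕ) (M : Matrix (Fin 3) (Fin 3) ℤ) : Prop :=
  ∃ l : List (Matrix (Fin 3) (Fin 3) ℤ), l.length ≤ k ∧
    (∀ y ∈ l, ∃ i j : Fin 3, i ≠ j ∧ ∃ t : ℤ, y = transvection i j t) ∧ l.prod = M

theorem P3.mul {i j : ℕ} {A B : Matrix (Fin 3) (Fin 3) ℤ} (hA : P3 i A) (hB : P3 j B) :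
    P3 (i + j) (A * B) := by
  obtain ⟨l, h1, h2, h3⟩ := hA
  obtain ⟨m, h4, h5, h6⟩ := hB
  refine ⟨l ++ m, ?_, ?_, ?_⟩
  · rw [List.length_append]
    omega
  · intro y hy
    rcases List.mem_append.1 hy with h | h
    · exact h2 y h
    · exact h5 y h
  · rw [List.prod_append, h3, h6]

theorem P3.elem (i j : Fin 3) (hij : i ≠ j) (t : ℤ) : P3 1 (transvection i j t) := by
  refine ⟨[transvection i j t], le_rfl, ?_, ?_⟩
  · intro y hy
    rw [List.mem_singleton] at hy
    exact ⟨i, j, hij, t, hy⟩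
  · rw [List.prod_singleton]

theorem trans_perm (e : Equiv.Perm (Fin 3)) (i j : Fin 3) (t : ℤ) :
    (transvection i j t).submatrix e e = transvection (e.symm i) (e.symm j) t := by
  ext a b
  rw [Matrix.submatrix_apply]
  simp only [transvection, Matrix.add_apply, Matrix.one_apply, Matrix.single_apply,
    EmbeddingLike.apply_eq_iff_eq, Equiv.symm_apply_eq]

theorem P3.perm {k : ℕ} {A : Matrix (Fin 3) (Fin 3) ℤ} (hA : P3 k A) (e : Equiv.Perm (Fin 3)) :
    P3 k (A.submatrix e e) := by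
  obtain ⟨l, h1, h2, h3⟩ := hA
  refine ⟨l.map (fun M => M.submatrix e e), by rw [List.length_map]; exact h1, ?_, ?_⟩
  · intro y hy
    obtain ⟨M, hM, rfl⟩ := List.mem_map.1 hy
    obtain ⟨i, j, hij, t, rfl⟩ := h2 M hM
    exact ⟨e.symm i, e.symm j, fun h => hij (e.symm.injective h), t, trans_perm e i j t⟩
  · rw [← h3]
    clear h1 h2 h3
    induction l with
    | nil =>
      rw [List.map_nil, List.prod_nil]
      exact (Matrix.submatrix_one_equiv e).symm
    | cons M l ih =>
      rw [List.map_cons, List.prod_cons, List.prod_cons, ih]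
      exact Matrix.submatrix_mul_equiv M l.prod e e e

/-- `0 ↦ 2`, `1 ↦ 0`, `2 ↦ 1` -/
def e1 : Equiv.Perm (Fin 3) where
  toFun := ![2, 0, 1]
  invFun := ![1, 2, 0]
  left_inv := by decide
  right_inv := by decide

/-- `0 ↦ 0`, `1 ↦ 2`, `2 ↦ 1` -/
def e2 : Equiv.Perm (Fin 3) where
  toFun := ![0, 2, 1]
  invFun := ![0, 2, 1]
  left_inv := by decide
  right_inv := by decide

theorem sub1 (x z r s : ℤ) :
    (!![x, z, 0; r, s, 0; 0, 0, 1] : Matrix (Fin 3) (Fin 3) ℤ).submatrix e1 e1 =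
      !![1, 0, 0; 0, x, z; 0, r, s] := by
  ext i j
  fin_cases i <;> fin_cases j <;> rfl

theorem sub2 (x y u v : ℤ) :
    (!![x, 0, y; 0, 1, 0; u, 0, v] : Matrix (Fin 3) (Fin 3) ℤ).submatrix e2 e2 =
      !![x, y, 0; u, v, 0; 0, 0, 1] := by
  ext i j
  fin_cases i <;> fin_cases j <;> rfl

theorem t21 (t : ℤ) : transvection (2 : Fin 3) 1 t = !![1, 0, 0; 0, 1, 0; 0, t, 1] := by
  ext i j
  fin_cases i <;> fin_cases j <;> simp [transvection, Matrix.single_apply]

theorem t01 (t : ℤ) : transvection (0 : Fin 3) 1 t = !![1, t, 0; 0, 1, 0; 0, 0, 1] := by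
  ext i j
  fin_cases i <;> fin_cases j <;> simp [transvection, Matrix.single_apply]

theorem t10 (t : ℤ) : transvection (1 : Fin 3) 0 t = !![1, 0, 0; t, 1, 0; 0, 0, 1] := by
  ext i j
  fin_cases i <;> fin_cases j <;> simp [transvection, Matrix.single_apply]

theorem t12 (t : ℤ) : transvection (1 : Fin 3) 2 t = !![1, 0, 0; 0, 1, t; 0, 0, 1] := by
  ext i j
  fin_cases i <;> fin_cases j <;> simp [transvection, Matrix.single_apply]

theorem ident (x y z u v r s : ℤ) (h : x * v - y * u = 1) :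
    transvection (2 : Fin 3) 1 (-r) * !![x, y, 0; u, v, 0; 0, 0, 1] *
      !![1, 0, 0; 0, x, z; 0, r, s] * transvection (0 : Fin 3) 1 (-y) *
      transvection (1 : Fin 3) 0 (-u) * transvection (1 : Fin 3) 2 (-(v * z)) =
    !![x, 0, y * z; 0, 1, 0; -(r * u), 0, s - r * v * z] := by
  rw [t21, t01, t10, t12, Matrix.mul_fin_three, Matrix.mul_fin_three, Matrix.mul_fin_three,
    Matrix.mul_fin_three, Matrix.mul_fin_three]
  ext i j
  fin_cases i <;> fin_cases j
  · simp only [Fin.zero_eta, Matrix.of_apply, Matrix.cons_val]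
    ring
  · simp only [Fin.zero_eta, Fin.mk_one, Matrix.of_apply, Matrix.cons_val]
    ring
  · simp only [Fin.zero_eta, Fin.reduceFinMk, Matrix.of_apply, Matrix.cons_val]
    ring
  · simp only [Fin.zero_eta, Fin.mk_one, Matrix.of_apply, Matrix.cons_val]
    linear_combination (-u) * h
  · simp only [Fin.mk_one, Matrix.of_apply, Matrix.cons_val]
    linear_combination h
  · simp only [Fin.mk_one, Fin.reduceFinMk, Matrix.of_apply, Matrix.cons_val]
    linear_combination (-(v * z)) * h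
  · simp only [Fin.zero_eta, Fin.reduceFinMk, Matrix.of_apply, Matrix.cons_val]
    linear_combination (u * r) * h
  · simp only [Fin.mk_one, Fin.reduceFinMk, Matrix.of_apply, Matrix.cons_val]
    linear_combination (-r) * h
  · simp only [Fin.reduceFinMk, Matrix.of_apply, Matrix.cons_val]
    linear_combination (v * z * r) * h

theorem main : S_MEN := by
  refine ⟨4, ?_⟩
  intro i j x y z u v r s h1 _ hX hY
  have hX' : P3 i !![x, y, 0; u, v, 0; 0, 0, 1] := hX
  have hY' : P3 j !![x, z, 0; r, s, 0; 0, 0, 1] := hY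
  have hY2 : P3 j !![1, 0, 0; 0, x, z; 0, r, s] := by
    rw [← sub1]
    exact hY'.perm e1
  have h := (((((P3.elem 2 1 (by decide) (-r)).mul hX').mul hY2).mul
    (P3.elem 0 1 (by decide) (-y))).mul (P3.elem 1 0 (by decide) (-u))).mul
    (P3.elem 1 2 (by decide) (-(v * z)))
  rw [ident x y z u v r s h1] at h
  have h2 := h.perm e2
  rw [sub2] at h2
  have h3 : 1 + i + j + 1 + 1 + 1 = i + j + 4 := by omega
  rw [h3] at h2
  exact h2

end Pool.Agent.H257.BG.MEN
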