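import Pool.Agent.H257.BG.Stm

/-!
# Project BG, leaf PRD: products of operators in `L(G)` close to few translations
-/

set_option autoImplicit false
set_option linter.unusedSectionVars false

namespace Pool.Agent.H257.BG.PRD

open Pool.Agent.H494R3.GT Pool.Agent.N557.QW Pool.Agent.N169.QWP Pool.Agent.H257.HD
open Pool.Agent.N414.LR (Op IsIcc)
open Pool.Agent.N414.LR.CLS Pool.Agent.N414.LR.END
open Pool.Agent.N2.LR.HS (mk2 mk2_apply sq_summable sq_tsum)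

noncomputable section

variable {Λ : Type} [Group Λ]

/-- the trace norm is invariant under multiplication by unitaries of `L(Λ)` from the right -/
theorem norm_right (u : Op Λ) (hu : u ∈ LG Λ) (huu : u * star u = 1) (c : Op Λ)
    (hc : c ∈ LG Λ) : ‖(c * u) (dl 1)‖ = ‖c (dl 1)‖ := by
  have h : ‖(c * u) (dl 1)‖ ^ 2 = ‖c (dl 1)‖ ^ 2 := by
    rw [MIX.nsq, MIX.nsq, star_mul]
    congr 1
    have e : star u * star c * (c * u) = star u * ((star c * c) * u) := by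
      simp only [mul_assoc]
    rw [e, cf_comm (star_mem' hu) (mul_mem' (mul_mem' (star_mem' hc) hc) hu), mul_assoc,
      huu, mul_one]
  exact (pow_left_inj₀ (norm_nonneg _) (norm_nonneg _) two_ne_zero).1 h

theorem dl_norm (h : Λ) : ‖(dl h : L2 Λ)‖ = 1 := by
  have h1 : ‖(dl h : L2 Λ)‖ ^ 2 = 1 := by
    have h2 : inner ℂ (dl h : L2 Λ) (dl h) = (1 : ℂ) := by
      rw [inner_dl, dl_apply_self]
    have h4 := inner_self_eq_norm_sq (𝕜 := ℂ) (dl h : L2 Λ)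
    rw [h2] at h4
    rw [← h4]
    exact RCLike.one_re
  have h3 := norm_nonneg (dl h : L2 Λ)
  nlinarith

theorem unit_norm (u : Op Λ) (huu : star u * u = 1) (v : L2 Λ) : ‖u v‖ = ‖v‖ := by
  have h : ‖u v‖ ^ 2 = ‖v‖ ^ 2 := by
    have e : inner ℂ (u v) (u v) = inner ℂ v v := by
      rw [← ContinuousLinearMap.adjoint_inner_right]
      have : (ContinuousLinearMap.adjoint u) (u v) = (star u * u) v := rfl
      rw [this, huu]
      rfl
    rw [inner_self_eq_norm_sq_to_K, inner_self_eq_norm_sq_to_K] at e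
    exact_mod_cast e
  exact (pow_left_inj₀ (norm_nonneg _) (norm_nonneg _) two_ne_zero).1 h

theorem sum_ap (F : Finset Λ) (f : Λ → L2 Λ) (g : Λ) : (∑ h ∈ F, f h : L2 Λ) g = ∑ h ∈ F, (f h) g := by
  classical
  induction F using Finset.induction_on with
  | empty => simp
  | insert a s ha ih =>
    rw [Finset.sum_insert ha, Finset.sum_insert ha, ← ih]
    rfl

/-- the truncation -/
def trn (F : Finset Λ) (w : L2 Λ) : L2 Λ := ∑ h ∈ F, w h • dl h

open scoped Classical in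
theorem trn_ap (F : Finset Λ) (w : L2 Λ) (g : Λ) : (trn F w) g = if g ∈ F then w g else 0 := by
  rw [trn, sum_ap]
  by_cases hg : g ∈ F
  · rw [if_pos hg, Finset.sum_eq_single g]
    · change w g * (dl g : L2 Λ) g = w g
      rw [dl_apply_self, mul_one]
    · intro b _ hb
      change w b * (dl b : L2 Λ) g = 0
      rw [dl_apply_ne (Ne.symm hb), mul_zero]
    · intro h
      exact absurd hg h
  · rw [if_neg hg]
    refine Finset.sum_eq_zero (fun b hb => ?_)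
    change w b * (dl b : L2 Λ) g = 0
    rw [dl_apply_ne (fun h => hg (by rw [h]; exact hb)), mul_zero]

open scoped Classical in
theorem fin_tsum (F : Finset Λ) (w : L2 Λ) :
    (Summable fun g => (if g ∈ F then ‖w g‖ ^ 2 else 0 : ℝ)) ∧
      ∑' g, (if g ∈ F then ‖w g‖ ^ 2 else 0 : ℝ) = ∑ g ∈ F, ‖w g‖ ^ 2 := by
  constructor
  · refine summable_of_ne_finset_zero (s := F) (fun g hg => if_neg hg)
  · rw [tsum_eq_sum (s := F) (fun g hg => if_neg hg)]
    exact Finset.sum_congr rfl (fun g hg => if_pos hg)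

/-- the mass outside of `F` -/
theorem trn_norm (F : Finset Λ) (w : L2 Λ) :
    ‖w - trn F w‖ ^ 2 = ‖w‖ ^ 2 - ∑ g ∈ F, ‖w g‖ ^ 2 := by
  classical
  rw [← (fin_tsum F w).2, ← sq_tsum w, ← sq_tsum (w - trn F w), eq_sub_iff_add_eq,
    ← (sq_summable (w - trn F w)).tsum_add (fin_tsum F w).1]
  refine tsum_congr (fun g => ?_)
  change ‖w g - (trn F w) g‖ ^ 2 + _ = _
  rw [trn_ap]
  by_cases hg : g ∈ F
  · rw [if_pos hg, if_pos hg, sub_self, norm_zero]
    ring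
  · rw [if_neg hg, if_neg hg, sub_zero, add_zero]

/-- the mass outside of `F` is at most the distance to vectors supported in `F` -/
theorem dist_supp (F : Finset Λ) (w s : L2 Λ) (hs : ∀ g, g ∉ F → s g = 0) :
    ‖w‖ ^ 2 - ∑ g ∈ F, ‖w g‖ ^ 2 ≤ ‖w - s‖ ^ 2 := by
  classical
  rw [← (fin_tsum F w).2, ← sq_tsum w, ← sq_tsum (w - s), sub_le_iff_le_add,
    ← (sq_summable (w - s)).tsum_add (fin_tsum F w).1]
  refine (sq_summable w).tsum_le_tsum (fun g => ?_) ((sq_summable (w - s)).add (fin_tsum F w).1)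
  change ‖w g‖ ^ 2 ≤ ‖w g - s g‖ ^ 2 + _
  by_cases hg : g ∈ F
  · rw [if_pos hg]
    have := sq_nonneg ‖w g - s g‖
    linarith
  · rw [if_neg hg, hs g hg, sub_zero, add_zero]

theorem lam_norm (h : Λ) (v : L2 Λ) : ‖lam h v‖ = ‖v‖ := by
  apply unit_norm
  rw [star_lam]
  apply op_ext
  intro s
  rw [mul_ap, lam_dl, lam_dl, inv_mul_cancel_left]
  rfl

/-- a combination of translations -/
def cmb (F : Finset Λ) (w : L2 Λ) : Op Λ := ∑ h ∈ F, w h • lam h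

theorem cmb_ap (F : Finset Λ) (w v : L2 Λ) : cmb F w v = ∑ h ∈ F, w h • lam h v := by
  classical
  rw [cmb]
  induction F using Finset.induction_on with
  | empty => simp
  | insert a s ha ih =>
    rw [Finset.sum_insert ha, Finset.sum_insert ha, ← ih]
    rfl

theorem cmb_mem (F : Finset Λ) (w : L2 Λ) : cmb F w ∈ LG Λ := by
  rw [cmb]
  exact (LG Λ).toStarSubalgebra.sum_mem (fun h _ => smul_mem' _ (lam_mem h))

theorem cmb_norm (F : Finset Λ) (w v : L2 Λ) (hw : ‖w‖ = 1) :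
    ‖cmb F w v‖ ^ 2 ≤ F.card * ‖v‖ ^ 2 := by
  have h1 : ‖cmb F w v‖ ≤ (∑ h ∈ F, ‖w h‖) * ‖v‖ := by
    rw [cmb_ap, Finset.sum_mul]
    refine (norm_sum_le _ _).trans (Finset.sum_le_sum (fun h _ => ?_))
    rw [norm_smul, lam_norm]
  have h2 : (∑ h ∈ F, ‖w h‖) ^ 2 ≤ F.card * ∑ h ∈ F, ‖w h‖ ^ 2 := sq_sum_le_card_mul_sum_sq
  have h3 : ∑ h ∈ F, ‖w h‖ ^ 2 ≤ 1 := by
    have := trn_norm F w
    have h4 := sq_nonneg ‖w - trn F w‖
    rw [hw] at this
    linarith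
  have h5 : (0:ℝ) ≤ F.card := Nat.cast_nonneg _
  have h6 : (∑ h ∈ F, ‖w h‖) ^ 2 ≤ F.card := by
    have := mul_le_mul_of_nonneg_left h3 h5
    linarith
  calc ‖cmb F w v‖ ^ 2 ≤ ((∑ h ∈ F, ‖w h‖) * ‖v‖) ^ 2 :=
        pow_le_pow_left₀ (norm_nonneg _) h1 2
    _ = (∑ h ∈ F, ‖w h‖) ^ 2 * ‖v‖ ^ 2 := by ring
    _ ≤ F.card * ‖v‖ ^ 2 := mul_le_mul_of_nonneg_right h6 (sq_nonneg _)

theorem cmb_dl (F : Finset Λ) (w : L2 Λ) : cmb F w (dl 1) = trn F w := by
  rw [cmb_ap, trn]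
  refine Finset.sum_congr rfl (fun h _ => ?_)
  rw [lam_dl, mul_one]

open scoped Classical in
theorem cmb_supp (F₁ F₂ : Finset Λ) (w v : L2 Λ) (g : Λ)
    (hg : g ∉ (F₁ ×ˢ F₂).image (fun p => p.1 * p.2)) : (cmb F₁ w (trn F₂ v)) g = 0 := by
  rw [cmb_ap, sum_ap]
  refine Finset.sum_eq_zero (fun h hh => ?_)
  change w h * (lam h (trn F₂ v)) g = 0
  have e : (lam h (trn F₂ v)) g = (trn F₂ v) (h⁻¹ * g) := by
    rw [lam, UU_apply]
    rfl
  rw [e, trn_ap, if_neg, mul_zero]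
  intro h2
  apply hg
  rw [Finset.mem_image]
  exact ⟨(h, h⁻¹ * g), Finset.mem_product.2 ⟨hh, h2⟩, mul_inv_cancel_left h g⟩

theorem main : S_PRD := by
  classical
  intro Λ _ X Y hX hY hUX hUY η hη
  obtain ⟨m₁, hm₁⟩ := hUX (η / 4) (by positivity)
  obtain ⟨m₂, hm₂⟩ := hUY (η / (4 * (m₁ + 1))) (by positivity)
  refine ⟨m₁ * m₂, ?_⟩
  rintro z ⟨x, hx, y, hy, rfl⟩
  obtain ⟨F₁, hF₁, h1⟩ := hm₁ x hx
  obtain ⟨F₂, hF₂, h2⟩ := hm₂ y hy
  refine ⟨(F₁ ×ˢ F₂).image (fun p => p.1 * p.2), ?_, ?_⟩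
  · refine Finset.card_image_le.trans ?_
    rw [Finset.card_product]
    exact Nat.mul_le_mul hF₁ hF₂
  · have hxL := (hX x hx).1
    have hyL := (hY y hy).1
    have hx1 : star x * x = 1 := (hX x hx).2.1
    have hy1 : star y * y = 1 := (hY y hy).2.1
    have hy2 : y * star y = 1 := (hY y hy).2.2
    have nx : ‖x (dl 1)‖ = 1 := by rw [unit_norm x hx1, dl_norm]
    have ny : ‖y (dl 1)‖ = 1 := by rw [unit_norm y hy1, dl_norm]
    have nz : ‖(x * y) (dl 1)‖ = 1 := by rw [mul_ap, unit_norm x hx1, ny]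
    have ecf : ∀ (T : Op Λ) (h : Λ), cf T h = (T (dl 1)) h := fun T h => by rw [cf, inner_dl]
    have a1 : ‖x (dl 1) - trn F₁ (x (dl 1))‖ ^ 2 ≤ η / 4 := by
      rw [trn_norm, nx, one_pow]
      simp only [ecf] at h1
      exact h1
    have a2 : ‖y (dl 1) - trn F₂ (y (dl 1))‖ ^ 2 ≤ η / (4 * (m₁ + 1)) := by
      rw [trn_norm, ny, one_pow]
      simp only [ecf] at h2
      exact h2
    have b1 := dist_supp ((F₁ ×ˢ F₂).image (fun p => p.1 * p.2)) ((x * y) (dl 1))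
      (cmb F₁ (x (dl 1)) (trn F₂ (y (dl 1))))
      (fun g hg => cmb_supp F₁ F₂ (x (dl 1)) (y (dl 1)) g hg)
    rw [nz, one_pow] at b1
    simp only [ecf]
    refine b1.trans ?_
    -- the splitting
    have e1 : (x * y) (dl 1) - cmb F₁ (x (dl 1)) (trn F₂ (y (dl 1)))
        = ((x - cmb F₁ (x (dl 1))) * y) (dl 1)
          + cmb F₁ (x (dl 1)) (y (dl 1) - trn F₂ (y (dl 1))) := by
      rw [mul_ap, mul_ap, map_sub]
      change _ = (x (y (dl 1)) - cmb F₁ (x (dl 1)) (y (dl 1))) + _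
      abel
    have n1 : ‖((x - cmb F₁ (x (dl 1))) * y) (dl 1)‖ ^ 2 ≤ η / 4 := by
      rw [norm_right y hyL hy2 _ ((LG Λ).toStarSubalgebra.sub_mem hxL (cmb_mem _ _))]
      change ‖x (dl 1) - cmb F₁ (x (dl 1)) (dl 1)‖ ^ 2 ≤ η / 4
      rw [cmb_dl]
      exact a1
    have n2 : ‖cmb F₁ (x (dl 1)) (y (dl 1) - trn F₂ (y (dl 1)))‖ ^ 2 ≤ η / 4 := by
      refine (cmb_norm F₁ _ _ nx).trans ?_
      have c1 : (F₁.card : ℝ) ≤ m₁ + 1 := by
        have : (F₁.card : ℝ) ≤ m₁ := by exact_mod_cast hF₁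
        linarith
      calc (F₁.card : ℝ) * ‖y (dl 1) - trn F₂ (y (dl 1))‖ ^ 2
          ≤ (m₁ + 1) * (η / (4 * (m₁ + 1))) :=
            mul_le_mul c1 a2 (sq_nonneg _) (by positivity)
        _ = η / 4 := by field_simp
    rw [e1]
    have n3 := norm_add_le (((x - cmb F₁ (x (dl 1))) * y) (dl 1))
      (cmb F₁ (x (dl 1)) (y (dl 1) - trn F₂ (y (dl 1))))
    have n4 := pow_le_pow_left₀ (norm_nonneg _) n3 2
    refine n4.trans ?_
    nlinarith [sq_nonneg (‖((x - cmb F₁ (x (dl 1))) * y) (dl 1)‖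
      - ‖cmb F₁ (x (dl 1)) (y (dl 1) - trn F₂ (y (dl 1)))‖)]

end

end Pool.Agent.H257.BG.PRD
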