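import Pool.Agent.H257.BG.Stm5

set_option autoImplicit false

namespace Pool.Agent.H257.BG.PSL

open Matrix

/-- the elementary matrix `1 + k E_ij` -/
def T {n : ℕ} (i j : Fin n) (hij : i ≠ j) (k : ℤ) : SpecialLinearGroup (Fin n) ℤ :=
  ⟨transvection i j k, det_transvection_of_ne i j hij k⟩

theorem T_add {n : ℕ} {i j : Fin n} (hij : i ≠ j) (k l : ℤ) :
    T i j hij (k + l) = T i j hij k * T i j hij l := by
  apply Subtype.ext
  exact (transvection_mul_transvection_same i j hij k l).symm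

/-- central elements are involutions -/
theorem center_sq {n : ℕ} (hn : 3 ≤ n) (z : SpecialLinearGroup (Fin n) ℤ)
    (hz : z ∈ Subgroup.center (SpecialLinearGroup (Fin n) ℤ)) : z * z = 1 := by
  obtain ⟨r, hr, hz2⟩ := Matrix.SpecialLinearGroup.mem_center_iff.1 hz
  rw [Fintype.card_fin] at hr
  have hu : IsUnit r := IsUnit.of_pow_eq_one hr (by omega)
  have hrr : r * r = 1 := by
    rcases Int.isUnit_iff.1 hu with h | h <;> rw [h] <;> norm_num
  apply Subtype.ext
  have h1 : (z * z).1 = z.1 * z.1 := rfl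
  have h2 : z.1 = scalar (Fin n) r := hz2.symm
  rw [h1, h2, ← map_mul, hrr, map_one]
  rfl

theorem comm_of_finite {n : ℕ} (hn : 3 ≤ n) (g : SpecialLinearGroup (Fin n) ℤ)
    (hfin : {x | ∃ k : SpecialLinearGroup (Fin n) ℤ ⧸
      Subgroup.center (SpecialLinearGroup (Fin n) ℤ),
        k * (QuotientGroup.mk g) * k⁻¹ = x}.Finite) {i j : Fin n} (hij : i ≠ j) :
    ∃ m : ℤ, m ≠ 0 ∧ T i j hij m * g = g * T i j hij m := by
  have := hfin.to_subtype
  obtain ⟨a, b, hab, h⟩ := Finite.exists_ne_map_eq_of_infinite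
    (fun k : ℤ => (⟨QuotientGroup.mk (T i j hij k) * QuotientGroup.mk g *
      (QuotientGroup.mk (T i j hij k))⁻¹, QuotientGroup.mk (T i j hij k), rfl⟩ :
      {x | ∃ k : SpecialLinearGroup (Fin n) ℤ ⧸
        Subgroup.center (SpecialLinearGroup (Fin n) ℤ), k * (QuotientGroup.mk g) * k⁻¹ = x}))
  have h1 : (QuotientGroup.mk (T i j hij a) : SpecialLinearGroup (Fin n) ℤ ⧸
      Subgroup.center (SpecialLinearGroup (Fin n) ℤ)) * QuotientGroup.mk g *
        (QuotientGroup.mk (T i j hij a))⁻¹ =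
      QuotientGroup.mk (T i j hij b) * QuotientGroup.mk g * (QuotientGroup.mk (T i j hij b))⁻¹ :=
    congrArg Subtype.val h
  obtain ⟨m, hm⟩ : ∃ m, m = a - b := ⟨_, rfl⟩
  have hm0 : m ≠ 0 := by
    rw [hm]
    exact sub_ne_zero.2 hab
  have h2 : T i j hij a = T i j hij b * T i j hij m := by
    rw [← T_add, hm]
    congr 1
    ring
  rw [h2, QuotientGroup.mk_mul] at h1
  have h3 : (QuotientGroup.mk (T i j hij b) : SpecialLinearGroup (Fin n) ℤ ⧸
      Subgroup.center (SpecialLinearGroup (Fin n) ℤ)) * (QuotientGroup.mk (T i j hij m) *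
        QuotientGroup.mk g * (QuotientGroup.mk (T i j hij m))⁻¹) *
        (QuotientGroup.mk (T i j hij b))⁻¹ =
      QuotientGroup.mk (T i j hij b) * QuotientGroup.mk g * (QuotientGroup.mk (T i j hij b))⁻¹ := by
    rw [← h1]
    group
  have h4 := mul_left_cancel (mul_right_cancel h3)
  have h5 : (QuotientGroup.mk (T i j hij m * g * (T i j hij m)⁻¹) :
      SpecialLinearGroup (Fin n) ℤ ⧸ Subgroup.center (SpecialLinearGroup (Fin n) ℤ)) =
      QuotientGroup.mk g := by
    rw [QuotientGroup.mk_mul, QuotientGroup.mk_mul, QuotientGroup.mk_inv]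
    exact h4
  obtain ⟨u, hu⟩ : ∃ u, u = T i j hij m := ⟨_, rfl⟩
  rw [← hu] at h5
  obtain ⟨z, hz⟩ : ∃ z, z = g⁻¹ * (u * g * u⁻¹) := ⟨_, rfl⟩
  have hzc : z ∈ Subgroup.center (SpecialLinearGroup (Fin n) ℤ) := by
    rw [hz]
    exact QuotientGroup.eq.1 h5.symm
  have hzz := center_sq hn z hzc
  have h6 : u * g * u⁻¹ = g * z := by
    rw [hz]
    group
  have h7 : ∀ x : SpecialLinearGroup (Fin n) ℤ, x * z = z * x := fun x =>
    (Subgroup.mem_center_iff.1 hzc x)
  refine ⟨m + m, by omega, ?_⟩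
  rw [T_add, ← hu]
  have h8 : u * g = g * z * u := by
    rw [← h6]
    group
  calc u * u * g = u * (u * g) := mul_assoc _ _ _
    _ = u * (g * z * u) := by rw [h8]
    _ = u * g * z * u := by group
    _ = g * z * u * z * u := by rw [h8]
    _ = g * z * (u * z) * u := by group
    _ = g * z * (z * u) * u := by rw [h7 u]
    _ = g * (z * z) * u * u := by group
    _ = g * (u * u) := by rw [hzz, mul_one, mul_assoc]

theorem entries {n : ℕ} (g : SpecialLinearGroup (Fin n) ℤ) {i j : Fin n} (hij : i ≠ j) {m : ℤ}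
    (hm : m ≠ 0) (h : T i j hij m * g = g * T i j hij m) :
    (∀ a, a ≠ i → g.1 a i = 0) ∧ g.1 i i = g.1 j j := by
  have h1 : transvection i j m * g.1 = g.1 * transvection i j m := congrArg Subtype.val h
  unfold transvection at h1
  rw [add_mul, mul_add, one_mul, mul_one] at h1
  have h2 : single i j m * g.1 = g.1 * single i j m := add_left_cancel h1
  constructor
  · intro a ha
    have h3 := congrFun (congrFun h2 a) j
    rw [Matrix.single_mul_apply_of_ne _ _ _ _ _ ha, Matrix.mul_single_apply_same] at h3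
    exact (mul_eq_zero.1 h3.symm).resolve_right hm
  · have h3 := congrFun (congrFun h2 i) j
    rw [Matrix.single_mul_apply_same, Matrix.mul_single_apply_same, mul_comm] at h3
    exact (mul_right_cancel₀ hm h3).symm

theorem main : S_PSL := by
  intro n hn gb hgb
  obtain ⟨g, rfl⟩ := QuotientGroup.mk_surjective gb
  by_contra hinf
  rw [Set.not_infinite] at hinf
  apply hgb
  have hex : ∀ i : Fin n, ∃ j, i ≠ j := by
    intro i
    by_cases h : (i : ℕ) = 0
    · exact ⟨⟨1, by omega⟩, fun h2 => by rw [h2] at h; exact one_ne_zero h⟩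
    · exact ⟨⟨0, by omega⟩, fun h2 => h (by rw [h2])⟩
  have hoff : ∀ a i : Fin n, a ≠ i → g.1 a i = 0 := by
    intro a i hai
    obtain ⟨j, hj⟩ := hex i
    obtain ⟨m, hm, h⟩ := comm_of_finite hn g hinf hj
    exact (entries g hj hm h).1 a hai
  have hdiag : ∀ i j : Fin n, g.1 i i = g.1 j j := by
    intro i j
    by_cases hij : i = j
    · rw [hij]
    · obtain ⟨m, hm, h⟩ := comm_of_finite hn g hinf hij
      exact (entries g hij hm h).2
  obtain ⟨c, hc⟩ : ∃ c, c = g.1 ⟨0, by omega⟩ ⟨0, by omega⟩ := ⟨_, rfl⟩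
  have hgc : g.1 = diagonal fun _ => c := by
    ext a b
    by_cases hab : a = b
    · subst hab
      rw [diagonal_apply_eq, hc]
      exact hdiag _ _
    · rw [diagonal_apply_ne _ hab]
      exact hoff a b hab
  have hdet : c ^ n = 1 := by
    have h1 := g.2
    rw [hgc, det_diagonal, Finset.prod_const, Finset.card_univ, Fintype.card_fin] at h1
    exact h1
  refine (QuotientGroup.eq_one_iff g).2 ?_
  refine Matrix.SpecialLinearGroup.mem_center_iff.2 ⟨c, ?_, ?_⟩
  · rw [Fintype.card_fin]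
    exact hdet
  · exact hgc.symm

end Pool.Agent.H257.BG.PSL
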