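import Pool.Agent.H257.BG.Stm3

/-!
# Project BG, leaf PWR: the power lemma of Carter and Keller (helper81 for helper257)
-/

set_option autoImplicit false

namespace Pool.Agent.H257.BG.PWR

open Matrix

/-- Cayley-Hamilton: `A ^ m = f + g A`, `f + g a = a ^ m` modulo `b`, and the determinant -/
theorem pow_form (a b c d : ℤ) (hdet : a * d - b * c = 1) (m : ℕ) : ∃ f g : ℤ,
    !![a, b; c, d] ^ m = !![f + g * a, g * b; g * c, f + g * d] ∧
    b ∣ (f + g * a) - a ^ m ∧ f ^ 2 + f * g * (a + d) + g ^ 2 = 1 := by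
  induction m with
  | zero =>
    refine ⟨1, 0, ?_, ?_, by ring⟩
    · rw [pow_zero]
      ext i j
      fin_cases i <;> fin_cases j <;> simp
    · simp
  | succ m ih =>
    obtain ⟨f, g, h1, ⟨t, ht⟩, h3⟩ := ih
    refine ⟨-g, f + g * (a + d), ?_, ⟨a * t + g * c, ?_⟩, ?_⟩
    · rw [pow_succ, h1]
      ext i j
      fin_cases i <;> fin_cases j
      · simp [Matrix.mul_apply, Fin.sum_univ_two]
        linear_combination (-g) * hdet
      · simp [Matrix.mul_apply, Fin.sum_univ_two]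
        ring
      · simp [Matrix.mul_apply, Fin.sum_univ_two]
        ring
      · simp [Matrix.mul_apply, Fin.sum_univ_two]
        linear_combination (-g) * hdet
    · linear_combination a * ht + g * hdet
    · linear_combination h3

theorem main (h1 : S_MEN) (h2 : S_ROW) : S_PWR := by
  obtain ⟨Km, hm⟩ := h1
  obtain ⟨Ko, ho⟩ := h2.one
  refine ⟨Ko + 2 * Km + 5, ?_⟩
  intro k m a b c d c' d' hdet hdet' hL
  obtain ⟨f, g, hpow, ⟨t3, ht3⟩, hfg⟩ := pow_form a b c d hdet m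
  have hdvd : g ∣ (f - 1) * (f + 1) := ⟨-(f * (a + d) + g), by linear_combination hfg⟩
  obtain ⟨g1, g2, ⟨p1, hp1⟩, ⟨p2, hp2⟩, hg⟩ := exists_dvd_and_dvd_of_dvd_mul hdvd
  obtain ⟨x, hx⟩ : ∃ x : ℤ, x = f + g * a := ⟨_, rfl⟩
  -- the first row `(x, g1)`
  obtain ⟨t1, ht1⟩ : ∃ t1 : ℤ, x = 1 + g1 * t1 :=
    ⟨p1 + g2 * a, by rw [hx, hg]; linear_combination hp1⟩
  obtain ⟨t2, ht2⟩ : ∃ t2 : ℤ, x = -1 + g2 * t2 :=
    ⟨p2 + g1 * a, by rw [hx, hg]; linear_combination hp2⟩
  have ht3' : x = a ^ m + b * t3 := by rw [hx]; linear_combination ht3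
  have hM1 : L 2 !![x, g1; t1, 1] := by
    have h := h2.mul 1 1 _ _ (h2.up g1) (h2.low t1)
    have e : !![1, g1; 0, 1] * !![1, 0; t1, 1] = !![x, g1; t1, (1 : ℤ)] := by
      rw [ht1]
      ext i j
      fin_cases i <;> fin_cases j <;> simp [Matrix.mul_apply, Fin.sum_univ_two]
    rw [e] at h
    exact h
  have hM2 : L (Ko + 1) !![x, g2; -t2, -1] := by
    have h := h2.mul Ko 1 _ _ (ho (-1) g2 0 (-1) (Or.inr rfl) (by ring)) (h2.low t2)
    have e : !![-1, g2; 0, -1] * !![1, 0; t2, 1] = !![x, g2; -t2, (-1 : ℤ)] := by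
      rw [ht2]
      ext i j
      fin_cases i <;> fin_cases j <;> simp [Matrix.mul_apply, Fin.sum_univ_two]
    rw [e] at h
    exact h
  have hM3 : L (k + 1) !![x, b; c' + d' * t3, d'] := by
    have h := h2.mul k 1 _ _ hL (h2.low t3)
    have e : !![a ^ m, b; c', d'] * !![1, 0; t3, 1] = !![x, b; c' + d' * t3, d'] := by
      rw [ht3']
      ext i j
      fin_cases i <;> fin_cases j <;> simp [Matrix.mul_apply, Fin.sum_univ_two]
    rw [e] at h
    exact h
  have d1 : x * 1 - g1 * t1 = 1 := by linear_combination ht1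
  have d2 : x * (-1) - g2 * (-t2) = 1 := by linear_combination (-1) * ht2
  have d3 : x * d' - b * (c' + d' * t3) = 1 := by
    linear_combination d' * ht3' + hdet'
  have hM12 := hm _ _ x g1 g2 t1 1 (-t2) (-1) d1 d2 hM1 hM2
  have d12 : x * (-1 - (-t2) * 1 * g2) - (g1 * g2) * (-((-t2) * t1)) = 1 := by
    linear_combination d2 + (t2 * g2) * d1
  have hM123 := hm _ _ x (g1 * g2) b (-((-t2) * t1)) (-1 - (-t2) * 1 * g2) (c' + d' * t3) d'
    d12 d3 hM12 hM3
  have d123 : x * (d' - (c' + d' * t3) * (-1 - (-t2) * 1 * g2) * b) -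
      (g1 * g2 * b) * (-((c' + d' * t3) * (-((-t2) * t1)))) = 1 := by
    linear_combination d3 - ((c' + d' * t3) * b) * d12
  have dA : x * (f + g * d) - (g1 * g2 * b) * (g * c) = 1 := by
    rw [← hg, hx]
    linear_combination hfg + g ^ 2 * hdet
  have hfin := h2.row _ x (g1 * g2 * b) _ _ (g * c) (f + g * d) d123 dA hM123
  have hA : !![a, b; c, d] ^ m = !![x, g1 * g2 * b; g * c, f + g * d] := by
    rw [hpow, hx, ← hg]
  rw [hA]
  exact h2.mono _ _ _ (by omega) hfin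

end Pool.Agent.H257.BG.PWR
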