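import Pool.Agent.H257.BG.Conj

/-!
# Project BG: one power suffices
-/

set_option autoImplicit false

namespace Pool.Agent.H257.BG

open Pool.Agent.H494R3.GT Pool.Agent.N557.QW
open Pool.Agent.N414.LR (Op IsIcc)
open Pool.Agent.H257.TW
open Filter

noncomputable section

theorem ua_union {Λ : Type} [Group Λ] {X Y : Set (Op Λ)} (hX : UA X) (hY : UA Y) :
    UA (X ∪ Y) := by
  intro η hη
  obtain ⟨m₁, h₁⟩ := hX η hη
  obtain ⟨m₂, h₂⟩ := hY η hη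
  refine ⟨max m₁ m₂, fun x hx => ?_⟩
  rcases hx with hx | hx
  · obtain ⟨F, hF, h⟩ := h₁ x hx
    exact ⟨F, hF.trans (le_max_left _ _), h⟩
  · obtain ⟨F, hF, h⟩ := h₂ x hx
    exact ⟨F, hF.trans (le_max_right _ _), h⟩

theorem ua_fin (hSNG : S_SNG) (Λ : Type) [Group Λ] (f : ℕ → Op Λ)
    (hf : ∀ i, f i ∈ LG Λ ∧ f i ∈ unitary (Op Λ)) (n : ℕ) : UA {x : Op Λ | ∃ i < n, x = f i} := by
  induction n with
  | zero =>
    intro η hη
    refine ⟨0, fun x hx => ?_⟩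
    obtain ⟨i, hi, _⟩ := hx
    omega
  | succ n ih =>
    refine (ua_union ih ((hSNG Λ).1 (f n) (hf n).1 (hf n).2)).mono ?_
    rintro x ⟨i, hi, rfl⟩
    rcases Nat.lt_succ_iff_lt_or_eq.1 hi with h | h
    · exact Or.inl ⟨i, h, rfl⟩
    · right
      rw [h]
      rfl

/-- if the images of the powers of `a ^ k` are uniformly close to combinations of few group
elements, so are those of the powers of `a` -/
theorem ua_root (hPRD : S_PRD) (hSNG : S_SNG) (Γ Λ : Type) [Group Γ] [Group Λ]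
    (v : Γ →* unitary (Op Λ)) (hv : ∀ g, (v g : Op Λ) ∈ LG Λ) (a : Γ) (k : ℕ) (hk : 0 < k)
    (h : UA {x : Op Λ | ∃ b ∈ {y : Γ | ∃ j : ℤ, y = (a ^ k) ^ j}, x = v b}) :
    UA {x : Op Λ | ∃ b ∈ {y : Γ | ∃ j : ℤ, y = a ^ j}, x = v b} := by
  have h1 := hPRD Λ {x : Op Λ | ∃ i < k, x = (v (a ^ i) : Op Λ)} _ (by
    rintro x ⟨i, _, rfl⟩
    exact ⟨hv _, (v _).2⟩) (by
    rintro x ⟨b, _, rfl⟩
    exact ⟨hv _, (v _).2⟩) (ua_fin hSNG Λ (fun i => (v (a ^ i) : Op Λ))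
      (fun i => ⟨hv _, (v _).2⟩) k) h
  refine h1.mono ?_
  rintro x ⟨b, ⟨j, rfl⟩, rfl⟩
  have hk' : (0 : ℤ) < k := by exact_mod_cast hk
  have e1 : a ^ j = a ^ (j % k).toNat * (a ^ k) ^ (j / k) := by
    rw [← zpow_natCast a k, ← zpow_mul, ← zpow_natCast a (j % k).toNat,
      Int.toNat_of_nonneg (Int.emod_nonneg _ hk'.ne'), ← zpow_add, Int.emod_add_mul_ediv]
  refine ⟨_, ⟨(j % k).toNat, ?_, rfl⟩, _, ⟨(a ^ k) ^ (j / k), ⟨_, rfl⟩, rfl⟩, ?_⟩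
  · have := Int.emod_lt_of_pos j hk'
    have := Int.emod_nonneg j hk'.ne'
    omega
  · rw [e1, map_mul]
    rfl

end

end Pool.Agent.H257.BG
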