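import Pool.Agent.H257.BG.Stm3

/-!
# Elementary facts on lengths in `SL_3(ℤ)`
-/

set_option autoImplicit false

namespace Pool.Agent.H257.BG.ROW

open Matrix

theorem mul' (i j : ℕ) (A B : Matrix (Fin 2) (Fin 2) ℤ) (hA : L i A) (hB : L j B) :
    L (i + j) (A * B) := by
  obtain ⟨l, hl, hl', hl''⟩ := hA
  obtain ⟨m, hm, hm', hm''⟩ := hB
  refine ⟨l ++ m, ?_, ?_, ?_⟩
  · rw [List.length_append]
    omega
  · intro y hy
    rcases List.mem_append.1 hy with h | h
    · exact hl' y h
    · exact hm' y h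
  · rw [List.prod_append, hl'', hm'']
    simp only [Matrix.mul_apply, Fin.sum_univ_two]
    ext a b
    fin_cases a <;> fin_cases b <;> simp [Matrix.mul_apply, Fin.sum_univ_three]

theorem mono' (i j : ℕ) (A : Matrix (Fin 2) (Fin 2) ℤ) (h : i ≤ j) (hA : L i A) : L j A := by
  obtain ⟨l, hl, hl', hl''⟩ := hA
  exact ⟨l, hl.trans h, hl', hl''⟩

theorem inv_list (l : List (Matrix (Fin 3) (Fin 3) ℤ))
    (hl : ∀ y ∈ l, ∃ i j : Fin 3, i ≠ j ∧ ∃ t : ℤ, y = transvection i j t) :
    ∃ l' : List (Matrix (Fin 3) (Fin 3) ℤ), l'.length = l.length ∧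
      (∀ y ∈ l', ∃ i j : Fin 3, i ≠ j ∧ ∃ t : ℤ, y = transvection i j t) ∧
      l'.prod * l.prod = 1 := by
  induction l with
  | nil => exact ⟨[], rfl, fun y hy => absurd hy (List.not_mem_nil), by simp⟩
  | cons y t ih =>
    obtain ⟨t', ht, ht', ht''⟩ := ih fun z hz => hl z (List.mem_cons_of_mem _ hz)
    obtain ⟨i, j, hij, c, hc⟩ := hl y List.mem_cons_self
    refine ⟨t' ++ [transvection i j (-c)], ?_, ?_, ?_⟩
    · rw [List.length_append, ht]
      rfl
    · intro z hz
      rcases List.mem_append.1 hz with h | h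
      · exact ht' z h
      · exact ⟨i, j, hij, -c, List.mem_singleton.1 h⟩
    · rw [List.prod_append, List.prod_singleton, List.prod_cons, hc]
      have h1 : transvection i j (-c) * transvection i j c = 1 := by
        rw [Matrix.transvection_mul_transvection_same _ _ hij, neg_add_cancel,
          Matrix.transvection_zero]
      calc t'.prod * transvection i j (-c) * (transvection i j c * t.prod)
          = t'.prod * (transvection i j (-c) * transvection i j c) * t.prod := by
            simp only [mul_assoc]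
        _ = 1 := by rw [h1, mul_one, ht'']

theorem inv' (i : ℕ) (a b c d : ℤ) (h : a * d - b * c = 1) (hL : L i !![a, b; c, d]) :
    L i !![d, -b; -c, a] := by
  obtain ⟨l, hl, hl', hl''⟩ := hL
  obtain ⟨l', h1, h2, h3⟩ := inv_list l hl'
  refine ⟨l', by rw [h1]; exact hl, h2, ?_⟩
  rw [hl''] at h3
  have h4 : (!![(!![a, b; c, d] : Matrix (Fin 2) (Fin 2) ℤ) 0 0,
      (!![a, b; c, d] : Matrix (Fin 2) (Fin 2) ℤ) 0 1, 0;
      (!![a, b; c, d] : Matrix (Fin 2) (Fin 2) ℤ) 1 0,
      (!![a, b; c, d] : Matrix (Fin 2) (Fin 2) ℤ) 1 1, 0; 0, 0, 1] :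
      Matrix (Fin 3) (Fin 3) ℤ) * !![d, -b, 0; -c, a, 0; 0, 0, 1] = 1 := by
    ext x y
    fin_cases x <;> fin_cases y <;> simp [Matrix.mul_apply, Fin.sum_univ_three] <;>
      linarith
  have h5 : l'.prod = !![d, -b, 0; -c, a, 0; 0, 0, 1] := by
    calc l'.prod = l'.prod * 1 := (mul_one _).symm
      _ = !![d, -b, 0; -c, a, 0; 0, 0, 1] := by rw [← h4, ← mul_assoc, h3, one_mul]
  rw [h5]
  ext x y
  fin_cases x <;> fin_cases y <;> simp

theorem trn' (i : ℕ) (A : Matrix (Fin 2) (Fin 2) ℤ) (hL : L i A) : L i Aᵀ := by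
  obtain ⟨l, hl, hl', hl''⟩ := hL
  refine ⟨(l.map Matrix.transpose).reverse, ?_, ?_, ?_⟩
  · rw [List.length_reverse, List.length_map]
    exact hl
  · intro y hy
    rw [List.mem_reverse, List.mem_map] at hy
    obtain ⟨z, hz, rfl⟩ := hy
    obtain ⟨i, j, hij, c, hc⟩ := hl' z hz
    refine ⟨j, i, hij.symm, c, ?_⟩
    rw [hc, Matrix.transvection, Matrix.transvection, Matrix.transpose_add,
      Matrix.transpose_one, Matrix.transpose_single]
  · rw [← Matrix.transpose_list_prod, hl'']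
    ext x y
    fin_cases x <;> fin_cases y <;> simp

theorem up' (t : ℤ) : L 1 !![1, t; 0, 1] := by
  refine ⟨[transvection 0 1 t], le_rfl, ?_, ?_⟩
  · intro y hy
    exact ⟨0, 1, by decide, t, List.mem_singleton.1 hy⟩
  · rw [List.prod_singleton]
    ext x y
    fin_cases x <;> fin_cases y <;> simp [Matrix.transvection, Matrix.single]

theorem low' (t : ℤ) : L 1 !![1, 0; t, 1] := by
  refine ⟨[transvection 1 0 t], le_rfl, ?_, ?_⟩
  · intro y hy
    exact ⟨1, 0, by decide, t, List.mem_singleton.1 hy⟩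
  · rw [List.prod_singleton]
    ext x y
    fin_cases x <;> fin_cases y <;> simp [Matrix.transvection, Matrix.single]

theorem row' (i : ℕ) (a b c d c' d' : ℤ) (h : a * d - b * c = 1) (h' : a * d' - b * c' = 1)
    (hL : L i !![a, b; c, d]) : L (i + 1) !![a, b; c', d'] := by
  have h1 := mul' 1 i _ _ (low' (c' * d - c * d')) hL
  have h2 : (!![1, 0; c' * d - c * d', 1] * !![a, b; c, d] : Matrix (Fin 2) (Fin 2) ℤ) =
      !![a, b; c', d'] := by
    rw [Matrix.mul_fin_two]
    have e1 : (c' * d - c * d') * a + 1 * c = c' := by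
      linear_combination c' * h - c * h'
    have e2 : (c' * d - c * d') * b + 1 * d = d' := by
      linear_combination d' * h - d * h'
    rw [e1, e2, one_mul, one_mul, zero_mul, zero_mul, add_zero, add_zero]
  rw [h2, add_comm] at h1
  exact h1

theorem one_pos (b c d : ℤ) (h : 1 * d - b * c = 1) : L 2 !![1, b; c, d] := by
  have h1 := mul' 1 1 _ _ (low' c) (up' b)
  have h2 : (!![1, 0; c, 1] * !![1, b; 0, 1] : Matrix (Fin 2) (Fin 2) ℤ) = !![1, b; c, d] := by
    rw [Matrix.mul_fin_two]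
    have e1 : c * b + 1 * 1 = d := by linarith
    rw [e1]
    simp
  rw [h2] at h1
  exact h1

theorem neg_one' : L 6 !![-1, 0; 0, -1] := by
  have h1 := mul' 1 1 _ _ (up' 1) (low' (-1))
  have h2 := mul' _ _ _ _ h1 (up' 1)
  have h3 := mul' _ _ _ _ h2 h2
  have h4 : (!![1, 1; 0, 1] * !![1, 0; -1, 1] * !![1, 1; 0, 1] *
      (!![1, 1; 0, 1] * !![1, 0; -1, 1] * !![1, 1; 0, 1]) : Matrix (Fin 2) (Fin 2) ℤ) =
      !![-1, 0; 0, -1] := by
    simp
  rw [h4] at h3
  exact h3

theorem one_neg (b c d : ℤ) (h : -1 * d - b * c = 1) : L 8 !![-1, b; c, d] := by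
  have h1 := mul' 6 2 _ _ neg_one' (one_pos (-b) (-c) (-d) (by linarith))
  have h2 : (!![-1, 0; 0, -1] * !![1, -b; -c, -d] : Matrix (Fin 2) (Fin 2) ℤ) =
      !![-1, b; c, d] := by
    rw [Matrix.mul_fin_two]
    simp
  rw [h2] at h1
  exact h1

theorem main : S_ROW where
  mul := mul'
  mono := mono'
  inv := inv'
  trn := trn'
  up := up'
  low := low'
  row := row'
  one := by
    refine ⟨8, fun a b c d ha h => ?_⟩
    rcases ha with rfl | rfl
    · exact mono' 2 8 _ (by norm_num) (one_pos b c d h)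
    · exact one_neg b c d h

end Pool.Agent.H257.BG.ROW
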