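import Pool.Agent.H257.BG.Stm

/-!
# Project BG, leaf SNG (helper878, for helper257)
-/

set_option autoImplicit false

namespace Pool.Agent.H257.BG.SNG

open Pool.Agent.H494R3.GT Pool.Agent.N557.QW Pool.Agent.H257.BG
open Pool.Agent.N414.LR (Op IsIcc)
open Filter

noncomputable section

lemma cf_hasSum {Λ : Type} [Group Λ] (x : Op Λ) :
    HasSum (fun h => ‖cf x h‖ ^ 2) (‖x (dl 1)‖ ^ 2) := by
  have h1 := lp.hasSum_norm (p := 2) (by norm_num) (x (dl 1))
  rw [ENNReal.toReal_ofNat, Real.rpow_two] at h1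
  have h2 : (fun h => ‖cf x h‖ ^ 2) = fun h => ‖(x (dl 1)) h‖ ^ (2 : ℝ) := by
    funext h
    rw [cf, inner_dl, Real.rpow_two]
  rw [h2]
  exact h1

lemma dl_norm {Λ : Type} [Group Λ] : ‖(dl 1 : L2 Λ)‖ = 1 := by
  have h1 : inner ℂ (dl 1 : L2 Λ) (dl 1) = 1 := by
    rw [inner_dl, dl_apply_self]
  have h2 : ‖(dl 1 : L2 Λ)‖ ^ 2 = 1 := by
    rw [← inner_self_eq_norm_sq (𝕜 := ℂ), h1, RCLike.one_re]
  exact (pow_eq_one_iff_of_nonneg (norm_nonneg _) two_ne_zero).1 h2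

theorem main : S_SNG := by
  intro Λ _
  constructor
  · intro x _ hx η hη
    have h1 := cf_hasSum x
    rw [ContinuousLinearMap.norm_map_of_mem_unitary hx, dl_norm, one_pow] at h1
    have h2 : ∀ᶠ F : Finset Λ in atTop, 1 - η < ∑ h ∈ F, ‖cf x h‖ ^ 2 :=
      h1.eventually (lt_mem_nhds (by linarith))
    obtain ⟨F, hF⟩ := h2.exists
    refine ⟨F.card, fun y hy => ⟨F, le_rfl, ?_⟩⟩
    rw [Set.mem_singleton_iff] at hy
    rw [hy]
    linarith
  · intro η hη
    refine ⟨1, ?_⟩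
    rintro x ⟨c, h, hc, rfl⟩
    refine ⟨{h}, by simp, ?_⟩
    have h1 : cf (c • lam h) h = c := by
      rw [cf]
      change inner ℂ (dl h) (c • lam h (dl 1)) = c
      rw [lam_dl, mul_one, inner_smul_right, inner_dl, dl_apply_self, mul_one]
    rw [Finset.sum_singleton, h1, hc]
    linarith

end

end Pool.Agent.H257.BG.SNG
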