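import Pool.Agent.H257.BG.Main
import Pool.Agent.H257.BG.PRD
import Pool.Agent.H257.BG.INV
import Pool.Agent.H257.BG.SNG
import Pool.Agent.H257.BG.LOW
import Pool.Agent.H257.BG.Conj
import Pool.Agent.H257.BG.ICN
import Pool.Agent.H257.BG.BGN
import Pool.Agent.H257.BG.MEN
import Pool.Agent.H257.BG.ROW
import Pool.Agent.H257.BG.PWR
import Pool.Agent.H257.BG.DIR
import Pool.Agent.H257.BG.CMBb
import Pool.Agent.H257.BG.FCN
import Pool.Agent.H257.BG.PSL
import Pool.Agent.H257.BG.Pow

/-!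
# Project BG: all parts
-/
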