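import Pool.Agent.H257.BG.Stm2

/-!
# `SL_3(ℤ)` is boundedly generated by conjugates of `SL_2(ℤ)`
-/

set_option autoImplicit false

namespace Pool.Agent.H257.BG.BG3

open Matrix Pool.Agent.H257.BG
open scoped Pointwise

section general

variable {G : Type} [Group G] {A : Set G}

/-- `P` is contained in a product of finitely many conjugates of `A` -/
def PG (A : Set G) (P : Set G) : Prop :=
  ∃ (N : ℕ) (g : Fin N → G), ∀ x ∈ P, ∃ a : Fin N → G, (∀ i, a i ∈ A) ∧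
    x = (List.ofFn fun i => g i * a i * (g i)⁻¹).prod

theorem PG.mul {P Q : Set G} (hP : PG A P) (hQ : PG A Q) : PG A (P * Q) := by
  obtain ⟨N, g, hg⟩ := hP
  obtain ⟨M, h, hh⟩ := hQ
  refine ⟨N + M, Fin.append g h, ?_⟩
  rintro _ ⟨x, hx, y, hy, rfl⟩
  obtain ⟨a, ha, hxa⟩ := hg x hx
  obtain ⟨b, hb, hyb⟩ := hh y hy
  refine ⟨Fin.append a b, fun i => ?_, ?_⟩
  · refine Fin.addCases (fun i => ?_) (fun i => ?_) i
    · rw [Fin.append_left]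
      exact ha i
    · rw [Fin.append_right]
      exact hb i
  · have e : (fun i => Fin.append g h i * Fin.append a b i * (Fin.append g h i)⁻¹) =
        Fin.append (fun i => g i * a i * (g i)⁻¹) (fun i => h i * b i * (h i)⁻¹) := by
      funext i
      refine Fin.addCases (fun i => ?_) (fun i => ?_) i
      · simp only [Fin.append_left]
      · simp only [Fin.append_right]
    rw [e, List.ofFn_fin_append, List.prod_append, ← hxa, ← hyb]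

theorem pg_conj (s : G) {P : Set G} (hP : ∀ x ∈ P, s⁻¹ * x * s ∈ A) : PG A P := by
  refine ⟨1, fun _ => s, fun x hx => ⟨fun _ => s⁻¹ * x * s, fun _ => hP x hx, ?_⟩⟩
  simp [mul_assoc]

end general

/-- `SL_3(ℤ)` -/
abbrev S3 := SpecialLinearGroup (Fin 3) ℤ

/-- elementary matrices -/
def E01 (k : ℤ) : S3 := ⟨!![1, k, 0; 0, 1, 0; 0, 0, 1], by simp [det_fin_three]⟩
/-- elementary matrices -/
def E10 (k : ℤ) : S3 := ⟨!![1, 0, 0; k, 1, 0; 0, 0, 1], by simp [det_fin_three]⟩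
/-- elementary matrices -/
def E02 (k : ℤ) : S3 := ⟨!![1, 0, k; 0, 1, 0; 0, 0, 1], by simp [det_fin_three]⟩
/-- elementary matrices -/
def E20 (k : ℤ) : S3 := ⟨!![1, 0, 0; 0, 1, 0; k, 0, 1], by simp [det_fin_three]⟩
/-- elementary matrices -/
def E12 (k : ℤ) : S3 := ⟨!![1, 0, 0; 0, 1, k; 0, 0, 1], by simp [det_fin_three]⟩
/-- elementary matrices -/
def E21 (k : ℤ) : S3 := ⟨!![1, 0, 0; 0, 1, 0; 0, k, 1], by simp [det_fin_three]⟩
/-- a permutation matrix with a sign -/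
def sm : S3 := ⟨!![1, 0, 0; 0, 0, -1; 0, 1, 0], by simp [det_fin_three]⟩
/-- a permutation matrix -/
def rm : S3 := ⟨!![0, 0, 1; 1, 0, 0; 0, 1, 0], by simp [det_fin_three]⟩

theorem inv10 (k : ℤ) : (E10 k)⁻¹ = E10 (-k) := by
  apply inv_eq_of_mul_eq_one_right
  ext i j
  fin_cases i <;> fin_cases j <;> simp [E10, Matrix.mul_apply, Fin.sum_univ_three]

theorem inv01 (k : ℤ) : (E01 k)⁻¹ = E01 (-k) := by
  apply inv_eq_of_mul_eq_one_right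
  ext i j
  fin_cases i <;> fin_cases j <;> simp [E01, Matrix.mul_apply, Fin.sum_univ_three]

theorem c02 (k : ℤ) : E02 k * sm = sm * E01 k := by
  ext i j
  fin_cases i <;> fin_cases j <;> simp [E02, E01, sm, Matrix.mul_apply, Fin.sum_univ_three]

theorem c20 (k : ℤ) : E20 k * sm = sm * E10 k := by
  ext i j
  fin_cases i <;> fin_cases j <;> simp [E20, E10, sm, Matrix.mul_apply, Fin.sum_univ_three]

theorem c12 (k : ℤ) : E12 k * rm = rm * E01 k := by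
  ext i j
  fin_cases i <;> fin_cases j <;> simp [E12, E01, rm, Matrix.mul_apply, Fin.sum_univ_three]

theorem c21 (k : ℤ) : E21 k * rm = rm * E10 k := by
  ext i j
  fin_cases i <;> fin_cases j <;> simp [E21, E10, rm, Matrix.mul_apply, Fin.sum_univ_three]

theorem blk01 (k : ℤ) : E01 k ∈ Blk 3 := by
  intro i j hij
  fin_cases i <;> fin_cases j <;> simp_all [E01]

theorem blk10 (k : ℤ) : E10 k ∈ Blk 3 := by
  intro i j hij
  fin_cases i <;> fin_cases j <;> simp_all [E10]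

theorem pg_aux (s : S3) (F E : ℤ → S3) (hc : ∀ k, F k * s = s * E k)
    (hE : ∀ k, (E k)⁻¹ ∈ Blk 3) : PG (Blk 3) {x | ∃ k, x = (F k)⁻¹} := by
  refine pg_conj s ?_
  rintro _ ⟨k, rfl⟩
  have h1 : s⁻¹ * (F k)⁻¹ * s = (E k)⁻¹ := by
    have h2 : F k = s * E k * s⁻¹ := by rw [← hc k]; group
    rw [h2]
    group
  rw [h1]
  exact hE k

theorem hb01 (k : ℤ) : (E01 k)⁻¹ ∈ Blk 3 := by rw [inv01]; exact blk01 _

theorem hb10 (k : ℤ) : (E10 k)⁻¹ ∈ Blk 3 := by rw [inv10]; exact blk10 _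

theorem pg10 : PG (Blk 3) {x | ∃ k, x = (E10 k)⁻¹} :=
  pg_aux 1 E10 E10 (fun k => by group) hb10

theorem pg02 : PG (Blk 3) {x | ∃ k, x = (E02 k)⁻¹} := pg_aux sm E02 E01 c02 hb01

theorem pg20 : PG (Blk 3) {x | ∃ k, x = (E20 k)⁻¹} := pg_aux sm E20 E10 c20 hb10

theorem pg12 : PG (Blk 3) {x | ∃ k, x = (E12 k)⁻¹} := pg_aux rm E12 E01 c12 hb01

theorem pg21 : PG (Blk 3) {x | ∃ k, x = (E21 k)⁻¹} := pg_aux rm E21 E10 c21 hb10

theorem pgB : PG (Blk 3) (Blk 3) := pg_conj 1 fun x hx => by simpa using hx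

/-! ### the last row -/

theorem m10 (g : S3) (k : ℤ) : (g * E10 k).1 2 0 = g.1 2 0 + k * g.1 2 1 ∧
    (g * E10 k).1 2 1 = g.1 2 1 ∧ (g * E10 k).1 2 2 = g.1 2 2 := by
  refine ⟨?_, ?_, ?_⟩ <;> simp [E10, Matrix.mul_apply, Fin.sum_univ_three]
  ring

theorem m20 (g : S3) (k : ℤ) : (g * E20 k).1 2 0 = g.1 2 0 + k * g.1 2 2 ∧
    (g * E20 k).1 2 1 = g.1 2 1 ∧ (g * E20 k).1 2 2 = g.1 2 2 := by
  refine ⟨?_, ?_, ?_⟩ <;> simp [E20, Matrix.mul_apply, Fin.sum_univ_three]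
  ring

theorem m21 (g : S3) (k : ℤ) : (g * E21 k).1 2 0 = g.1 2 0 ∧
    (g * E21 k).1 2 1 = g.1 2 1 + k * g.1 2 2 ∧ (g * E21 k).1 2 2 = g.1 2 2 := by
  refine ⟨?_, ?_, ?_⟩ <;> simp [E21, Matrix.mul_apply, Fin.sum_univ_three]
  ring

theorem m02 (g : S3) (k : ℤ) : (g * E02 k).1 2 0 = g.1 2 0 ∧
    (g * E02 k).1 2 1 = g.1 2 1 ∧ (g * E02 k).1 2 2 = g.1 2 2 + k * g.1 2 0 := by
  refine ⟨?_, ?_, ?_⟩ <;> simp [E02, Matrix.mul_apply, Fin.sum_univ_three]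
  ring

theorem m12 (g : S3) (k : ℤ) : (g * E12 k).1 2 0 = g.1 2 0 ∧
    (g * E12 k).1 2 1 = g.1 2 1 ∧ (g * E12 k).1 2 2 = g.1 2 2 + k * g.1 2 1 := by
  refine ⟨?_, ?_, ?_⟩ <;> simp [E12, Matrix.mul_apply, Fin.sum_univ_three]
  ring

theorem bezout (g : S3) : ∃ a b c : ℤ, g.1 2 0 * a + g.1 2 1 * b + g.1 2 2 * c = 1 := by
  have h0 : g.1 * (g⁻¹).1 = 1 := congrArg Subtype.val (mul_inv_cancel g)
  have h : (g.1 * (g⁻¹).1) 2 2 = 1 := by
    rw [h0]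
    rfl
  rw [Matrix.mul_apply, Fin.sum_univ_three] at h
  exact ⟨_, _, _, h⟩

theorem exists_coprime (x y z : ℤ) (hx : x ≠ 0) (h : ∃ a b c : ℤ, x * a + y * b + z * c = 1) :
    ∃ t : ℤ, IsCoprime x (y + t * z) := by
  classical
  obtain ⟨a, b, c, habc⟩ := h
  refine ⟨∏ p ∈ x.natAbs.primeFactors.filter (fun p : ℕ => ¬ (p : ℤ) ∣ y), (p : ℤ), ?_⟩
  set t : ℤ := ∏ p ∈ x.natAbs.primeFactors.filter (fun p : ℕ => ¬ (p : ℤ) ∣ y), (p : ℤ) with ht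
  rw [Int.isCoprime_iff_gcd_eq_one]
  by_contra hne
  obtain ⟨q, hq, hqd⟩ := Nat.exists_prime_and_dvd hne
  have hqx : (q : ℤ) ∣ x := (Int.natCast_dvd_natCast.2 hqd).trans (Int.gcd_dvd_left _ _)
  have hqy : (q : ℤ) ∣ y + t * z := (Int.natCast_dvd_natCast.2 hqd).trans (Int.gcd_dvd_right _ _)
  have hqp : Prime (q : ℤ) := Nat.prime_iff_prime_int.1 hq
  by_cases hy : (q : ℤ) ∣ y
  · have h1 : (q : ℤ) ∣ t * z := (dvd_add_right hy).1 hqy
    rcases hqp.dvd_or_dvd h1 with h2 | h2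
    · rw [ht, hqp.dvd_finsetProd_iff] at h2
      obtain ⟨p, hp, hqp'⟩ := h2
      rw [Finset.mem_filter] at hp
      have hpp := Nat.prime_of_mem_primeFactors hp.1
      have h3 : q ∣ p := Int.natCast_dvd_natCast.1 hqp'
      have h4 : q = p := (Nat.prime_dvd_prime_iff_eq hq hpp).1 h3
      exact hp.2 (h4 ▸ hy)
    · have h3 : (q : ℤ) ∣ 1 := by
        rw [← habc]
        exact dvd_add (dvd_add (hqx.mul_right _) (hy.mul_right _)) (h2.mul_right _)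
      exact hqp.not_dvd_one h3
  · have h1 : (q : ℤ) ∣ t := by
      rw [ht]
      refine Finset.dvd_prod_of_mem (fun p : ℕ => (p : ℤ)) ?_
      rw [Finset.mem_filter, Nat.mem_primeFactors]
      exact ⟨⟨hq, Int.natCast_dvd.1 hqx, by simpa using hx⟩, hy⟩
    exact hy ((dvd_add_left (h1.mul_right z)).1 hqy)

theorem step1 (g : S3) : ∃ s t : ℤ, (g * E10 s * E20 t).1 2 0 ≠ 0 := by
  by_cases hx : g.1 2 0 = 0
  · by_cases hy : g.1 2 1 = 0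
    · refine ⟨0, 1, ?_⟩
      rw [(m20 _ _).1, (m10 _ _).1, (m10 _ _).2.2, hx, hy]
      intro h
      obtain ⟨a, b, c, habc⟩ := bezout g
      have hz : g.1 2 2 = 0 := by linarith
      rw [hx, hy, hz] at habc
      simp at habc
    · refine ⟨1, 0, ?_⟩
      rw [(m20 _ _).1, (m10 _ _).1, hx]
      intro h
      apply hy
      linarith
  · refine ⟨0, 0, ?_⟩
    rw [(m20 _ _).1, (m10 _ _).1]
    intro h
    apply hx
    linarith

theorem step3 (g : S3) (h : IsCoprime (g.1 2 0) (g.1 2 1)) :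
    ∃ v w : ℤ, (g * E02 v * E12 w).1 2 2 = 1 := by
  obtain ⟨α, β, hαβ⟩ := h
  refine ⟨(1 - g.1 2 2) * α, (1 - g.1 2 2) * β, ?_⟩
  rw [(m12 _ _).2.2, (m02 _ _).2.2, (m02 _ _).2.1]
  linear_combination (1 - g.1 2 2) * hαβ

theorem step4 (g : S3) (h : g.1 2 2 = 1) : ∃ c d : ℤ, (g * E20 c * E21 d).1 2 0 = 0 ∧
    (g * E20 c * E21 d).1 2 1 = 0 ∧ (g * E20 c * E21 d).1 2 2 = 1 := by
  refine ⟨-g.1 2 0, -g.1 2 1, ?_, ?_, ?_⟩
  · rw [(m21 _ _).1, (m20 _ _).1, h]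
    ring
  · rw [(m21 _ _).2.1, (m20 _ _).2.1, (m20 _ _).2.2, h]
    ring
  · rw [(m21 _ _).2.2, (m20 _ _).2.2, h]

theorem l02 (g : S3) (p : ℤ) (b : Fin 3) : (E02 p * g).1 0 b = g.1 0 b + p * g.1 2 b ∧
    (E02 p * g).1 1 b = g.1 1 b ∧ (E02 p * g).1 2 b = g.1 2 b := by
  refine ⟨?_, ?_, ?_⟩
  · show ((E02 p).1 * g.1) 0 b = _
    rw [Matrix.mul_apply, Fin.sum_univ_three]
    simp [E02]
  · show ((E02 p).1 * g.1) 1 b = _
    rw [Matrix.mul_apply, Fin.sum_univ_three]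
    simp [E02]
  · show ((E02 p).1 * g.1) 2 b = _
    rw [Matrix.mul_apply, Fin.sum_univ_three]
    simp [E02]

theorem l12 (g : S3) (p : ℤ) (b : Fin 3) : (E12 p * g).1 0 b = g.1 0 b ∧
    (E12 p * g).1 1 b = g.1 1 b + p * g.1 2 b ∧ (E12 p * g).1 2 b = g.1 2 b := by
  refine ⟨?_, ?_, ?_⟩
  · show ((E12 p).1 * g.1) 0 b = _
    rw [Matrix.mul_apply, Fin.sum_univ_three]
    simp [E12]
  · show ((E12 p).1 * g.1) 1 b = _
    rw [Matrix.mul_apply, Fin.sum_univ_three]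
    simp [E12]
  · show ((E12 p).1 * g.1) 2 b = _
    rw [Matrix.mul_apply, Fin.sum_univ_three]
    simp [E12]

theorem step5 (g : S3) (h0 : g.1 2 0 = 0) (h1 : g.1 2 1 = 0) (h2 : g.1 2 2 = 1) :
    ∃ p q : ℤ, E12 q * (E02 p * g) ∈ Blk 3 := by
  refine ⟨-g.1 0 2, -g.1 1 2, ?_⟩
  have e0 : ∀ b, (E12 (-g.1 1 2) * (E02 (-g.1 0 2) * g)).1 0 b =
      g.1 0 b - g.1 0 2 * g.1 2 b := fun b => by
    rw [(l12 _ _ b).1, (l02 _ _ b).1]
    ring
  have e1 : ∀ b, (E12 (-g.1 1 2) * (E02 (-g.1 0 2) * g)).1 1 b =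
      g.1 1 b - g.1 1 2 * g.1 2 b := fun b => by
    rw [(l12 _ _ b).2.1, (l02 _ _ b).2.1, (l02 _ _ b).2.2]
    ring
  have e2 : ∀ b, (E12 (-g.1 1 2) * (E02 (-g.1 0 2) * g)).1 2 b = g.1 2 b := fun b => by
    rw [(l12 _ _ b).2.2, (l02 _ _ b).2.2]
  intro i j hij
  have hi : i = 0 ∨ i = 1 ∨ i = 2 := by fin_cases i <;> simp
  have hj : j = 0 ∨ j = 1 ∨ j = 2 := by fin_cases j <;> simp
  rcases hi with rfl | rfl | rfl <;> rcases hj with rfl | rfl | rfl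
  · simp at hij
  · simp at hij
  · rw [e0, h2]; simp
  · simp at hij
  · simp at hij
  · rw [e1, h2]; simp
  · rw [e2, h0]; simp
  · rw [e2, h1]; simp
  · rw [e2, h2]; simp

theorem main : S_BG3 := by
  have key : PG (Blk 3) (Set.univ : Set S3) := by
    have h1 := ((((((((pg02.mul pg12).mul pgB).mul pg21).mul pg20).mul pg12).mul pg02).mul
      pg21).mul pg20).mul pg10
    obtain ⟨N, f, hf⟩ := h1
    refine ⟨N, f, fun g _ => hf g ?_⟩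
    obtain ⟨s, t, hst⟩ := step1 g
    obtain ⟨u, hu⟩ := exists_coprime _ _ _ hst (bezout (g * E10 s * E20 t))
    have hu' : IsCoprime ((g * E10 s * E20 t * E21 u).1 2 0)
        ((g * E10 s * E20 t * E21 u).1 2 1) := by
      rw [(m21 _ _).1, (m21 _ _).2.1]
      exact hu
    obtain ⟨v, w, hvw⟩ := step3 _ hu'
    obtain ⟨c, d, hc, hd, he⟩ := step4 _ hvw
    obtain ⟨p, q, hpq⟩ := step5 _ hc hd he
    set B : S3 := E12 q * (E02 p * (g * E10 s * E20 t * E21 u * E02 v * E12 w * E20 c * E21 d))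
      with hB
    have hg : g = (E02 p)⁻¹ * (E12 q)⁻¹ * B * (E21 d)⁻¹ * (E20 c)⁻¹ * (E12 w)⁻¹ * (E02 v)⁻¹ *
        (E21 u)⁻¹ * (E20 t)⁻¹ * (E10 s)⁻¹ := by
      rw [hB]
      group
    rw [hg]
    exact Set.mul_mem_mul (Set.mul_mem_mul (Set.mul_mem_mul (Set.mul_mem_mul (Set.mul_mem_mul
      (Set.mul_mem_mul (Set.mul_mem_mul (Set.mul_mem_mul (Set.mul_mem_mul ⟨p, rfl⟩ ⟨q, rfl⟩) hpq)
      ⟨d, rfl⟩) ⟨c, rfl⟩) ⟨w, rfl⟩) ⟨v, rfl⟩) ⟨u, rfl⟩) ⟨t, rfl⟩) ⟨s, rfl⟩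
  obtain ⟨N, f, hf⟩ := key
  exact ⟨N, f, fun x => hf x (Set.mem_univ x)⟩

end Pool.Agent.H257.BG.BG3
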