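import Pool.Agent.H257.BG.Stm

/-!
# Project BG: assembly
-/

set_option autoImplicit false

namespace Pool.Agent.H257.BG

open Pool.Agent.H494R3.GT Pool.Agent.N557.QW
open Pool.Agent.N414.LR (Op IsIcc)
open Pool.Agent.H257.HD (Tight)
open Pool.Agent.H257.TW
open Filter

noncomputable section

theorem UA.mono {Λ : Type} [Group Λ] {X Y : Set (Op Λ)} (h : UA Y) (hXY : X ⊆ Y) : UA X := by
  intro η hη
  obtain ⟨m, hm⟩ := h η hη
  exact ⟨m, fun x hx => hm x (hXY hx)⟩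

/-- the products of elements `v (g a g⁻¹)`, `a ∈ A`, for the `g` of a list -/
def PP {G Λ : Type} [Group G] [Group Λ] (v : G →* unitary (Op Λ)) (A : Set G) :
    List G → Set (Op Λ)
  | [] => {1}
  | g :: L => {z | ∃ x ∈ {x : Op Λ | ∃ a ∈ A, x = (v (g * a * g⁻¹) : Op Λ)}, ∃ y ∈ PP v A L, z = x * y}

section
variable {G Λ : Type} [Group G] [Group Λ] (v : G →* unitary (Op Λ)) (A : Set G)

theorem PP_sub (hv : ∀ g, (v g : Op Λ) ∈ LG Λ) (L : List G) :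
    ∀ x ∈ PP v A L, x ∈ LG Λ ∧ x ∈ unitary (Op Λ) := by
  induction L with
  | nil =>
    intro x hx
    rw [PP, Set.mem_singleton_iff] at hx
    rw [hx]
    have h1 : ((v 1 : unitary (Op Λ)) : Op Λ) = 1 := by rw [map_one]; rfl
    exact ⟨h1 ▸ hv 1, one_mem _⟩
  | cons g L ih =>
    rintro z ⟨x, ⟨a, ha, rfl⟩, y, hy, rfl⟩
    exact ⟨mul_mem (hv _) (ih y hy).1, mul_mem (v _).2 (ih y hy).2⟩

theorem PP_UA (hPRD : S_PRD) (hSNG : S_SNG) (hv : ∀ g, (v g : Op Λ) ∈ LG Λ)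
    (hA : UA {x : Op Λ | ∃ a ∈ A, x = (v a : Op Λ)}) (L : List G) : UA (PP v A L) := by
  have hXs : ∀ x ∈ {x : Op Λ | ∃ a ∈ A, x = (v a : Op Λ)}, x ∈ LG Λ ∧ x ∈ unitary (Op Λ) := by
    rintro x ⟨a, ha, rfl⟩
    exact ⟨hv a, (v a).2⟩
  have hs1 : ∀ g : G, ∀ x ∈ ({(v g : Op Λ)} : Set (Op Λ)), x ∈ LG Λ ∧ x ∈ unitary (Op Λ) := by
    intro g x hx
    rw [Set.mem_singleton_iff] at hx
    rw [hx]
    exact ⟨hv g, (v g).2⟩
  have hsu : ∀ g : G, UA {(v g : Op Λ)} := fun g => (hSNG Λ).1 _ (hv g) (v g).2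
  induction L with
  | nil =>
    have h1 : ((v 1 : unitary (Op Λ)) : Op Λ) = 1 := by rw [map_one]; rfl
    have h2 := hsu 1
    rw [h1] at h2
    exact h2
  | cons g L ih =>
    have h1 := hPRD Λ _ _ (hs1 g) hXs (hsu g) hA
    have h2 := hPRD Λ _ _ (by
      rintro z ⟨x, hx, y, hy, rfl⟩
      exact ⟨mul_mem (hs1 g x hx).1 (hXs y hy).1, mul_mem (hs1 g x hx).2 (hXs y hy).2⟩)
      (hs1 g⁻¹) h1 (hsu g⁻¹)
    have h3 : UA {x : Op Λ | ∃ a ∈ A, x = (v (g * a * g⁻¹) : Op Λ)} := by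
      refine h2.mono ?_
      rintro x ⟨a, ha, rfl⟩
      refine ⟨(v g : Op Λ) * (v a : Op Λ), ⟨_, rfl, _, ⟨a, ha, rfl⟩, rfl⟩, _, rfl, ?_⟩
      rw [map_mul, map_mul]
      rfl
    exact hPRD Λ _ _ (by
      rintro x ⟨a, ha, rfl⟩
      exact ⟨hv _, (v _).2⟩) (PP_sub v A hv L) h3 ih

theorem PP_mem (N : ℕ) (g a : Fin N → G) (ha : ∀ i, a i ∈ A) :
    (v ((List.ofFn fun i => g i * a i * (g i)⁻¹).prod) : Op Λ) ∈ PP v A (List.ofFn g) := by
  induction N with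
  | zero =>
    rw [List.ofFn_zero, List.ofFn_zero, List.prod_nil, map_one]
    exact rfl
  | succ N ih =>
    rw [List.ofFn_succ, List.ofFn_succ, List.prod_cons, map_mul]
    exact ⟨_, ⟨a 0, ha 0, rfl⟩, _, ih (fun i => g i.succ) (fun i => a i.succ) fun i => ha _, rfl⟩

end

/-- the main theorem in the standard form -/
theorem main (hPRD : S_PRD) (hINV : S_INV) (hSNG : S_SNG) (hLOW : S_LOW) (G Λ : Type) [Group G]
    [Group Λ] (hicc : IsIcc G) (θ : (LG G).toStarSubalgebra ≃⋆ₐ[ℂ] (LG Λ).toStarSubalgebra)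
    (hθ : ∀ x, cf (θ x : Op Λ) 1 = cf (x : Op G) 1) (A : Set G) (N : ℕ) (g : Fin N → G)
    (hgen : ∀ x : G, ∃ a : Fin N → G, (∀ i, a i ∈ A) ∧
      x = (List.ofFn fun i => g i * a i * (g i)⁻¹).prod)
    (hA : UA {x : Op Λ | ∃ a ∈ A, x = θ ⟨lam a, lam_mem a⟩}) : GpL θ := by
  refine gl_of_tight G Λ hicc θ hθ fun W hW => ?_
  have hWm : ∀ h, (W h : Op Λ) ∈ LG Λ := fun h => by rw [hW]; exact (θ _).2
  have hA' : UA {x : Op Λ | ∃ a ∈ A, x = (W a : Op Λ)} := by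
    refine hA.mono ?_
    rintro x ⟨a, ha, rfl⟩
    exact ⟨a, ha, hW a⟩
  have h1 := PP_UA W A hPRD hSNG hWm hA' (List.ofFn g)
  have h2 : UA (Set.range fun x => (W x : Op Λ)) := by
    refine h1.mono ?_
    rintro _ ⟨x, rfl⟩
    obtain ⟨a, ha, hx⟩ := hgen x
    change (W x : Op Λ) ∈ _
    rw [hx]
    exact PP_mem W A N g a ha
  obtain ⟨c, hc, hlow⟩ := hLOW G Λ W hWm h2
  obtain ⟨ρ, hco, hinv⟩ := Pool.Agent.H257.HD.REP.main G Λ W hWm
  refine hinv (hINV G _ ρ (dl (1, (1, 1))) c hc fun g => ?_)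
  rw [hco, Complex.ofReal_re]
  exact hlow g

/-- the powers of a unitary which is conjugate to a multiple of a translation -/
theorem ua_powers (hPRD : S_PRD) (hSNG : S_SNG) (G Λ : Type) [Group G] [Group Λ]
    (v : G →* unitary (Op Λ)) (a : G) (h : Λ) (c : ℂ) (w : Op Λ) (hw : w ∈ LG Λ)
    (hwu : w ∈ unitary (Op Λ)) (hc : ‖c‖ = 1) (hva : (v a : Op Λ) = c • (w * lam h * star w)) :
    UA {x : Op Λ | ∃ b ∈ {b : G | ∃ k : ℤ, b = a ^ k}, x = (v b : Op Λ)} := by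
  have hww : star w * w = 1 := (Unitary.mem_iff.1 hwu).1
  have hww' : w * star w = 1 := (Unitary.mem_iff.1 hwu).2
  have hmul : ∀ x y : Op Λ, (w * x * star w) * (w * y * star w) = w * (x * y) * star w := by
    intro x y
    calc (w * x * star w) * (w * y * star w) = w * x * (star w * w) * y * star w := by
          simp only [mul_assoc]
      _ = w * (x * y) * star w := by rw [hww, mul_one]; simp only [mul_assoc]
  have hstar : star (w * lam h * star w) = w * lam h⁻¹ * star w := by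
    rw [star_mul, star_mul, star_star, star_lam, mul_assoc]
  have hinvv : (v a⁻¹ : Op Λ) = (starRingEnd ℂ c) • (w * lam h⁻¹ * star w) := by
    rw [← Pool.Agent.N414.LR.CLS.star_v, hva, star_smul, hstar]
    rfl
  have key : ∀ k : ℤ, ∃ d : ℂ, ‖d‖ = 1 ∧ (v (a ^ k) : Op Λ) = w * (d • lam (h ^ k)) * star w := by
    intro k
    induction k using Int.induction_on with
    | zero =>
      refine ⟨1, by simp, ?_⟩
      rw [zpow_zero, zpow_zero, map_one, lam_one, one_smul, mul_one, hww']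
      rfl
    | succ k ih =>
      obtain ⟨d, hd, hk⟩ := ih
      refine ⟨d * c, by rw [norm_mul, hd, hc, one_mul], ?_⟩
      rw [zpow_add_one, zpow_add_one, map_mul]
      change (v (a ^ (k : ℤ)) : Op Λ) * (v a : Op Λ) = _
      rw [hk, hva, mul_smul_comm, hmul, lam_mul, smul_mul_assoc, mul_smul_comm, smul_mul_assoc,
        smul_smul, mul_smul_comm, smul_mul_assoc, mul_comm c d]
    | pred k ih =>
      obtain ⟨d, hd, hk⟩ := ih
      refine ⟨d * starRingEnd ℂ c, by rw [norm_mul, hd, RCLike.norm_conj, hc, one_mul], ?_⟩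
      rw [zpow_sub_one, zpow_sub_one, map_mul]
      change (v (a ^ (-(k : ℤ))) : Op Λ) * (v a⁻¹ : Op Λ) = _
      rw [hk, hinvv, mul_smul_comm, hmul, lam_mul, smul_mul_assoc, mul_smul_comm, smul_mul_assoc,
        smul_smul, mul_smul_comm, smul_mul_assoc, mul_comm (starRingEnd ℂ c) d]
  have hs1 : ∀ y : Op Λ, y ∈ LG Λ → y ∈ unitary (Op Λ) →
      ∀ x ∈ ({y} : Set (Op Λ)), x ∈ LG Λ ∧ x ∈ unitary (Op Λ) := by
    intro y h1 h2 x hx
    rw [Set.mem_singleton_iff] at hx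
    rw [hx]
    exact ⟨h1, h2⟩
  have hT : ∀ x ∈ {x : Op Λ | ∃ (c : ℂ) (h : Λ), ‖c‖ = 1 ∧ x = c • lam h},
      x ∈ LG Λ ∧ x ∈ unitary (Op Λ) := by
    rintro x ⟨c, h, hc, rfl⟩
    refine ⟨(LG Λ).toStarSubalgebra.toSubalgebra.smul_mem (lam_mem h) c, ?_⟩
    rw [Unitary.mem_iff]
    have e1 : star c * c = 1 := by
      rw [Complex.star_def, Complex.conj_mul', hc]; norm_num
    have e2 : c * star c = 1 := by rw [mul_comm]; exact e1
    rw [star_smul, star_lam]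
    constructor
    · rw [smul_mul_smul_comm, e1, ← lam_mul, inv_mul_cancel, lam_one, one_smul]
    · rw [smul_mul_smul_comm, e2, ← lam_mul, mul_inv_cancel, lam_one, one_smul]
  have hsw : star w ∈ LG Λ := star_mem hw
  have h1 := hPRD Λ _ _ (hs1 w hw hwu) hT ((hSNG Λ).1 w hw hwu) (hSNG Λ).2
  have h2 := hPRD Λ _ _ (by
      rintro z ⟨x, hx, y, hy, rfl⟩
      exact ⟨mul_mem (hs1 w hw hwu x hx).1 (hT y hy).1, mul_mem (hs1 w hw hwu x hx).2 (hT y hy).2⟩)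
      (hs1 (star w) hsw (Unitary.star_mem hwu)) h1 ((hSNG Λ).1 _ hsw (Unitary.star_mem hwu))
  refine h2.mono ?_
  rintro x ⟨b, ⟨k, rfl⟩, rfl⟩
  obtain ⟨d, hd, hk⟩ := key k
  exact ⟨_, ⟨w, rfl, _, ⟨d, h ^ k, hd, rfl⟩, rfl⟩, _, rfl, hk⟩

end

end Pool.Agent.H257.BG
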