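import Pool.Agent.H257.TW.Main

/-!
# Project BG: bounded generation and group-like isomorphisms

Let `Γ` be icc, and let every element of `Γ` be a product of elements of `N` conjugates of a subset
`A` (bounded generation; for example `SL_n(ℤ)`, `n ≥ 3` odd, with the powers of one elementary
matrix).  If the unitaries `θ(u_a)`, `a ∈ A`, are uniformly close to combinations of few group
elements (`UA`), so are all `θ(u_g)`, `g ∈ Γ`, and then `θ` is group-like.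
-/

set_option autoImplicit false

namespace Pool.Agent.H257.BG

open Pool.Agent.H494R3.GT Pool.Agent.N557.QW
open Pool.Agent.N414.LR (Op IsIcc)
open Filter

noncomputable section

/-- the operators in `X` are uniformly close to combinations of few translations: for every `η > 0`
there is an `m` such that for each `x ∈ X` the mass of the coefficients `cf x h` outside of a set
of at most `m` elements `h` is at most `η` (for unitaries `x`; the total mass is `1`) -/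
def UA {Λ : Type} [Group Λ] (X : Set (Op Λ)) : Prop :=
  ∀ η : ℝ, 0 < η → ∃ m : ℕ, ∀ x ∈ X, ∃ F : Finset Λ, F.card ≤ m ∧
    1 - ∑ h ∈ F, ‖cf x h‖ ^ 2 ≤ η

/-- PRD: products.  Proof.  For a unitary `x ∈ L(Λ)` one has `∑_h |cf x h|² = ‖x δ_1‖² = 1`
(`cf x h = (x (dl 1)) h`).  Let `η > 0`, let `m₁` be given by `UA X` for `η₁ = η / 4`, and `m₂` by
`UA Y` for `η₂ = η / (4 (m₁ + 1))`.  For `x ∈ X`, `y ∈ Y` with the finite sets `F₁`, `F₂` put
`x' = ∑_{h ∈ F₁} cf x h • lam h`, `x'' = x - x'` (both in `L(Λ)`), `y' = ∑_{h ∈ F₂} cf y h • lam h`,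
`y'' = y - y'`.  `‖x'' δ_1‖² = 1 - ∑_{F₁} |cf x h|² ≤ η₁`, `‖y'' δ_1‖² ≤ η₂`, and
`‖x'‖ ≤ ∑_{F₁} |cf x h| ≤ √m₁` (Cauchy–Schwarz, `‖lam h‖ ≤ 1`).  Then `x y = x'' y + x' y'' + x' y'`,
`‖x'' y δ_1‖ = ‖x'' δ_1‖` (trace property of `L(Λ)`: `⟨x'' y δ_1, x'' y δ_1⟩ = τ(y* x''* x'' y) =
τ(x''* x'')`; see the trace lemmas used in `Pool/Agent/H257/HD/MIX.lean` and `COF.lean`),
`‖x' y'' δ_1‖ ≤ √m₁ √η₂`, and `x' y' δ_1` is supported in `F₁ F₂ = {h h'}`, which has at most `m₁ m₂`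
elements.  So the mass of `x y δ_1` outside `F₁ F₂` is at most
`‖x'' y δ_1 + x' y'' δ_1‖² ≤ 2 η₁ + 2 m₁ η₂ ≤ η`, and its total mass is `1`. -/
def S_PRD : Prop :=
  ∀ (Λ : Type) [Group Λ] (X Y : Set (Op Λ)), (∀ x ∈ X, x ∈ LG Λ ∧ x ∈ unitary (Op Λ)) →
    (∀ y ∈ Y, y ∈ LG Λ ∧ y ∈ unitary (Op Λ)) → UA X → UA Y →
    UA {z : Op Λ | ∃ x ∈ X, ∃ y ∈ Y, z = x * y}

/-- INV: a coefficient which is bounded below gives an invariant vector.
Proof.  Let `C` be the closure of the (real) convex hull of the orbit `{π g ξ}`.  `C` is a nonempty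
closed convex set, so it has a unique element `ζ` of minimal norm
(`exists_norm_eq_iInf_of_complete_convex`, `norm_eq_iInf_iff_real_inner_le_zero`; or uniqueness by the
parallelogram law).  `C` is invariant under the isometries `π g`, so `π g ζ = ζ`.  As
`re ⟨ξ, x⟩ ≥ c` for all `x` in the orbit, hence in `C`, `ζ ≠ 0`. -/
def S_INV : Prop :=
  ∀ (G H : Type) [Group G] [NormedAddCommGroup H] [InnerProductSpace ℂ H] [CompleteSpace H]
    (π : G →* unitary (H →L[ℂ] H)) (ξ : H) (c : ℝ), 0 < c →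
    (∀ g : G, c ≤ (inner ℂ ξ ((π g : H →L[ℂ] H) ξ)).re) →
    ∃ ζ : H, ζ ≠ 0 ∧ ∀ g : G, (π g : H →L[ℂ] H) ζ = ζ

/-- SNG: a single unitary, and the multiples of the translations. -/
def S_SNG : Prop :=
  ∀ (Λ : Type) [Group Λ], (∀ x : Op Λ, x ∈ LG Λ → x ∈ unitary (Op Λ) → UA {x}) ∧
    UA {x : Op Λ | ∃ (c : ℂ) (h : Λ), ‖c‖ = 1 ∧ x = c • lam h}

/-- LOW: Proof.  Take `η = 1/2`: `1/2 ≤ ∑_{h ∈ F} |cf (v g) h|²`, so by Cauchy–Schwarz
`1/4 ≤ |F| ∑_{h ∈ F} |cf (v g) h|⁴ ≤ (m + 1) ∑' h, |cf (v g) h|⁴` (the sum converges, as the squares of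
the coefficients have the sum `1` and `|cf (v g) h| ≤ 1`). -/
def S_LOW : Prop :=
  ∀ (G Λ : Type) [Group G] [Group Λ] (v : G →* unitary (Op Λ)), (∀ g, (v g : Op Λ) ∈ LG Λ) →
    UA (Set.range fun g => (v g : Op Λ)) →
    ∃ c : ℝ, 0 < c ∧ ∀ g, c ≤ ∑' h, ‖cf (v g : Op Λ) h‖ ^ 4

end

end Pool.Agent.H257.BG
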