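import Mathlib

/-!
# Project BG: bounded generation of `SL_n(ℤ)` by conjugates of `SL_2(ℤ)`
-/

set_option autoImplicit false

namespace Pool.Agent.H257.BG

open Matrix

/-- every element of `G` is a product `(g_1 a_1 g_1⁻¹) ⋯ (g_N a_N g_N⁻¹)` with `a_i ∈ A`, for fixed
`g_1, …, g_N` -/
def BGen {G : Type} [Group G] (A : Set G) : Prop :=
  ∃ (N : ℕ) (g : Fin N → G), ∀ x : G, ∃ a : Fin N → G, (∀ i, a i ∈ A) ∧
    x = (List.ofFn fun i => g i * a i * (g i)⁻¹).prod

/-- the matrices in `SL_n(ℤ)` which differ from the identity only in the upper left `2 × 2` block -/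
def Blk (n : ℕ) : Set (SpecialLinearGroup (Fin n) ℤ) :=
  {g | ∀ i j : Fin n, (2 ≤ (i : ℕ) ∨ 2 ≤ (j : ℕ)) → g.1 i j = if i = j then 1 else 0}

/-- ICN: `SL_n(ℤ)`, `n ≥ 3` odd, is icc.
Proof.  Suppose that the conjugacy class of `g` is finite.  For `i ≠ j` the conjugates of `g` by
the elementary matrices `1 + k E_ij`, `k ∈ ℤ`, take two equal values, so `g` commutes with
`1 + m E_ij` for an `m ≠ 0`, so `g E_ij = E_ij g` (cancel the identity and `m`), for all `i ≠ j`; hence
`g` is a scalar matrix `c`, `c ^ n = 1`, and `c = 1` as `n` is odd. -/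
def S_ICN : Prop :=
  ∀ n : ℕ, 3 ≤ n → Odd n → ∀ g : SpecialLinearGroup (Fin n) ℤ, g ≠ 1 →
    {x : SpecialLinearGroup (Fin n) ℤ | ∃ k : SpecialLinearGroup (Fin n) ℤ, k * g * k⁻¹ = x}.Infinite

/-- BG3: `SL_3(ℤ)` is a product of finitely many conjugates of `SL_2(ℤ)`.
Proof.  (a) The sets `P` which are contained in a product of finitely many conjugates of `Blk 3`
are closed under products, inverses of `SL_2` blocks (`Blk 3` is a subgroup) and contain
`{E_ij(k) = 1 + k E_ij : k ∈ ℤ}` for all `i ≠ j`: there is a permutation-like matrix `s ∈ SL_3(ℤ)` with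
`E_ij(k) = s E_12(± k) s⁻¹`.  (b) Let `(x, y, z)` be the last row of `g ∈ SL_3(ℤ)`, `gcd (x, y, z) = 1`.
By right multiplication with at most `7` elementary matrices (in FIXED positions, with variable
integers, possibly `0`) the last row becomes `(0, 0, 1)`: first make `x ≠ 0` (if `x = 0` add `y` or
`z`, one of them is not `0`: `x + s y + t z ≠ 0` for some `s, t ∈ {0, 1}` if `x = 0` (if `y = 0` take
`t = 1`, else `s = 1, t = 0`)); then there is a `t` with `gcd (x, y + t z) = 1` (the product of the primes
that divide `x` but not `y`; in Mathlib one can use `Nat`/`Int` lemmas or the CRT; if a prime `p`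
divides `x` and `y` then it does not divide `z`, and `t` is prime to `p`; if `p` divides `x` and not
`y` then `p` divides `t`); with `α x + β (y + t z) = 1` add `(1 - z) α` times the first and
`(1 - z) β` times the second column to the third, which makes the last entry `1`; subtract
multiples of the third column from the first two.  (c) Now `g` has the last row `(0, 0, 1)`; left
multiplication with `E_13(-p) E_23(-q)` clears the last column `(p, q, 1)`, and the result is in
`Blk 3`.  (It may be convenient to prove first that the class of all sets `P` of `G` for which there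
are `N`, `g_1, …, g_N` with `P ⊆ ∏ g_i A g_i⁻¹` is closed under products; `List.ofFn` and
`Fin.append`, or use lists instead and convert at the end.) -/
def S_BG3 : Prop := BGen (Blk 3)

/-- BGN: the same for all `n ≥ 3` (by induction on `n`: the last row is reduced to `(0, …, 0, 1)` by a
bounded number of elementary matrices in fixed positions as in BG3, then the last column). -/
def S_BGN : Prop := ∀ n : ℕ, 3 ≤ n → BGen (Blk n)

end Pool.Agent.H257.BG
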