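import Pool.Agent.H257.BG.Stm2

/-!
# Project BG: bounded elementary generation of `SL_3(ℤ)` (Carter and Keller)
-/

set_option autoImplicit false

namespace Pool.Agent.H257.BG

open Matrix

/-- the matrix `A ⊕ 1` is a product of at most `k` elementary `3 × 3` matrices -/
def L (k : ℕ) (A : Matrix (Fin 2) (Fin 2) ℤ) : Prop :=
  ∃ l : List (Matrix (Fin 3) (Fin 3) ℤ), l.length ≤ k ∧
    (∀ y ∈ l, ∃ i j : Fin 3, i ≠ j ∧ ∃ t : ℤ, y = transvection i j t) ∧
    l.prod = !![A 0 0, A 0 1, 0; A 1 0, A 1 1, 0; 0, 0, 1]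

/-- MEN (Mennicke).  Proof.  With `E i j t = transvection i j t`, `X₁ = X ⊕ 1 = !![x, y, 0; u, v, 0; 0, 0, 1]`
and `Y₁ = 1 ⊕ Y = !![1, 0, 0; 0, x, z; 0, r, s]`:
`E 2 1 (-r) * X₁ * Y₁ * E 0 1 (-y) * E 1 0 (-u) * E 1 2 (-(v z)) = !![x, 0, y z; 0, 1, 0; -r u, 0, s - r v z]`
(indices in `Fin 3`).  A product of elementary matrices remains one of the same length after a
permutation of the indices `0, 1, 2` (`transvection i j t ↦ transvection (σ i) (σ j) t`, conjugation
with a permutation matrix, or `Matrix.submatrix`/`reindex`), which moves `Y ⊕ 1` to `1 ⊕ Y` and the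
result to `W ⊕ 1`.  So `K = 4`. -/
def S_MEN : Prop :=
  ∃ K : ℕ, ∀ (i j : ℕ) (x y z u v r s : ℤ), x * v - y * u = 1 → x * s - z * r = 1 →
    L i !![x, y; u, v] → L j !![x, z; r, s] →
    L (i + j + K) !![x, y * z; -(r * u), s - r * v * z]

/-- ROW: elementary facts.  `row`: `!![a, b; c', d'] = !![1, 0; c' d - c d', 1] * !![a, b; c, d]`.
`inv`: reverse the list, `(transvection i j t)⁻¹ = transvection i j (-t)`; `trn`: transpose. -/
structure Row : Prop where
  mul : ∀ (i j : ℕ) (A B : Matrix (Fin 2) (Fin 2) ℤ), L i A → L j B → L (i + j) (A * B)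
  mono : ∀ (i j : ℕ) (A : Matrix (Fin 2) (Fin 2) ℤ), i ≤ j → L i A → L j A
  inv : ∀ (i : ℕ) (a b c d : ℤ), a * d - b * c = 1 → L i !![a, b; c, d] → L i !![d, -b; -c, a]
  trn : ∀ (i : ℕ) (A : Matrix (Fin 2) (Fin 2) ℤ), L i A → L i Aᵀ
  up : ∀ t : ℤ, L 1 !![1, t; 0, 1]
  low : ∀ t : ℤ, L 1 !![1, 0; t, 1]
  row : ∀ (i : ℕ) (a b c d c' d' : ℤ), a * d - b * c = 1 → a * d' - b * c' = 1 →
    L i !![a, b; c, d] → L (i + 1) !![a, b; c', d']
  one : ∃ K : ℕ, ∀ a b c d : ℤ, (a = 1 ∨ a = -1) → a * d - b * c = 1 → L K !![a, b; c, d]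

def S_ROW : Prop := Row

/-- PWR (the power lemma of Carter and Keller).  Proof.  Let `A = !![a, b; c, d]`.  By Cayley–Hamilton
`A ^ m = f + g A` with integers `f`, `g` (induction on `m`), so the first row of `A ^ m` is
`(x, g b)`, `x = f + g a`, and `x ≡ a ^ m` modulo `b` (as `A` is lower triangular modulo `b`).  The
determinant of `A ^ m` is `1 = f² + f g (a + d) + g²`, so `g ∣ (f - 1) (f + 1)`.  Let `g₁ = gcd (g, f - 1)`
and `g = g₁ g₂` (if `g = 0` then `f = ± 1`, `A ^ m = ± 1`, use `Row.one`); then `g₂ ∣ f + 1`, as `g₂` is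
prime to `(f - 1) / g₁`.  So `x ≡ 1` modulo `g₁` and `x ≡ - 1` modulo `g₂`, and `x ≡ a ^ m` modulo `b`;
`x` is prime to `g₁ g₂ b`.  By `S_MEN` used twice, a matrix of determinant `1` with the first row
`(x, g₁ g₂ b)` has length at most that of matrices with the first rows `(x, g₁)`, `(x, g₂)`, `(x, b)` plus
a constant.  These become `(1, g₁)`, `(- 1, g₂)`, `(a ^ m, b)` by subtracting a multiple of the
second column from the first (multiplication by `!![1, 0; t, 1]` from the right), use `Row.one`, and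
`Row.row` to pass between matrices with the same first row. -/
def S_PWR : Prop :=
  ∃ K : ℕ, ∀ (k m : ℕ) (a b c d c' d' : ℤ), a * d - b * c = 1 → a ^ m * d' - b * c' = 1 →
    L k !![a ^ m, b; c', d'] → L (k + K) (!![a, b; c, d] ^ m)

/-- DIR: Proof.  Dirichlet's theorem (`Nat.setOf_prime_and_eq_mod_infinite` or
`Nat.forall_exists_prime_gt_and_eq_mod`).  (1) is the theorem.  (2) `p ≡ b` modulo the odd prime `a`
and `p ≡ 3` modulo `4` (CRT); as `b ≢ 1` modulo `a`, `a` does not divide `p - 1`.  (3) `q ≡ c` modulo `a`,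
`q ≡ 3` modulo `4`, `q ≡ -1` modulo `n = (p - 1) / 2`, which is odd (as `p ≡ 3` modulo `4`) and prime to
`a`; then `gcd (q - 1, n)` divides `2`, so it is `1`. -/
def S_DIR : Prop :=
  (∀ a b : ℤ, IsCoprime a b → b ≠ 0 → ∃ (t : ℤ) (q : ℕ), q.Prime ∧ 2 < q ∧ (q : ℤ) = a + t * b) ∧
  (∀ (a : ℕ) (b : ℤ), a.Prime → 2 < a → ¬ (a : ℤ) ∣ b → ¬ (a : ℤ) ∣ b - 1 →
    ∃ (t : ℤ) (p : ℕ), p.Prime ∧ p % 4 = 3 ∧ (p : ℤ) = b + t * a ∧ ¬ a ∣ (p - 1) / 2) ∧
  (∀ (a : ℕ) (c : ℤ) (p : ℕ), a.Prime → 2 < a → ¬ (a : ℤ) ∣ c → p.Prime → p % 4 = 3 →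
    ¬ a ∣ (p - 1) / 2 → ∃ (t : ℤ) (q : ℕ), q.Prime ∧ q % 4 = 3 ∧ (q : ℤ) = c + t * a ∧
      Nat.Coprime ((p - 1) / 2) ((q - 1) / 2))

/-- CMB.  Proof.  Let `A = !![a, b; c, d]`, `a d - b c = 1`.  Up to a bounded number of elementary
matrices of the forms `!![1, t; 0, 1]`, `!![1, 0; t, 1]` from the left and right (`Row.mul`, `Row.up`,
`Row.low`) one may assume the following.  If `b = 0` then `a = ± 1` (`Row.one`).  Let `b ≠ 0`; by (1)
of `S_DIR` (second column times `t` added to the first) `a > 2` is a prime.  `a` does not divide `b`.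
If `a ∣ b - 1` add a multiple of the first column to the second to get `b = 1`, then a multiple of the
second to the first to get `a = 1` (`Row.one`).  Otherwise by (2) (a multiple of the first
column added to the second) `b = p` is a prime, `p ≡ 3` modulo `4`, and then by (3) (a multiple of
the first row added to the second) `c = q` is a prime, `q ≡ 3` modulo `4`, and `m₁ = (p - 1) / 2`,
`m₂ = (q - 1) / 2` are coprime.  By Fermat `a ^ m₁ ≡ ± 1` modulo `p`, so `a ^ (k m₁) = ± 1 + j p` and a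
matrix with the first row `(a ^ (k m₁), p)` has bounded length (subtract `j` times the second column
from the first, `Row.one`), so `L K (A ^ (k m₁))` for all `k ≥ 0` by `S_PWR`, with `K` independent of
everything.  The same holds for the transposed matrix `!![a, q; p, d]` and `m₂`, so
`L K (A ^ (k m₂))` (`Row.trn`).  With `k m₁ = l m₂ + 1`, `k, l ≥ 0`, `A = A ^ (k m₁) * (A ^ (l m₂))⁻¹`. -/
def S_CMB : Prop := ∃ K : ℕ, ∀ a b c d : ℤ, a * d - b * c = 1 → L K !![a, b; c, d]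

/-- the elementary matrix `1 + E_12` of `SL_3(ℤ)` -/
def e12 : SpecialLinearGroup (Fin 3) ℤ := ⟨!![1, 1, 0; 0, 1, 0; 0, 0, 1], by
  simp [Matrix.det_fin_three]⟩

/-- FCK: `SL_3(ℤ)` is a product of finitely many conjugates of the powers of one elementary matrix.
Proof.  By `S_CMB` all elements of `Blk 3` are products of at most `K` elementary matrices (pad with
`transvection 0 1 0 = 1`; each elementary matrix has one of `6` positions, so every element of
`Blk 3` is in the product of `6 K` sets `E_ij(ℤ)` in the fixed order `E_12, E_13, …` repeated `K` times),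
and `E_ij(t) = s (e12 ^ (± t)) s⁻¹` for a fixed `s = s_ij ∈ SL_3(ℤ)`; the powers of `e12` are closed under
inverses.  `S_BG3` gives `N`, `g_i` with `x = ∏ g_i a_i g_i⁻¹`, `a_i ∈ Blk 3`; insert. -/
def S_FCK : Prop :=
  S_CMB → S_BG3 → BGen {x : SpecialLinearGroup (Fin 3) ℤ | ∃ k : ℤ, x = e12 ^ k}

end Pool.Agent.H257.BG
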