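import Pool.Agent.H257.BG.Stm3

/-!
# Project BG: bounded elementary generation of `SL_n(ℤ)`, `n ≥ 3`
-/

set_option autoImplicit false

namespace Pool.Agent.H257.BG

open Matrix

/-- FCN: `SL_n(ℤ)`, `n ≥ 3`, is a product of finitely many conjugates of the powers of one elementary
matrix.
Proof.  As for `S_FCK` (proofs: store helper257_BG_FCK.lean, helper257_BG_FCKb.lean).  An element `x` of
`Blk n` has the upper left `2 × 2` block `!![a, b; c, d]`, `a d - b c = 1`, and by `S_CMB` the matrix
`!![a, b, 0; c, d, 0; 0, 0, 1]` is a product of at most `K` elementary `3 × 3` matrices; embed the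
`3 × 3` matrices in the upper left corner (`y ↦ y ⊕ 1`, multiplicative, for instance
`Matrix.fromBlocks` reindexed, or the map `(i, j) ↦ if i < 3 ∧ j < 3 then y i j else if i = j then 1 else 0`)
to get `x` as a product of at most `K` elementary `n × n` matrices in positions `i, j < 3`.  Each
elementary matrix `1 + t E_ij` is `s (e ^ (± t)) s⁻¹` with a fixed `s = s_ij ∈ SL_n(ℤ)` (a signed
permutation matrix; only the positions `i, j < 3` are needed, so `s` may be taken in the corner
`SL_3(ℤ)`).  `S_BGN n` gives `x = ∏ g_i a_i g_i⁻¹`, `a_i ∈ Blk n`; insert. -/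
def S_FCN : Prop :=
  S_CMB → S_BGN → ∀ n : ℕ, 3 ≤ n → ∃ a : SpecialLinearGroup (Fin n) ℤ,
    (∀ i j, a.1 i j = if i = j then 1 else if (i : ℕ) = 0 ∧ (j : ℕ) = 1 then 1 else 0) ∧
    BGen {x : SpecialLinearGroup (Fin n) ℤ | ∃ k : ℤ, x = a ^ k}

end Pool.Agent.H257.BG
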