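import Pool.Agent.H257.BG.Stm2

/-!
# Project BG: `PSL_n(ℤ)` is icc for all `n ≥ 3`
-/

set_option autoImplicit false

namespace Pool.Agent.H257.BG

open Matrix

/-- PSL: `PSL_n(ℤ)`, `n ≥ 3`, is icc.
Proof.  Let `ḡ` be the class of `g ∈ SL_n(ℤ)`, and suppose that its conjugacy class is finite.  For
`i ≠ j` the classes of the conjugates of `g` by `1 + k E_ij`, `k ∈ ℤ`, take two equal values, so
`u g u⁻¹ = z g` for `u = 1 + m E_ij`, `m ≠ 0`, and a central element `z` of `SL_n(ℤ)`; central elements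
are scalar matrices (`Matrix.SpecialLinearGroup.mem_center_iff`) `c` with `c ^ n = 1`, so `c = ± 1`,
`z² = 1` and `u² g u⁻² = z² g = g`.  So `g` commutes with `u² = 1 + 2 m E_ij`, hence
`g E_ij = E_ij g` for all `i ≠ j`, and `g` is a scalar matrix, i.e. central: `ḡ = 1`.  (The case of
`SL_n(ℤ)`, `n` odd, is proved in store helper257_BG_ICN.lean, adapt it.) -/
def S_PSL : Prop :=
  ∀ n : ℕ, 3 ≤ n →
    ∀ g : SpecialLinearGroup (Fin n) ℤ ⧸ Subgroup.center (SpecialLinearGroup (Fin n) ℤ), g ≠ 1 →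
      {x | ∃ k : SpecialLinearGroup (Fin n) ℤ ⧸ Subgroup.center (SpecialLinearGroup (Fin n) ℤ),
        k * g * k⁻¹ = x}.Infinite

end Pool.Agent.H257.BG
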